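import Pool.Agent.Helper76.CY.Delta
import Pool.Agent.Helper37.RP.Pr2

set_option autoImplicit false
set_option linter.unusedVariables false
set_option linter.unusedSectionVars false

/-!
The family of complete intersections of bidegrees `(1,1)`, `(1,1)`, `(2,2)` in `P^3 × P^3`.
-/

namespace Pool.Agent.Helper76.CY

open MvPolynomial Pool.Agent.Helper37.RP

/-- The index set of the coefficients. -/
abbrev Ix : Type := (Fin 4 × Fin 4) ⊕ (Fin 4 × Fin 4) ⊕ (Fin 4 × Fin 4 × Fin 4 × Fin 4)

section

variable {R : Type*} [CommRing R]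

/-- The first form of bidegree `(1,1)`. -/
def pL (c : Ix → R) : Matrix (Fin 4) (Fin 4) R := fun i j => c (.inl (i, j))

/-- The second form of bidegree `(1,1)`. -/
def pL' (c : Ix → R) : Matrix (Fin 4) (Fin 4) R := fun i j => c (.inr (.inl (i, j)))

/-- The form of bidegree `(2,2)`, as a symmetric tensor. -/
def pQ (c : Ix → R) : Fin 4 → Fin 4 → Fin 4 → Fin 4 → R := fun i j k l =>
  c (.inr (.inr (i, j, k, l))) + c (.inr (.inr (j, i, k, l))) +
    (c (.inr (.inr (i, j, l, k))) + c (.inr (.inr (j, i, l, k))))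

theorem pQ_symm (c : Ix → R) (i j k l : Fin 4) : pQ c i j k l = pQ c j i k l := by
  simp only [pQ]
  ring

theorem pQ_symm' (c : Ix → R) (i j k l : Fin 4) : pQ c i j k l = pQ c i j l k := by
  simp only [pQ]
  ring

/-- Exchange the two factors. -/
def swI : Ix → Ix
  | .inl (i, j) => .inl (j, i)
  | .inr (.inl (i, j)) => .inr (.inl (j, i))
  | .inr (.inr (i, j, k, l)) => .inr (.inr (k, l, i, j))

theorem swI_swI (e : Ix) : swI (swI e) = e := by
  rcases e with ⟨i, j⟩ | ⟨i, j⟩ | ⟨i, j, k, l⟩ <;> rfl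

theorem pL_sw (c : Ix → R) : pL (fun e => c (swI e)) = fun i j => pL c j i := rfl

theorem pL'_sw (c : Ix → R) : pL' (fun e => c (swI e)) = fun i j => pL' c j i := rfl

theorem pQ_sw (c : Ix → R) : pQ (fun e => c (swI e)) = fun i j k l => pQ c k l i j := by
  funext i j k l
  simp only [pQ, swI]
  ring

end

theorem map_lin {R S : Type*} [CommRing R] [CommRing S] (f : R →+* S)
    (L : Matrix (Fin 4) (Fin 4) R) (i : Fin 4) :
    MvPolynomial.map f (lin L i) = lin (fun i j => f (L i j)) i := by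
  simp [lin]

theorem map_quad {R S : Type*} [CommRing R] [CommRing S] (f : R →+* S)
    (Q : Fin 4 → Fin 4 → Fin 4 → Fin 4 → R) :
    (quad Q).map (MvPolynomial.map f) = quad (fun i j k l => f (Q i j k l)) := by
  ext1 i j
  simp [quad]

theorem map_chow4 {R S : Type*} [CommRing R] [CommRing S] (f : R →+* S)
    (L L' : Matrix (Fin 4) (Fin 4) R) (Q : Fin 4 → Fin 4 → Fin 4 → Fin 4 → R) (i j : Fin 4) :
    MvPolynomial.map f (chow4 L L' Q i j) = chow4 (fun i j => f (L i j)) (fun i j => f (L' i j))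
      (fun i j k l => f (Q i j k l)) i j := by
  rw [chow4, map_gram, map_quad, map_N4]
  simp only [map_lin]
  rfl

/-- The generic coefficients. -/
noncomputable def gen : Ix → MvPolynomial Ix ℚ := fun e => X e

section

variable {K : Type*} [Field K] [Algebra ℚ K] (c : Ix → K)

theorem map_pL_gen (i j : Fin 4) : aeval c (pL gen i j) = pL c i j := by
  simp [pL, gen]

theorem map_pL'_gen (i j : Fin 4) : aeval c (pL' gen i j) = pL' c i j := by
  simp [pL', gen]

theorem map_pQ_gen (i j k l : Fin 4) : aeval c (pQ gen i j k l) = pQ c i j k l := by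
  simp [pQ, gen]

theorem spec_chow4 (i j : Fin 4) :
    spec (Fin 4) c (chow4 (pL gen) (pL' gen) (pQ gen) i j) = chow4 (pL c) (pL' c) (pQ c) i j := by
  rw [spec, map_chow4]
  have e1 : (fun i j => (aeval c : MvPolynomial Ix ℚ →ₐ[ℚ] K).toRingHom (pL gen i j)) = pL c := by
    funext i j
    exact map_pL_gen c i j
  have e2 : (fun i j => (aeval c : MvPolynomial Ix ℚ →ₐ[ℚ] K).toRingHom (pL' gen i j)) =
      pL' c := by
    funext i j
    exact map_pL'_gen c i j
  have e3 : (fun i j k l => (aeval c : MvPolynomial Ix ℚ →ₐ[ℚ] K).toRingHom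
      (pQ gen i j k l)) = pQ c := by
    funext i j k l
    exact map_pQ_gen c i j k l
  rw [e1, e2, e3]

end

/-- Exchanging the two factors in a polynomial in the coefficients. -/
noncomputable def swP (Δ : MvPolynomial Ix ℚ) : MvPolynomial Ix ℚ := rename swI Δ

theorem aeval_swP {K : Type*} [Field K] [Algebra ℚ K] (c : Ix → K) (Δ : MvPolynomial Ix ℚ) :
    aeval c (swP Δ) = aeval (fun e => c (swI e)) Δ := by
  rw [swP, aeval_rename]
  rfl

theorem swP_ne {Δ : MvPolynomial Ix ℚ} (h : Δ ≠ 0) : swP Δ ≠ 0 := by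
  have hinj : Function.Injective swI := fun a b hab => by
    rw [← swI_swI a, hab, swI_swI]
  rw [swP, ne_eq, ← map_zero (rename swI : MvPolynomial Ix ℚ →ₐ[ℚ] MvPolynomial Ix ℚ)]
  exact fun h' => h (rename_injective _ hinj h')

end Pool.Agent.Helper76.CY
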