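import Mathlib

set_option autoImplicit false
set_option linter.unusedVariables false
set_option linter.unusedSectionVars false

/-!
Fewer than `n` polynomials in `n` variables vanishing at the origin have another common zero.
-/

namespace Pool.Agent.Helper76.CY

open MvPolynomial

variable {K : Type*} [Field K]

/-- translation of the variables -/
noncomputable def transl {σ : Type*} (x : σ → K) : MvPolynomial σ K ≃ₐ[K] MvPolynomial σ K :=
  AlgEquiv.ofAlgHom (aeval fun i => X i + C (x i)) (aeval fun i => X i - C (x i))
    (by
      apply MvPolynomial.algHom_ext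
      intro i
      simp only [AlgHom.comp_apply, aeval_X, map_sub, algHom_C, AlgHom.id_apply]
      rw [MvPolynomial.algebraMap_eq]; ring)
    (by
      apply MvPolynomial.algHom_ext
      intro i
      simp only [AlgHom.comp_apply, aeval_X, map_add, algHom_C, AlgHom.id_apply]
      rw [MvPolynomial.algebraMap_eq]; ring)

theorem eval_transl {σ : Type*} (x y : σ → K) (p : MvPolynomial σ K) :
    eval y (transl x p) = eval (y + x) p := by
  have h : (aeval y : MvPolynomial σ K →ₐ[K] K).comp (transl x : MvPolynomial σ K →ₐ[K]
      MvPolynomial σ K) = aeval (y + x) := by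
    apply MvPolynomial.algHom_ext
    intro i
    simp [transl]
  have h2 := DFunLike.congr_fun h p
  simpa [aeval_eq_eval] using h2

theorem height_point {σ : Type*} [Finite σ] (x : σ → K) :
    (vanishingIdeal K {x} : Ideal (MvPolynomial σ K)).height =
      (vanishingIdeal K {(0 : σ → K)} : Ideal (MvPolynomial σ K)).height := by
  have h : (vanishingIdeal K {x} : Ideal (MvPolynomial σ K)) =
      (vanishingIdeal K {(0 : σ → K)} : Ideal (MvPolynomial σ K)).comap
        ((transl x).toRingEquiv : MvPolynomial σ K ≃+* MvPolynomial σ K) := by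
    ext p
    rw [mem_vanishingIdeal_singleton_iff, Ideal.mem_comap, mem_vanishingIdeal_singleton_iff,
      aeval_eq_eval, aeval_eq_eval]
    change eval x p = 0 ↔ eval 0 (transl x p) = 0
    rw [eval_transl, zero_add]
  rw [h]
  exact RingEquiv.height_comap _ _

/-- fewer than `n` polynomials in `n` variables vanishing at the origin have another common
zero -/
theorem exists_common_zero [IsAlgClosed K] {σ : Type*} [Fintype σ] {k : ℕ}
    (f : Fin k → MvPolynomial σ K)
    (h0 : ∀ i, eval 0 (f i) = 0) (hk : k < Fintype.card σ) :
    ∃ x : σ → K, x ≠ 0 ∧ ∀ i, eval x (f i) = 0 := by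
  classical
  by_contra hcon
  push Not at hcon
  set s : Finset (MvPolynomial σ K) := Finset.univ.image f with hs
  set I : Ideal (MvPolynomial σ K) := Ideal.span (s : Set (MvPolynomial σ K)) with hI
  have hmem : ∀ i, f i ∈ I := fun i => Ideal.subset_span (by simp [hs])
  have hz : zeroLocus K I = {(0 : σ → K)} := by
    ext x
    rw [Set.mem_singleton_iff]
    constructor
    · intro hx
      by_contra hx0
      obtain ⟨i, hi⟩ := hcon x hx0
      apply hi
      have := hx (f i) (hmem i)
      rwa [aeval_eq_eval] at this
    · rintro rfl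
      rw [hI, zeroLocus_span]
      intro p hp
      have hp' : p ∈ s := hp
      rw [hs, Finset.mem_image] at hp'
      obtain ⟨i, _, rfl⟩ := hp'
      rw [aeval_eq_eval]; exact h0 i
  have hrad : I.radical = vanishingIdeal K {(0 : σ → K)} := by
    rw [← vanishingIdeal_zeroLocus_eq_radical (K := K), hz]
  set m0 : Ideal (MvPolynomial σ K) := vanishingIdeal K {(0 : σ → K)} with hm0
  have hmin : m0 ∈ I.minimalPrimes := by
    refine ⟨⟨inferInstance, ?_⟩, ?_⟩
    · rw [← hrad]; exact Ideal.le_radical
    · rintro P ⟨hP, hIP⟩ _
      rw [← hrad]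
      exact hP.radical_le_iff.mpr hIP
  have hle : m0.height ≤ k := by
    refine (Ideal.height_le_card_of_mem_minimalPrimes_span_finset hmin).trans ?_
    have h1 : s.card ≤ k := by
      refine (Finset.card_image_le).trans ?_
      simp
    exact_mod_cast h1
  have hdim : ringKrullDim (MvPolynomial σ K) ≤ (k : WithBot ℕ∞) := by
    rw [ringKrullDim_le_iff_isMaximal_height_le]
    intro M hM
    obtain ⟨x, hx⟩ := eq_vanishingIdeal_singleton_of_isMaximal K hM
    rw [hx, height_point]
    exact_mod_cast hle
  rw [MvPolynomial.ringKrullDim_of_isNoetherianRing] at hdim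
  have h0' : ringKrullDim K = 0 := ringKrullDim_eq_zero_of_field K
  rw [h0', zero_add, Nat.card_eq_fintype_card] at hdim
  have : Fintype.card σ ≤ k := by exact_mod_cast hdim
  omega

end Pool.Agent.Helper76.CY
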