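import Pool.Agent.Helper76.UF.Sq.Q2

set_option autoImplicit false
set_option linter.unusedVariables false
set_option linter.unusedSectionVars false

/-!
Having no common zero is an open condition on the coefficients of homogeneous polynomials.
-/

namespace Pool.Agent.Helper76.CY

open MvPolynomial

/-- specialization of the coefficients -/
noncomputable def spec {τ K : Type*} (σ : Type*) [Field K] [Algebra ℚ K] (c : τ → K) :
    MvPolynomial σ (MvPolynomial τ ℚ) →+* MvPolynomial σ K :=
  MvPolynomial.map (aeval c : MvPolynomial τ ℚ →ₐ[ℚ] K).toRingHom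

theorem coeff_spec {τ σ K : Type*} [Field K] [Algebra ℚ K] (c : τ → K)
    (F : MvPolynomial σ (MvPolynomial τ ℚ)) (m : σ →₀ ℕ) :
    coeff m (spec σ c F) = aeval c (coeff m F) := by
  rw [spec, coeff_map]
  rfl

theorem spec_monomial {τ σ K : Type*} [Field K] [Algebra ℚ K] (c : τ → K) (a : σ →₀ ℕ) :
    spec σ c (monomial a 1) = monomial a 1 := by
  rw [spec, map_monomial, map_one]

theorem isHomogeneous_spec {τ σ K : Type*} [Field K] [Algebra ℚ K] (c : τ → K)
    {F : MvPolynomial σ (MvPolynomial τ ℚ)} {d : ℕ} (hF : F.IsHomogeneous d) :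
    (spec σ c F).IsHomogeneous d := hF.map _

theorem exists_delta_core {τ σ ι : Type*} (F : ι → MvPolynomial σ (MvPolynomial τ ℚ))
    (d : ι → ℕ) (hF : ∀ i, (F i).IsHomogeneous (d i)) (N : ℕ) (M : Finset (σ →₀ ℕ))
    (hM : ∀ m ∈ M, m.degree = N)
    (hsupp : ∀ i (a : σ →₀ ℕ), a.degree + d i = N → ∀ m ∈ (F i).support, a + m ∈ M)
    (c0 : τ → ℚ)
    (h0 : ∀ m ∈ M, monomial m (1 : ℚ) ∈ Ideal.span (Set.range fun i => spec σ c0 (F i))) :
    ∃ Δ : MvPolynomial τ ℚ, aeval c0 Δ ≠ 0 ∧ ∀ (K : Type*) [Field K] [Algebra ℚ K] (c : τ → K),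
      aeval c Δ ≠ 0 → ∀ x : σ → K, (∀ i, eval x (spec σ c (F i)) = 0) →
        ∀ m ∈ M, eval x (monomial m (1 : K)) = 0 := by
  classical
  let S : Set (M → MvPolynomial τ ℚ) := {R | ∃ (i : ι) (a : σ →₀ ℕ), a.degree + d i = N ∧
    R = fun m => coeff m.1 (monomial a 1 * F i)}
  obtain ⟨T0, hT0, hdet0⟩ := Pool.Agent.Helper76.UF.q2_exists_rows
    ((fun (R : M → MvPolynomial τ ℚ) (m : M) => aeval c0 (R m)) '' S) (by
      intro l hl
      let L : MvPolynomial σ ℚ →ₗ[ℚ] ℚ := ∑ m : M, (l m) • (lcoeff ℚ m.1)
      have hL : ∀ f, L f = ∑ m : M, l m * coeff m.1 f := by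
        intro f
        simp [L, LinearMap.sum_apply]
      have h1 : ∀ i (a : σ →₀ ℕ), L (monomial a 1 * spec σ c0 (F i)) = 0 := by
        intro i a
        rw [hL]
        by_cases had : a.degree + d i = N
        · have h := hl (fun m : M => aeval c0 (coeff m.1 (monomial a 1 * F i)))
            ⟨_, ⟨i, a, had, rfl⟩, rfl⟩
          rw [← h]
          refine Finset.sum_congr rfl fun m _ => ?_
          rw [mul_comm, ← coeff_spec, map_mul, spec_monomial]
        · refine Finset.sum_eq_zero fun m _ => ?_
          have hh : (monomial a (1 : ℚ) * spec σ c0 (F i)).IsHomogeneous (a.degree + d i) :=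
            (isHomogeneous_monomial (d := a) (1 : ℚ) rfl).mul (isHomogeneous_spec c0 (hF i))
          rw [hh.coeff_eq_zero (by rw [hM m.1 m.2]; exact fun h => had h.symm), mul_zero]
      have h2 : ∀ i (g : MvPolynomial σ ℚ), L (g * spec σ c0 (F i)) = 0 := by
        intro i g
        induction g using MvPolynomial.induction_on' with
        | monomial u a =>
          have : monomial u a = a • (monomial u (1 : ℚ)) := by
            rw [smul_monomial, smul_eq_mul, mul_one]
          rw [this, smul_mul_assoc, map_smul, h1, smul_zero]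
        | add p q hp hq => rw [add_mul, map_add, hp, hq, add_zero]
      have h3 : ∀ f ∈ Ideal.span (Set.range fun i => spec σ c0 (F i)),
          ∀ g : MvPolynomial σ ℚ, L (g * f) = 0 := by
        intro f hf
        refine Submodule.span_induction ?_ ?_ ?_ ?_ hf
        · rintro _ ⟨i, rfl⟩ g
          exact h2 i g
        · intro g
          rw [mul_zero, map_zero]
        · intro x y _ _ hx hy g
          rw [mul_add, map_add, hx, hy, add_zero]
        · intro a x _ hx g
          rw [smul_eq_mul, ← mul_assoc]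
          exact hx _
      funext m
      have h4 := h3 _ (h0 m.1 m.2) 1
      rw [one_mul, hL, Finset.sum_eq_single m] at h4
      · simpa using h4
      · intro b _ hb
        rw [coeff_monomial, if_neg (fun h => hb (Subtype.ext h.symm)), mul_zero]
      · intro h
        exact absurd (Finset.mem_univ m) h)
  choose T hT1 hT2 using hT0
  refine ⟨(Matrix.of T).det, ?_, ?_⟩
  · have h : (aeval c0 : MvPolynomial τ ℚ →ₐ[ℚ] ℚ) (Matrix.of T).det = T0.det := by
      rw [AlgHom.map_det]
      congr 1
      ext m m'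
      rw [← hT2 m]
      rfl
    rw [h]
    exact hdet0
  · intro K _ _ c hc x hx
    have hT : ((Matrix.of T).map (aeval c : MvPolynomial τ ℚ →ₐ[ℚ] K)).mulVec
        (fun m : M => eval x (monomial m.1 (1 : K))) = 0 := by
      funext m
      obtain ⟨i, a, had, hR⟩ := hT1 m
      have h5 : eval x (spec σ c (monomial a 1 * F i)) = 0 := by
        rw [map_mul, map_mul, hx i, mul_zero]
      rw [Pi.zero_apply, ← h5]
      rw [Matrix.mulVec, dotProduct]
      have h6 : ∀ m' : M, (Matrix.of T).map (aeval c : MvPolynomial τ ℚ →ₐ[ℚ] K) m m' =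
          coeff m'.1 (spec σ c (monomial a 1 * F i)) := by
        intro m'
        rw [coeff_spec, Matrix.map_apply, Matrix.of_apply, hR]
      simp only [h6]
      have h7 : (spec σ c (monomial a 1 * F i)).support ⊆ M := by
        intro u hu
        rw [map_mul, spec_monomial, mem_support_iff, coeff_monomial_mul'] at hu
        split_ifs at hu with h8
        · rw [one_mul, coeff_spec] at hu
          have h9 : u - a ∈ (F i).support := by
            rw [mem_support_iff]
            intro h
            rw [h, map_zero] at hu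
            exact hu rfl
          have := hsupp i a had _ h9
          rwa [add_tsub_cancel_of_le h8] at this
        · exact absurd rfl hu
      rw [eval_eq, Finset.sum_subset h7 (fun u _ hu => by
        rw [notMem_support_iff.1 hu, zero_mul])]
      rw [← Finset.sum_coe_sort M]
      refine Finset.sum_congr rfl fun m' _ => ?_
      rw [eval_monomial, one_mul]
      rfl
    have hdet : ((Matrix.of T).map (aeval c : MvPolynomial τ ℚ →ₐ[ℚ] K)).det ≠ 0 := by
      have h := AlgHom.map_det (aeval c : MvPolynomial τ ℚ →ₐ[ℚ] K) (Matrix.of T)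
      rw [AlgHom.mapMatrix_apply] at h
      rw [← h]
      exact hc
    have h10 := Matrix.eq_zero_of_mulVec_eq_zero hdet hT
    intro m hm
    exact congrFun h10 ⟨m, hm⟩

/-- Having no nontrivial common zero is an open condition. -/
theorem exists_delta {τ σ ι Ω : Type*} [Fintype σ] [Field Ω] [Algebra ℚ Ω] [IsAlgClosed Ω]
    (F : ι → MvPolynomial σ (MvPolynomial τ ℚ))
    (d : ι → ℕ) (hF : ∀ i, (F i).IsHomogeneous (d i)) (c0 : τ → ℚ)
    (h0 : ∀ x : σ → Ω, (∀ i, aeval x (spec σ c0 (F i)) = 0) → x = 0) :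
    ∃ Δ : MvPolynomial τ ℚ, aeval c0 Δ ≠ 0 ∧ ∀ (K : Type*) [Field K] [Algebra ℚ K] (c : τ → K),
      aeval c Δ ≠ 0 → ∀ x : σ → K, (∀ i, eval x (spec σ c (F i)) = 0) → x = 0 := by
  classical
  set I : Ideal (MvPolynomial σ ℚ) := Ideal.span (Set.range fun i => spec σ c0 (F i)) with hI
  have h1 : ∀ j : σ, ∃ n : ℕ, (X j : MvPolynomial σ ℚ) ^ n ∈ I := by
    intro j
    have h2 : (X j : MvPolynomial σ ℚ) ∈ vanishingIdeal ℚ (zeroLocus Ω I) := by
      rw [mem_vanishingIdeal_iff]
      intro x hx
      rw [aeval_X]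
      rw [h0 x (fun i => hx _ (Ideal.subset_span ⟨i, rfl⟩))]
      rfl
    rw [vanishingIdeal_zeroLocus_eq_radical] at h2
    exact h2
  choose n hn using h1
  let N := ∑ j, n j + 1
  let M : Finset (σ →₀ ℕ) := (Finset.univ : Finset σ).finsuppAntidiag N
  have hMm : ∀ m : σ →₀ ℕ, m ∈ M ↔ m.degree = N := by
    intro m
    rw [Finset.mem_finsuppAntidiag]
    constructor
    · intro h
      rw [← h.1, Finsupp.degree_eq_sum]
    · intro h
      refine ⟨?_, Finset.subset_univ _⟩
      rw [← h, Finsupp.degree_eq_sum]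
  obtain ⟨Δ, hΔ, h⟩ := exists_delta_core F d hF N M (fun m hm => (hMm m).1 hm)
    (fun i a had m hm => by
      rw [hMm, map_add, ← had]
      congr 1
      have h3 := hF i (mem_support_iff.1 hm)
      rw [← h3, Finsupp.degree_eq_weight_one]
      rfl) c0 (fun m hm => by
      have h3 := (hMm m).1 hm
      have h4 : ∃ j, n j ≤ m j := by
        by_contra hcon
        push Not at hcon
        have h5 : ∑ j, m j ≤ ∑ j, n j := Finset.sum_le_sum fun j _ => (hcon j).le
        rw [Finsupp.degree_eq_sum] at h3
        omega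
      obtain ⟨j, hj⟩ := h4
      have h6 : monomial m (1 : ℚ) = monomial (m - Finsupp.single j (n j)) 1 * X j ^ n j := by
        rw [X_pow_eq_monomial, monomial_mul, one_mul, tsub_add_cancel_of_le]
        rw [Finsupp.single_le_iff]
        exact hj
      rw [h6]
      exact Ideal.mul_mem_left _ _ (hn j))
  refine ⟨Δ, hΔ, fun K _ _ c hc x hx => ?_⟩
  funext j
  have h7 := h K c hc x hx (Finsupp.single j N) (by
    rw [hMm]
    simp)
  rw [eval_monomial, one_mul, Finsupp.prod_single_index (h := fun n e => x n ^ e)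
    (pow_zero _)] at h7
  exact pow_eq_zero_iff (by omega) |>.1 h7

end Pool.Agent.Helper76.CY
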