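import Pool.Agent.Helper76.CY.Lin

/-!
# Parts of the assembly of project CY that do not depend on the other pieces
-/

namespace Pool.Agent.Helper76.CY

open MvPolynomial

theorem Window.zero' {K : Type*} [Field K] {D : Ten K} (hD : Window D) (i j k : Fin 3) :
    D (c3 i) (c3 j) (c3 k) = 0 := by
  have key : ∀ a b c : Fin 3, a ≤ b → b ≤ c → D (c3 a) (c3 b) (c3 c) = 0 := by
    intro a b c hab hbc
    apply hD.zero
    · exact hab
    · exact hbc
    · show (c3 c : Fin 10).val ≤ (3 : Fin 10).val
      have := c.2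
      simp only [c3, Fin.val_castLE]
      show (c : ℕ) ≤ 3
      omega
    · rintro ⟨_, _, h3⟩
      have h4 : (c3 c : Fin 10).val = (3 : Fin 10).val := by rw [h3]
      have := c.2
      simp only [c3, Fin.val_castLE] at h4
      change (c : ℕ) = 3 at h4
      omega
  rcases le_total i j with h1 | h1 <;> rcases le_total j k with h2 | h2 <;>
    rcases le_total i k with h3 | h3
  · exact key i j k h1 h2
  · exact key i j k h1 h2
  · rw [hD.swap23]; exact key i k j h3 h2
  · rw [hD.swap23, hD.swap12]; exact key k i j h3 h1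
  · rw [hD.swap12]; exact key j i k h1 h3
  · rw [hD.swap12, hD.swap23]; exact key j k i h2 h3
  · rw [hD.swap12, hD.swap23, hD.swap12]; exact key k j i h2 h1
  · rw [hD.swap12, hD.swap23, hD.swap12]; exact key k j i h2 h1

/-- Substitution by linear forms: a polynomial that vanishes on the span of the vectors `v i`
vanishes after composition with a linear map with values in this span. -/
theorem span_factor {ι K : Type*} [Fintype ι] [DecidableEq ι] [Field K] {n : ℕ}
    (v : Fin n → ι → K) (π : (ι → K) →ₗ[K] (ι → K))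
    (hπ : ∀ w, π w ∈ Submodule.span K (Set.range v)) (F : MvPolynomial ι K)
    (hF : aeval (fun q => ∑ i : Fin n, C (v i q) * X i : ι → MvPolynomial (Fin n) K) F = 0) :
    aeval (linMap π) F = 0 := by
  have h1 : ∀ q' : ι, ∃ c : Fin n → K, ∑ i, c i • v i = π (Pi.single q' 1) := by
    intro q'
    exact (Submodule.mem_span_range_iff_exists_fun K).1 (hπ _)
  choose c hc using h1
  have h2 : (aeval (linMap π) : MvPolynomial ι K →ₐ[K] MvPolynomial ι K) =
      (aeval (fun i : Fin n => ∑ q', C (c q' i) * X q' : Fin n → MvPolynomial ι K)).comp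
      (aeval (fun q => ∑ i : Fin n, C (v i q) * X i : ι → MvPolynomial (Fin n) K)) := by
    apply MvPolynomial.algHom_ext
    intro q
    rw [AlgHom.comp_apply, aeval_X, aeval_X, map_sum]
    simp only [map_mul, aeval_X]
    have h3 : ∀ (i : Fin n), (aeval (fun i : Fin n => ∑ q', C (c q' i) * X q' :
        Fin n → MvPolynomial ι K)) (C (v i q)) = C (v i q) := by
      intro i
      rw [aeval_C]
      rfl
    simp only [h3, Finset.mul_sum]
    rw [Finset.sum_comm]
    rw [linMap, lin]
    refine Finset.sum_congr rfl fun q' _ => ?_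
    rw [LinearMap.comp_apply, LinearMap.proj_apply, ← hc q', Finset.sum_apply, map_sum,
      Finset.sum_mul]
    refine Finset.sum_congr rfl fun i _ => ?_
    rw [Pi.smul_apply, smul_eq_mul, map_mul]
    ring
  rw [h2, AlgHom.comp_apply, hF, map_zero]

/-- The tangent vector of an arc satisfies the linearised equations. -/
theorem IsArc.tanVal_eq_zero {K O : Type*} [Field K] [CommRing O] [IsDomain O] [Algebra K O]
    {t : O} (ht0 : t ≠ 0) (htu : ¬ IsUnit t) {D : Ten K} (hD : Window D) {τ : Idx → K}
    {a : Idx → O} (ha : IsArc t D τ a) (i j k : Fin 3) : tanVal D τ i j k = 0 := by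
  have hmem : ∀ (i : Fin 3) (l : Fin 10), tv a i l ∈ Ideal.span {t} := by
    intro i l
    rw [tv]
    split_ifs with h
    · exact Ideal.zero_mem _
    · have h1 := ha.tangent (i, ⟨(l : ℕ) - 3, by omega⟩)
      have h2 : Ideal.span {t ^ 2} ≤ Ideal.span {t} := by
        rw [Ideal.span_singleton_le_span_singleton]
        exact dvd_pow_self t (by norm_num)
      have h3 := Ideal.add_mem _ (h2 h1) (Ideal.mul_mem_right (algebraMap K O
        (τ (i, ⟨(l : ℕ) - 3, by omega⟩))) _ (Ideal.mem_span_singleton_self t))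
      rwa [sub_add_cancel] at h3
  have hcong : ∀ (i : Fin 3) (l : Fin 10), (tv a i - t • tv (fun q => algebraMap K O (τ q)) i) l
      ∈ Ideal.span {t ^ 2} := by
    intro i l
    rw [Pi.sub_apply, Pi.smul_apply, smul_eq_mul, tv, tv]
    split_ifs with h
    · simp
    · exact ha.tangent _
  have hsq : Ideal.span {t} * Ideal.span {t} = Ideal.span {t ^ 2} := by
    rw [Ideal.span_singleton_mul_span_singleton, pow_two]
  have e : ∀ i : Fin 3, row a i = bv O (c3 i) + tv a i := fun i => rfl
  have h0 := ha.plane i j k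
  rw [e i, e j, e k] at h0
  simp only [tri_add_left, tri_add_mid, tri_add_right] at h0
  rw [tri_bv, hD.zero', map_zero] at h0
  -- quadratic terms
  have q1 : tri D (tv a i) (tv a j) (bv O (c3 k)) ∈ Ideal.span {t ^ 2} := by
    rw [← hsq]; exact tri_mem_mul_left_mid D _ _ (hmem i) (hmem j) _
  have q2 : tri D (tv a i) (bv O (c3 j)) (tv a k) ∈ Ideal.span {t ^ 2} := by
    rw [← hsq, tri_swap23 hD.swap23]; exact tri_mem_mul_left_mid D _ _ (hmem i) (hmem k) _
  have q3 : tri D (bv O (c3 i)) (tv a j) (tv a k) ∈ Ideal.span {t ^ 2} := by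
    rw [← hsq, tri_swap12 hD.swap12, tri_swap23 hD.swap23]
    exact tri_mem_mul_left_mid D _ _ (hmem j) (hmem k) _
  have q4 : tri D (tv a i) (tv a j) (tv a k) ∈ Ideal.span {t ^ 2} := by
    rw [← hsq]; exact tri_mem_mul_left_mid D _ _ (hmem i) (hmem j) _
  -- linear terms
  have tvm : ∀ (i : Fin 3) , tv (fun q => algebraMap K O (τ q)) i =
      fun l => algebraMap K O (tv τ i l) := by
    intro i
    funext l
    rw [tv, tv]
    split_ifs <;> simp
  have bvm : ∀ (l : Fin 10), bv O l = fun s => algebraMap K O (bv K l s) := by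
    intro l
    funext s
    rw [bv_apply, bv_apply]
    split_ifs <;> simp
  have tm : ∀ x y z : Fin 10 → K, tri D (fun l => algebraMap K O (x l))
      (fun l => algebraMap K O (y l)) (fun l => algebraMap K O (z l)) =
      algebraMap K O (tri D x y z) := by
    intro x y z
    have := tri_map D (Algebra.ofId K O) x y z
    exact this.symm
  have l1 : tri D (tv a i) (bv O (c3 j)) (bv O (c3 k)) -
      t * algebraMap K O (tri D (tv τ i) (bv K (c3 j)) (bv K (c3 k))) ∈ Ideal.span {t ^ 2} := by
    rw [← tm, ← tri_smul_left, ← bvm, ← bvm, ← tvm, ← tri_sub_left]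
    exact tri_mem_left D _ (hcong i) _ _
  have l2 : tri D (bv O (c3 i)) (tv a j) (bv O (c3 k)) -
      t * algebraMap K O (tri D (bv K (c3 i)) (tv τ j) (bv K (c3 k))) ∈ Ideal.span {t ^ 2} := by
    rw [← tm, ← tri_smul_mid, ← bvm, ← bvm, ← tvm, ← tri_sub_mid]
    exact tri_mem_mid D _ _ (hcong j) _
  have l3 : tri D (bv O (c3 i)) (bv O (c3 j)) (tv a k) -
      t * algebraMap K O (tri D (bv K (c3 i)) (bv K (c3 j)) (tv τ k)) ∈ Ideal.span {t ^ 2} := by
    rw [← tm, ← tri_smul_right, ← bvm, ← bvm, ← tvm, ← tri_sub_right]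
    exact tri_mem_right D _ _ _ (hcong k)
  have hsum : t * algebraMap K O (tanVal D τ i j k) ∈ Ideal.span {t ^ 2} := by
    have h5 := Ideal.add_mem _ (Ideal.add_mem _ (Ideal.add_mem _ (Ideal.add_mem _
      (Ideal.add_mem _ (Ideal.add_mem _ l1 l2) l3) q1) q2) q3) q4
    have h6 : t * algebraMap K O (tanVal D τ i j k) = -((tri D (tv a i) (bv O (c3 j))
      (bv O (c3 k)) - t * algebraMap K O (tri D (tv τ i) (bv K (c3 j)) (bv K (c3 k))) +
      (tri D (bv O (c3 i)) (tv a j) (bv O (c3 k)) -
      t * algebraMap K O (tri D (bv K (c3 i)) (tv τ j) (bv K (c3 k)))) +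
      (tri D (bv O (c3 i)) (bv O (c3 j)) (tv a k) -
      t * algebraMap K O (tri D (bv K (c3 i)) (bv K (c3 j)) (tv τ k))) +
      tri D (tv a i) (tv a j) (bv O (c3 k)) + tri D (tv a i) (bv O (c3 j)) (tv a k) +
      tri D (bv O (c3 i)) (tv a j) (tv a k) + tri D (tv a i) (tv a j) (tv a k))) := by
      rw [tanVal, map_add, map_add]
      linear_combination h0
    rw [h6]
    exact neg_mem h5
  rw [Ideal.mem_span_singleton] at hsum
  obtain ⟨c, hc⟩ := hsum
  have h7 : algebraMap K O (tanVal D τ i j k) = t * c := by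
    have : t * algebraMap K O (tanVal D τ i j k) = t * (t * c) := by rw [hc]; ring
    exact mul_left_cancel₀ ht0 this
  by_contra hne
  apply htu
  have h8 : IsUnit (algebraMap K O (tanVal D τ i j k)) := (isUnit_iff_ne_zero.2 hne).map _
  rw [h7] at h8
  exact isUnit_of_mul_isUnit_left h8

end Pool.Agent.Helper76.CY
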