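import Pool.Agent.Helper76.CY.Bad
import Pool.Agent.Helper63.NPD.Inst

set_option autoImplicit false
set_option linter.unusedVariables false
set_option linter.unusedSectionVars false

/-!
For general coefficients the conditions `Cond4` hold.
-/

namespace Pool.Agent.Helper76.CY

open MvPolynomial Pool.Agent.Helper37.RP Pool.Agent.Helper63.NPD

universe u

section

variable {K : Type*} [Field K] [Algebra ℚ K] (c : Ix → K)

theorem spec_lin (i : Fin 4) : spec (Fin 4) c (lin (pL gen) i) = lin (pL c) i := by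
  rw [spec, map_lin]
  congr 1
  funext i j
  exact map_pL_gen c i j

theorem spec_lin' (i : Fin 4) : spec (Fin 4) c (lin (pL' gen) i) = lin (pL' c) i := by
  rw [spec, map_lin]
  congr 1
  funext i j
  exact map_pL'_gen c i j

theorem spec_quad (i j : Fin 4) : spec (Fin 4) c (quad (pQ gen) i j) = quad (pQ c) i j := by
  have h := map_quad (aeval c : MvPolynomial Ix ℚ →ₐ[ℚ] K).toRingHom (pQ gen)
  have e3 : (fun i j k l => (aeval c : MvPolynomial Ix ℚ →ₐ[ℚ] K).toRingHom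
      (pQ gen i j k l)) = pQ c := by
    funext i j k l
    exact map_pQ_gen c i j k l
  rw [e3] at h
  exact congrFun (congrFun h i) j

end

theorem bil_single {R : Type*} [CommRing R] (M : Matrix (Fin 4) (Fin 4) R) (i j : Fin 4) :
    bil M (Pi.single i 1) (Pi.single j 1) = M i j := by
  simp [bil, Pi.single_apply]

/-- For general coefficients `L(., y)` is not zero for `y` not zero. -/
theorem lin_side : ∃ Δ : MvPolynomial Ix ℚ, Δ ≠ 0 ∧ ∀ (K : Type u) [Field K] [Algebra ℚ K]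
    (c : Ix → K), aeval c Δ ≠ 0 → ∀ y : Fin 4 → K, y ≠ 0 → ∃ x, ¬ OnL (pL c) x y := by
  obtain ⟨Δ, hΔ, h⟩ := exists_delta.{0, 0, 0, 0, u} (τ := Ix) (σ := Fin 4)
    (ι := Fin 4) (Ω := AlgebraicClosure ℚ)
    (fun i => lin (pL gen) i) (fun _ => 1) (fun i => isHomogeneous_lin _ _) cb (by
      intro y hy
      rw [← cb_a y]
      funext i
      have := hy i
      rwa [spec_lin] at this)
  refine ⟨Δ, fun h0 => hΔ (by rw [h0, map_zero]), fun K _ _ c hc y hy => ?_⟩
  by_contra hcon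
  push Not at hcon
  refine hy (h K c hc y fun i => ?_)
  rw [spec_lin, ← aeval_eq_eval]
  have h1 := hcon (Pi.single i 1)
  rw [onL_iff] at h1
  simpa [Pi.single_apply] using h1

/-- The square of `Q` on the plane `a . x = 0`. -/
noncomputable def planeQ {R : Type*} [CommRing R] (L : Matrix (Fin 4) (Fin 4) R)
    (Q : Fin 4 → Fin 4 → Fin 4 → Fin 4 → R) (i j : Fin 4) : MvPolynomial (Fin 4) R :=
  lin L i * lin L i * quad Q j j - lin L i * lin L j * (quad Q i j + quad Q j i) +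
    lin L j * lin L j * quad Q i i

theorem isHomogeneous_planeQ {R : Type*} [CommRing R] (L : Matrix (Fin 4) (Fin 4) R)
    (Q : Fin 4 → Fin 4 → Fin 4 → Fin 4 → R) (i j : Fin 4) : (planeQ L Q i j).IsHomogeneous 4 := by
  have hl := isHomogeneous_lin L
  have hq := isHomogeneous_quad Q
  refine IsHomogeneous.add (IsHomogeneous.sub ?_ ?_) ?_
  · exact ((hl i).mul (hl i)).mul (hq j j)
  · exact ((hl i).mul (hl j)).mul ((hq i j).add (hq j i))
  · exact ((hl j).mul (hl j)).mul (hq i i)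

/-- an example -/
def cs : Ix → ℚ
  | .inl (i, j) => if i = j then 1 else 0
  | .inr (.inl (i, j)) => if i = j then (i.val : ℚ) else 0
  | .inr (.inr (i, j, k, l)) => if i = j ∧ k = l then 1 else 0

theorem cs_main {Ω : Type*} [Field Ω] [Algebra ℚ Ω] (y : Fin 4 → Ω)
    (h1 : ∀ i j, aeval y (plk (lin (pL cs)) (lin (pL' cs)) i j) = 0)
    (h2 : ∀ i j, aeval y (planeQ (pL cs) (pQ cs) i j) = 0) : y = 0 := by
  have hch : CharZero Ω := algebraRat.charZero Ω
  have ha : ∀ i, aeval y (lin (pL cs) i) = y i := by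
    intro i
    rw [aeval_lin]
    fin_cases i <;> simp [pL, cs]
  have hb : ∀ i, aeval y (lin (pL' cs) i) = (i.val : Ω) * y i := by
    intro i
    rw [aeval_lin]
    fin_cases i <;> simp [Fin.sum_univ_four, pL', cs]
  have hM : ∀ i j, aeval y (quad (pQ cs) i j) = if i = j then 4 * ∑ k, y k ^ 2 else 0 := by
    intro i j
    rw [aeval_quad]
    fin_cases i <;> fin_cases j <;> simp [Fin.sum_univ_four, pQ, cs] <;> ring
  have h3 : ∀ i j : Fin 4, i ≠ j → y i * y j = 0 := by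
    intro i j hij
    have h := h1 i j
    simp only [plk, map_sub, map_mul, ha, hb] at h
    have h4 : ((j.val : Ω) - (i.val : Ω)) * (y i * y j) = 0 := by linear_combination h
    refine (mul_eq_zero.1 h4).resolve_left fun h5 => hij ?_
    have h6 : (j.val : Ω) = (i.val : Ω) := sub_eq_zero.1 h5
    exact (Fin.ext (Nat.cast_injective h6)).symm
  by_contra hy
  obtain ⟨i, hi⟩ := Function.ne_iff.1 hy
  rw [Pi.zero_apply] at hi
  have h5 : ∀ j, j ≠ i → y j = 0 := fun j hj => (mul_eq_zero.1 (h3 i j hj.symm)).resolve_left hi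
  obtain ⟨j, hj⟩ : ∃ j : Fin 4, j ≠ i := ⟨i + 1, by fin_cases i <;> decide⟩
  have h6 := h2 i j
  simp only [planeQ, map_sub, map_add, map_mul, ha, hM, h5 j hj] at h6
  have h7 : ∑ k, y k ^ 2 = y i ^ 2 := by
    rw [Finset.sum_eq_single i]
    · intro b _ hb
      rw [h5 b hb]
      ring
    · intro h
      exact absurd (Finset.mem_univ i) h
  rw [h7] at h6
  simp at h6
  exact hi h6

/-- For general coefficients no fibre contains a surface. -/
theorem surf_side : ∃ Δ : MvPolynomial Ix ℚ, Δ ≠ 0 ∧ ∀ (K : Type u) [Field K] [Algebra ℚ K]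
    (c : Ix → K), aeval c Δ ≠ 0 → ∀ y : Fin 4 → K, y ≠ 0 →
      ¬ ∀ x, OnL (pL c) x y → OnL (pL' c) x y ∧ OnQ (pQ c) x y := by
  obtain ⟨Δ, hΔ, h⟩ := exists_delta.{0, 0, 0, 0, u} (τ := Ix) (σ := Fin 4)
    (ι := (Fin 4 × Fin 4) ⊕ (Fin 4 × Fin 4)) (Ω := AlgebraicClosure ℚ)
    (fun i => i.elim (fun p => plk (lin (pL gen)) (lin (pL' gen)) p.1 p.2)
      (fun p => planeQ (pL gen) (pQ gen) p.1 p.2)) (fun i => i.elim (fun _ => 2) (fun _ => 4)) (by
      rintro (⟨i, j⟩ | ⟨i, j⟩)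
      · exact isHomogeneous_plk _ _ (isHomogeneous_lin _) (isHomogeneous_lin _) _ _
      · exact isHomogeneous_planeQ _ _ _ _) cs (by
      intro y hy
      refine cs_main y (fun i j => ?_) (fun i j => ?_)
      · have := hy (.inl (i, j))
        simp only [Sum.elim_inl, plk, map_sub, map_mul, spec_lin, spec_lin'] at this
        simpa only [plk, map_sub, map_mul] using this
      · have := hy (.inr (i, j))
        simp only [Sum.elim_inr, planeQ, map_sub, map_mul, map_add, spec_lin, spec_quad] at this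
        simpa only [planeQ, map_sub, map_mul, map_add] using this)
  refine ⟨Δ, fun h0 => hΔ (by rw [h0, map_zero]), fun K _ _ c hc y hy hcon => ?_⟩
  refine hy (h K c hc y ?_)
  have key : ∀ i j : Fin 4, OnL (pL c) (fun m => eval y (lin (pL c) i) *
      (Pi.single j 1 : Fin 4 → K) m + (-eval y (lin (pL c) j)) *
        (Pi.single i 1 : Fin 4 → K) m) y := by
    intro i j
    rw [onL_iff]
    simp only [mul_add, Finset.sum_add_distrib]
    simp [Pi.single_apply]
    ring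
  rintro (⟨i, j⟩ | ⟨i, j⟩)
  · have h1 := (hcon _ (key i j)).1
    rw [onL_iff] at h1
    simp only [mul_add, Finset.sum_add_distrib] at h1
    simp [Pi.single_apply] at h1
    simp only [Sum.elim_inl, plk, map_sub, map_mul, spec_lin, spec_lin']
    linear_combination h1
  · have h1 := (hcon _ (key i j)).2
    rw [onQ_iff, bil_lin] at h1
    simp only [bil_single, Matrix.map_apply, aeval_eq_eval] at h1
    simp only [Sum.elim_inr, planeQ, map_sub, map_mul, map_add, spec_lin, spec_quad]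
    linear_combination h1

/-- The same for the other factor. -/
theorem lin_side' : ∃ Δ : MvPolynomial Ix ℚ, Δ ≠ 0 ∧ ∀ (K : Type u) [Field K] [Algebra ℚ K]
    (c : Ix → K), aeval c Δ ≠ 0 → ∀ x : Fin 4 → K, x ≠ 0 → ∃ y, ¬ OnL (pL c) x y := by
  obtain ⟨Δ, hΔ, h⟩ := lin_side.{u}
  refine ⟨swP Δ, swP_ne hΔ, fun K _ _ c hc x hx => ?_⟩
  rw [aeval_swP] at hc
  obtain ⟨y, hy⟩ := h K _ hc x hx
  refine ⟨y, fun h1 => hy ?_⟩
  rw [pL_sw]
  exact (onL_transpose (pL c) x y).2 h1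

/-- The same for the other factor. -/
theorem surf_side' : ∃ Δ : MvPolynomial Ix ℚ, Δ ≠ 0 ∧ ∀ (K : Type u) [Field K] [Algebra ℚ K]
    (c : Ix → K), aeval c Δ ≠ 0 → ∀ x : Fin 4 → K, x ≠ 0 →
      ¬ ∀ y, OnL (pL c) x y → OnL (pL' c) x y ∧ OnQ (pQ c) x y := by
  obtain ⟨Δ, hΔ, h⟩ := surf_side.{u}
  refine ⟨swP Δ, swP_ne hΔ, fun K _ _ c hc x hx hcon => ?_⟩
  rw [aeval_swP] at hc
  refine h K _ hc x hx fun y hy => ?_
  rw [pL_sw] at hy
  obtain ⟨h1, h2⟩ := hcon y ((onL_transpose (pL c) x y).1 hy)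
  rw [pL'_sw, pQ_sw]
  exact ⟨(onL_transpose (pL' c) x y).2 h1, (onQ_transpose (pQ c) x y).2 h2⟩

/-- For general coefficients the conditions `Cond4` hold over every extension field. -/
theorem cond4 : ∃ Δ : MvPolynomial Ix ℚ, Δ ≠ 0 ∧ ∀ (K : Type u) [Field K] [Algebra ℚ K]
    (c : Ix → K), aeval c Δ ≠ 0 → Cond4 (pL c) (pL' c) (pQ c) := by
  obtain ⟨Δ1, h1, H1⟩ := bad_side.{u}
  obtain ⟨Δ2, h2, H2⟩ := bad_side'.{u}
  obtain ⟨Δ3, h3, H3⟩ := lin_side.{u}
  obtain ⟨Δ4, h4, H4⟩ := lin_side'.{u}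
  obtain ⟨Δ5, h5, H5⟩ := surf_side.{u}
  obtain ⟨Δ6, h6, H6⟩ := surf_side'.{u}
  refine ⟨Δ1 * Δ2 * Δ3 * Δ4 * Δ5 * Δ6, mul_ne_zero (mul_ne_zero (mul_ne_zero (mul_ne_zero
    (mul_ne_zero h1 h2) h3) h4) h5) h6, fun K _ _ c hc => ?_⟩
  simp only [map_mul, mul_ne_zero_iff] at hc
  obtain ⟨⟨⟨⟨⟨c1, c2⟩, c3⟩, c4⟩, c5⟩, c6⟩ := hc
  exact {
    bad := H1 K c c1
    bad' := H2 K c c2
    lin := H4 K c c4
    lin' := H3 K c c3
    surf := H6 K c c6
    surf' := H5 K c c5 }

end Pool.Agent.Helper76.CY
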