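import Pool.Agent.Helper76.CY.Dom2
import Pool.Agent.Helper76.CY.Cond
import Pool.Agent.Helper92.CY.Defs
import Mathlib.RingTheory.Polynomial.Resultant.Basic

set_option autoImplicit false
set_option linter.unusedVariables false
set_option linter.unusedSectionVars false
set_option linter.unusedSimpArgs false

/-!
The pieces CY-7 and CY-11.
-/

namespace Pool.Agent.Helper76.CY.Std7

open MvPolynomial Pool.Agent.Helper37.RP Pool.Agent.Helper76.CY Pool.Agent.Helper92.CY

/-- CY-11. General coefficients have finitely many bad points. -/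
theorem exists_cond : ∃ Δ : MvPolynomial Ix ℚ, Δ ≠ 0 ∧
    ∀ (k : Type) [Field k] [IsAlgClosed k] [CharZero k] (c : Ix → k), aeval c Δ ≠ 0 →
      Pool.Agent.Helper63.NPD.Cond4 (pL c) (pL' c) (pQ c) := by
  obtain ⟨Δ, hΔ, h⟩ := cond4.{0}
  exact ⟨Δ, hΔ, fun k _ _ _ c hc => h k c hc⟩

section

variable {R : Type*} [CommRing R] [Algebra ℚ R]

theorem alg_half (r s : ℚ) (n : ℕ) (h : n * r = s) : (n : R) * algebraMap ℚ R r = algebraMap ℚ R s := by
  rw [← h, map_mul, map_natCast]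

theorem std_nf (c : Ix → R) : Std (nf c) where
  l0 j := by
    fin_cases j <;> simp [pL, nf, nfL]
  l1 j := by
    fin_cases j <;> simp [pL, nf, nfL]
  l2 := by simp [pL, nf, nfL]
  l3 := by simp [pL, nf, nfL]
  m0 j := by
    fin_cases j <;> simp [pL', nf, nfL']
  m1 j := by
    fin_cases j <;> simp [pL', nf, nfL']
  m2 := by simp [pL', nf, nfL']
  m3 := by simp [pL', nf, nfL']
  q00 k := by
    fin_cases k <;> simp [pQ, nf, nfQ]
  q11 k := by
    fin_cases k <;> simp [pQ, nf, nfQ]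
  q01 := by
    simp [pQ, nf, nfQ]
  q1 := by
    simp [pQ, nf, nfQ]
  q2 := by
    have h : algebraMap ℚ R (1 / 2) + algebraMap ℚ R (1 / 2) = 1 := by
      rw [← map_add]
      norm_num
    simp only [pQ, nf, nfQ, Prod.mk.injEq, Fin.reduceEq, and_true, and_false, and_self, if_true,
      if_false]
    linear_combination h
  q3 := by
    simp [pQ, nf, nfQ]
  qP := by
    have h : algebraMap ℚ R (1 / 4) + algebraMap ℚ R (1 / 4) +
        (algebraMap ℚ R (1 / 4) + algebraMap ℚ R (1 / 4)) = 1 := by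
      rw [← map_add, ← map_add]
      norm_num
    simp only [pQ, nf, nfQ, Prod.mk.injEq, Fin.reduceEq, and_true, and_false, and_self, if_true,
      if_false]
    exact h
  qR := by
    have h : pL (nf c) 3 3 = 2 * pL c 3 3 := rfl
    rw [h]
    simp only [pQ, nf, nfQ, Prod.mk.injEq, Fin.reduceEq, and_true, and_false, and_self, if_true,
      if_false, tens]
    ring

end

section maps

variable {R S : Type*} [CommRing R] [CommRing S] (φ : R →+* S) (c : Ix → R)

theorem map_pQ (i j k l : Fin 4) : pQ (fun e => φ (c e)) i j k l = φ (pQ c i j k l) := by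
  simp only [pQ, map_add]

theorem map_mm : mm (fun e => φ (c e)) = φ (mm c) := by
  rw [mm, mm, map_pQ]

theorem map_del : del (fun e => φ (c e)) = φ (del c) := by
  rw [del, del, map_pQ, map_sub, map_mul, map_ofNat]
  rfl

theorem map_F1 : F1 (fun e => φ (c e)) = φ (F1 c) := by
  rw [F1, F1, map_pQ, map_pQ, map_sub, map_add, map_mul, map_ofNat]
  rfl

theorem map_F2 : F2 (fun e => φ (c e)) = φ (F2 c) := by
  rw [F2, F2, map_pQ, map_pQ, map_sub, map_mul, map_ofNat]

theorem map_q4 : q4 (fun e => φ (c e)) = (q4 c).map φ := by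
  simp only [q4, V1, U2, V0, map_pQ, Polynomial.map_sub, Polynomial.map_add, Polynomial.map_mul,
    Polynomial.map_pow, Polynomial.map_C, Polynomial.map_X, map_sub, map_add, map_mul, map_ofNat,
    Polynomial.map_ofNat]

end maps

theorem q4_deg {R : Type*} [CommRing R] (c : Ix → R) : (q4 c).natDegree ≤ 4 := by
  rw [q4, V1, U2, V0]
  compute_degree

theorem q4_cz : q4 (nf cz) = (1 - Polynomial.X ^ 2) ^ 2 + 4 * Polynomial.X := by
  have h : ∀ i j k l, pQ (nf cz) i j k l = tz i j k l + tz j i k l + (tz i j l k + tz j i l k) := by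
    intro i j k l
    rw [← tens_nf_cz]
    rfl
  have c1 : (4 * (1 / 4) : ℚ) = 1 := by norm_num
  have c2 : -(2 * (1 / 4 + 1 / 4) : ℚ) = -1 := by norm_num
  have c3 : (1 / 4 + 1 / 4 + (1 / 4 + 1 / 4) : ℚ) = 1 := by norm_num
  simp only [q4, V1, U2, V0, h, tz, Prod.mk.injEq, Fin.reduceEq, and_true, and_false, and_self,
    if_true, if_false, add_zero, zero_add, mul_zero, sub_zero, zero_sub]
  rw [c1, c2, c3]
  simp only [Polynomial.C_0, Polynomial.C_1, Polynomial.C_neg]
  ring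

/-- the generic normal form -/
noncomputable def nX : Ix → MvPolynomial Ix ℚ := nf X

/-- the polynomial which expresses the open conditions -/
noncomputable def wP : MvPolynomial Ix ℚ :=
  mm nX * del nX * (F2 nX - 2 * mm nX * F1 nX) * (q4 nX).eval 0 *
    (q4 nX).coeff 4 *
    Polynomial.resultant (q4 nX) (Polynomial.derivative (q4 nX)) 4 3

section ev

variable {L : Type*} [Field L] [Algebra ℚ L] (n : Ix → L)

theorem nf_ev : nf n = fun e => (aeval n : MvPolynomial Ix ℚ →ₐ[ℚ] L).toRingHom (nX e) := by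
  funext e
  have h := map_nf (aeval n : MvPolynomial Ix ℚ →ₐ[ℚ] L) X e
  change _ = (aeval n : MvPolynomial Ix ℚ →ₐ[ℚ] L) (nf X e)
  have h2 : (fun e => (aeval n : MvPolynomial Ix ℚ →ₐ[ℚ] L) (X e)) = n := by
    funext e
    exact aeval_X n e
  rw [h2] at h
  exact h.symm

theorem ev_wP : aeval n wP = mm (nf n) * del (nf n) * (F2 (nf n) - 2 * mm (nf n) * F1 (nf n)) *
    (q4 (nf n)).eval 0 * (q4 (nf n)).coeff 4 *
    Polynomial.resultant (q4 (nf n)) (Polynomial.derivative (q4 (nf n))) 4 3 := by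
  have e1 : mm (nf n) = aeval n (mm nX) := by
    conv_lhs => rw [nf_ev n]
    exact map_mm (aeval n : MvPolynomial Ix ℚ →ₐ[ℚ] L).toRingHom nX
  have e2 : del (nf n) = aeval n (del nX) := by
    conv_lhs => rw [nf_ev n]
    exact map_del _ _
  have e3 : F1 (nf n) = aeval n (F1 nX) := by
    conv_lhs => rw [nf_ev n]
    exact map_F1 _ _
  have e4 : F2 (nf n) = aeval n (F2 nX) := by
    conv_lhs => rw [nf_ev n]
    exact map_F2 _ _
  have e5 : q4 (nf n) = (q4 nX).map (aeval n : MvPolynomial Ix ℚ →ₐ[ℚ] L).toRingHom := by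
    conv_lhs => rw [nf_ev n]
    exact map_q4 _ _
  rw [e1, e2, e3, e4, e5, Polynomial.derivative_map, Polynomial.resultant_map_map, wP,
    Polynomial.coeff_map, ← Polynomial.coeff_zero_eq_eval_zero,
    ← Polynomial.coeff_zero_eq_eval_zero, Polynomial.coeff_map]
  simp only [map_mul, map_sub, map_ofNat]
  rfl

end ev

theorem q4_nat : ((1 - Polynomial.X ^ 2) ^ 2 + 4 * Polynomial.X : Polynomial ℚ).natDegree = 4 := by
  compute_degree!

theorem q4_der : Polynomial.derivative ((1 - Polynomial.X ^ 2) ^ 2 + 4 * Polynomial.X :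
    Polynomial ℚ) = 4 * Polynomial.X ^ 3 - 4 * Polynomial.X + 4 := by
  have h1 : ((1 - Polynomial.X ^ 2) ^ 2 + 4 * Polynomial.X : Polynomial ℚ) =
      Polynomial.X ^ 4 - Polynomial.C 2 * Polynomial.X ^ 2 + Polynomial.C 4 * Polynomial.X + 1 := by
    simp only [Polynomial.C_ofNat]
    ring
  rw [h1]
  simp
  rw [show (Polynomial.C 3 : Polynomial ℚ) = 3 from rfl,
    show (Polynomial.C 2 : Polynomial ℚ) = 2 from rfl,
    show (Polynomial.C 4 : Polynomial ℚ) = 4 from rfl]
  ring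

theorem q4_nat' : (4 * Polynomial.X ^ 3 - 4 * Polynomial.X + 4 : Polynomial ℚ).natDegree = 3 := by
  compute_degree!

theorem q4_cop : IsCoprime ((1 - Polynomial.X ^ 2) ^ 2 + 4 * Polynomial.X : Polynomial ℚ)
    (4 * Polynomial.X ^ 3 - 4 * Polynomial.X + 4) := by
  refine ⟨Polynomial.C (1 / 172) * (48 + 16 * Polynomial.X - 36 * Polynomial.X ^ 2),
    Polynomial.C (1 / 172) * (31 - 21 * Polynomial.X - 4 * Polynomial.X ^ 2 +
      9 * Polynomial.X ^ 3), ?_⟩
  have h : Polynomial.C (1 / 172 : ℚ) * 172 = 1 := by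
    rw [← Polynomial.C_ofNat, ← Polynomial.C_mul]
    norm_num
  linear_combination h

theorem wP_ne : wP ≠ 0 := by
  intro h0
  have h := ev_wP cz
  rw [h0, map_zero] at h
  have hp : ∀ i j k l, pQ (nf cz) i j k l = tz i j k l + tz j i k l + (tz i j l k + tz j i l k) := by
    intro i j k l
    rw [← tens_nf_cz]
    rfl
  have e1 : mm (nf cz) = 1 / 2 := by
    rw [mm, hp]
    decide +kernel
  have e2 : del (nf cz) = 1 := by
    rw [del, hp, pL_nf_cz]
    decide +kernel
  have e3 : F1 (nf cz) = 0 := by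
    rw [F1, hp, hp, pL_nf_cz]
    decide +kernel
  have e4 : F2 (nf cz) = 1 / 2 := by
    rw [F2, hp, hp]
    decide +kernel
  have e5 : Polynomial.resultant ((1 - Polynomial.X ^ 2) ^ 2 + 4 * Polynomial.X : Polynomial ℚ)
      (4 * Polynomial.X ^ 3 - 4 * Polynomial.X + 4) 4 3 ≠ 0 := by
    have h1 := Polynomial.resultant_ne_zero _ _ q4_cop
    rwa [q4_nat, q4_nat'] at h1
  have e6 : ((1 - Polynomial.X ^ 2) ^ 2 + 4 * Polynomial.X : Polynomial ℚ).coeff 4 = 1 := by
    have h1 : ((1 - Polynomial.X ^ 2) ^ 2 + 4 * Polynomial.X : Polynomial ℚ) =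
        Polynomial.X ^ 4 + (1 - 2 * Polynomial.X ^ 2 + 4 * Polynomial.X) := by ring
    rw [h1]
    simp [Polynomial.coeff_X, Polynomial.coeff_one]
  rw [e1, e2, e3, e4, q4_cz, q4_der, e6] at h
  have e7 : ((1 - Polynomial.X ^ 2) ^ 2 + 4 * Polynomial.X : Polynomial ℚ).eval 0 = 1 := by
    simp
  rw [e7] at h
  refine e5 ?_
  linear_combination -4 * h

theorem gen_of_ev {L : Type*} [Field L] [Algebra ℚ L] (n : Ix → L) (h : aeval n wP ≠ 0) :
    Gen (nf n) := by
  rw [ev_wP] at h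
  simp only [mul_ne_zero_iff] at h
  obtain ⟨⟨⟨⟨⟨h1, h2⟩, h3⟩, h4⟩, h5⟩, h6⟩ := h
  have hd : 4 ≤ (q4 (nf n)).natDegree := Polynomial.le_natDegree_of_ne_zero h5
  exact {
    std := std_nf n
    hm := h1
    hd := h2
    he := fun e => h3 (sub_eq_zero.2 e)
    h0 := h4
    deg := by omega
    sep := by
      obtain ⟨p, q, -, -, e⟩ := Polynomial.exists_mul_add_mul_eq_C_resultant (q4 (nf n))
        (Polynomial.derivative (q4 (nf n))) (m := 4) (n := 3) (q4_deg _)
        ((Polynomial.natDegree_derivative_le _).trans (by have := q4_deg (nf n); omega))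
        (Or.inl (by norm_num))
      set r := Polynomial.resultant (q4 (nf n)) (Polynomial.derivative (q4 (nf n))) 4 3
      refine ⟨Polynomial.C r⁻¹ * p, Polynomial.C r⁻¹ * q, ?_⟩
      have h7 : Polynomial.C r⁻¹ * Polynomial.C r = 1 := by
        rw [← Polynomial.C_mul, inv_mul_cancel₀ h6, Polynomial.C_1]
      rw [← h7, ← e]
      ring }

/-- The two definitions of the change of coordinates agree. -/
theorem act_eq {R : Type*} [CommRing R] (d : Ix → R) (g h B B' : Matrix (Fin 4) (Fin 4) R)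
    (A : Matrix (Fin 2) (Fin 2) R) :
    CY.act g h B B' A d = Pool.Agent.Helper92.CY.act d g h A B B' := by
  have hm : ∀ (L : Fin 4 → Fin 4 → R) (i j : Fin 4),
      mc2 (mc1 L g) h i j = ∑ a, ∑ b, L a b * g a i * h b j := by
    intro L i j
    simp only [mc2, mc1, Finset.sum_mul]
    exact Finset.sum_comm
  have k1 : ∀ i j, mc2 (mc1 (pL d) g) h i j = ∑ a, ∑ b, pL d a b * g a i * h b j :=
    fun i j => hm (pL d) i j
  have k2 : ∀ i j, mc2 (mc1 (pL' d) g) h i j = ∑ a, ∑ b, pL' d a b * g a i * h b j :=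
    fun i j => hm (pL' d) i j
  funext e
  rcases e with ⟨i, j⟩ | ⟨i, j⟩ | ⟨i, j, k, l⟩
  · change A 0 0 * mc2 (mc1 (pL d) g) h i j + A 0 1 * mc2 (mc1 (pL' d) g) h i j =
      ∑ a, ∑ b, (A 0 0 * pL d a b + A 0 1 * pL' d a b) * g a i * h b j
    rw [k1, k2, Finset.mul_sum, Finset.mul_sum, ← Finset.sum_add_distrib]
    refine Finset.sum_congr rfl fun a _ => ?_
    rw [Finset.mul_sum, Finset.mul_sum, ← Finset.sum_add_distrib]
    refine Finset.sum_congr rfl fun b _ => ?_
    ring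
  · change A 1 0 * mc2 (mc1 (pL d) g) h i j + A 1 1 * mc2 (mc1 (pL' d) g) h i j =
      ∑ a, ∑ b, (A 1 0 * pL d a b + A 1 1 * pL' d a b) * g a i * h b j
    rw [k1, k2, Finset.mul_sum, Finset.mul_sum, ← Finset.sum_add_distrib]
    refine Finset.sum_congr rfl fun a _ => ?_
    rw [Finset.mul_sum, Finset.mul_sum, ← Finset.sum_add_distrib]
    refine Finset.sum_congr rfl fun b _ => ?_
    ring
  · change con4 (con3 (con2 (con1 (tens d) g) g) h) h i j k l +
      (B i k * mc2 (mc1 (pL d) g) h j l + B' i k * mc2 (mc1 (pL' d) g) h j l) =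
      ∑ a, ∑ b, ∑ e, ∑ f, d (.inr (.inr (a, b, e, f))) * g a i * g b j * h e k * h f l +
      B i k * (∑ a, ∑ b, pL d a b * g a j * h b l) +
      B' i k * (∑ a, ∑ b, pL' d a b * g a j * h b l)
    rw [k1, k2, ← add_assoc]
    congr 2
    simp only [con4, con3, con2, con1, tens, Finset.sum_mul]
    calc ∑ f, ∑ e, ∑ b, ∑ a, d (.inr (.inr (a, b, e, f))) * g a i * g b j * h e k * h f l
        = ∑ f, ∑ e, ∑ a, ∑ b, d (.inr (.inr (a, b, e, f))) * g a i * g b j * h e k * h f l :=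
          Finset.sum_congr rfl fun f _ => Finset.sum_congr rfl fun e _ => Finset.sum_comm
      _ = ∑ f, ∑ a, ∑ e, ∑ b, d (.inr (.inr (a, b, e, f))) * g a i * g b j * h e k * h f l :=
          Finset.sum_congr rfl fun f _ => Finset.sum_comm
      _ = ∑ f, ∑ a, ∑ b, ∑ e, d (.inr (.inr (a, b, e, f))) * g a i * g b j * h e k * h f l :=
          Finset.sum_congr rfl fun f _ => Finset.sum_congr rfl fun a _ => Finset.sum_comm
      _ = ∑ a, ∑ f, ∑ b, ∑ e, d (.inr (.inr (a, b, e, f))) * g a i * g b j * h e k * h f l :=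
          Finset.sum_comm
      _ = ∑ a, ∑ b, ∑ f, ∑ e, d (.inr (.inr (a, b, e, f))) * g a i * g b j * h e k * h f l :=
          Finset.sum_congr rfl fun a _ => Finset.sum_comm
      _ = ∑ a, ∑ b, ∑ e, ∑ f, d (.inr (.inr (a, b, e, f))) * g a i * g b j * h e k * h f l :=
          Finset.sum_congr rfl fun a _ => Finset.sum_congr rfl fun b _ => Finset.sum_comm

/-- CY-7. Dominance. -/
theorem exists_std : ∃ Δ : MvPolynomial Ix ℚ, Δ ≠ 0 ∧
    ∀ (K : Type) [Field K] [CharZero K] (c : Ix → K), aeval c Δ ≠ 0 →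
      ∃ (L : Type) (_ : Field L) (_ : CharZero L) (_ : Algebra K L) (_ : FiniteDimensional K L)
        (d : Ix → L) (h1 h2 : Matrix (Fin 4) (Fin 4) L) (τ : Matrix (Fin 2) (Fin 2) L)
        (A B : Matrix (Fin 4) (Fin 4) L), Gen d ∧ h1.det ≠ 0 ∧ h2.det ≠ 0 ∧ τ.det ≠ 0 ∧
        h1.adjugate 0 0 ≠ 0 ∧ h2.adjugate 0 0 ≠ 0 ∧
        (fun e => algebraMap K L (c e)) = Pool.Agent.Helper92.CY.act d h1 h2 τ A B := by
  obtain ⟨Δ, hΔ, H⟩ := exists_nf wP wP_ne
  refine ⟨Δ, hΔ, fun K _ _ c hc => ?_⟩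
  obtain ⟨L, iF, iC, iA, iD, g, h, B, B', A, n, he, hg, hh, hA, hw, hg2, hh2⟩ := H K c hc
  refine ⟨L, iF, iC, iA, iD, nf n, g, h, A, B, B', gen_of_ev n hw, hg, hh, hA, hg2, hh2, ?_⟩
  rw [← act_eq]
  funext e
  exact he e

end Pool.Agent.Helper76.CY.Std7
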