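import Pool.Agent.Helper76.CY.Lin

/-!
# The ideal of the Fano scheme of planes
-/

namespace Pool.Agent.Helper76.CY

open MvPolynomial

theorem aeval_cubic_tri {K R : Type*} [CommRing K] [CommRing R] [Algebra K R] (D : Ten K)
    (f : Fin 10 → R) : aeval f (cubic D) = tri D f f f := by
  simp only [cubic, tri, map_sum, map_mul, aeval_X, algHom_C]

theorem tri_sum_left {K R : Type*} [CommRing K] [CommRing R] [Algebra K R] (D : Ten K)
    {ι : Type*} (s : Finset ι) (f : ι → Fin 10 → R) (y z : Fin 10 → R) :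
    tri D (∑ i ∈ s, f i) y z = ∑ i ∈ s, tri D (f i) y z := by
  classical
  induction s using Finset.induction_on with
  | empty => simp
  | insert a s ha ih => rw [Finset.sum_insert ha, Finset.sum_insert ha, tri_add_left, ih]

theorem tri_sum_mid {K R : Type*} [CommRing K] [CommRing R] [Algebra K R] (D : Ten K)
    {ι : Type*} (s : Finset ι) (f : ι → Fin 10 → R) (y z : Fin 10 → R) :
    tri D y (∑ i ∈ s, f i) z = ∑ i ∈ s, tri D y (f i) z := by
  classical
  induction s using Finset.induction_on with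
  | empty => simp
  | insert a s ha ih => rw [Finset.sum_insert ha, Finset.sum_insert ha, tri_add_mid, ih]

theorem tri_sum_right {K R : Type*} [CommRing K] [CommRing R] [Algebra K R] (D : Ten K)
    {ι : Type*} (s : Finset ι) (f : ι → Fin 10 → R) (y z : Fin 10 → R) :
    tri D y z (∑ i ∈ s, f i) = ∑ i ∈ s, tri D y z (f i) := by
  classical
  induction s using Finset.induction_on with
  | empty => simp
  | insert a s ha ih => rw [Finset.sum_insert ha, Finset.sum_insert ha, tri_add_right, ih]

theorem tri_C {K A : Type*} [CommRing K] [CommRing A] [Algebra K A] (D : Ten K)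
    (x y z : Fin 10 → A) :
    tri D (fun l => (C (x l) : MvPolynomial (Fin 3) A)) (fun l => C (y l)) (fun l => C (z l)) =
      C (tri D x y z) := by
  simp only [tri, map_sum, map_mul, MvPolynomial.algebraMap_apply]

theorem aeval_cubic_rows {K A : Type*} [CommRing K] [CommRing A] [Algebra K A] (D : Ten K)
    (x : Fin 3 → Fin 10 → A) :
    (aeval (fun j : Fin 10 => ∑ i : Fin 3, C (x i j) * X i) (cubic D) :
      MvPolynomial (Fin 3) A) =
      ∑ i, ∑ j, ∑ k, C (tri D (x i) (x j) (x k)) * (X i * X j * X k) := by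
  rw [aeval_cubic_tri]
  have h : (fun j : Fin 10 => ∑ i : Fin 3, C (x i j) * X i : Fin 10 → MvPolynomial (Fin 3) A) =
      ∑ i : Fin 3, (X i : MvPolynomial (Fin 3) A) • (fun j => C (x i j)) := by
    funext j
    rw [Finset.sum_apply]
    refine Finset.sum_congr rfl fun i _ => ?_
    rw [Pi.smul_apply, smul_eq_mul]
    ring
  rw [h, tri_sum_left]
  refine Finset.sum_congr rfl fun i _ => ?_
  rw [tri_sum_mid]
  refine Finset.sum_congr rfl fun j _ => ?_
  rw [tri_sum_right]
  refine Finset.sum_congr rfl fun k _ => ?_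
  rw [tri_smul_left, tri_smul_mid, tri_smul_right, tri_C]
  ring

theorem row_map {R S : Type*} [CommRing R] [CommRing S] (f : R →+* S) (a : Idx → R) (i : Fin 3)
    (j : Fin 10) : f (row a i j) = row (fun q => f (a q)) i j := by
  simp only [row, Pi.add_apply, tv, bv_apply, map_add]
  congr 1
  · split_ifs <;> simp
  · split_ifs <;> simp

theorem aeval_fanoIdeal {K R : Type*} [Field K] [CommRing R] [Algebra K R] (D : Ten K)
    (a : Idx → R) (h : ∀ i j k : Fin 3, tri D (row a i) (row a j) (row a k) = 0)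
    (g : MvPolynomial Idx K) (hg : g ∈ fanoIdeal (cubic D)) : aeval a g = 0 := by
  have h1 : fanoIdeal (cubic D) ≤ RingHom.ker (aeval a : MvPolynomial Idx K →ₐ[K] R) := by
    rw [fanoIdeal, Ideal.span_le]
    rintro _ ⟨m, rfl⟩
    simp only [SetLike.mem_coe, RingHom.mem_ker]
    rw [aeval_cubic_rows]
    simp only [coeff_sum, map_sum, coeff_C_mul, map_mul]
    refine Finset.sum_eq_zero fun i _ => Finset.sum_eq_zero fun j _ =>
      Finset.sum_eq_zero fun k _ => ?_
    have h2 : aeval a (tri D (row X i) (row X j) (row X k) : MvPolynomial Idx K) = 0 := by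
      rw [tri_map]
      have h3 : ∀ i, (fun l => aeval a (row (X : Idx → MvPolynomial Idx K) i l)) = row a i := by
        intro i
        funext l
        have := row_map ((aeval a : MvPolynomial Idx K →ₐ[K] R) : MvPolynomial Idx K →+* R) X i l
        simp only [RingHom.coe_coe, aeval_X] at this
        exact this
      rw [h3, h3, h3]
      exact h i j k
    rw [h2, zero_mul]
  exact h1 hg

theorem single_perm : ∀ i' j' k' i j k : Fin 3,
    (∀ l : Fin 3, (if i' = l then 1 else 0) + (if j' = l then 1 else 0) +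
      (if k' = l then 1 else 0) = (if i = l then 1 else 0) + (if j = l then 1 else 0) +
      (if k = l then 1 else 0)) →
    (i' = i ∧ j' = j ∧ k' = k) ∨ (i' = i ∧ j' = k ∧ k' = j) ∨ (i' = j ∧ j' = i ∧ k' = k) ∨
      (i' = j ∧ j' = k ∧ k' = i) ∨ (i' = k ∧ j' = i ∧ k' = j) ∨ (i' = k ∧ j' = j ∧ k' = i) := by
  decide

theorem tri_mem_fanoIdeal {K : Type*} [Field K] [CharZero K] (D : Ten K)
    (h12 : ∀ i j k, D i j k = D j i k) (h23 : ∀ i j k, D i j k = D i k j) (i j k : Fin 3) :
    tri D (row X i) (row X j) (row X k) ∈ fanoIdeal (cubic D) := by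
  classical
  set T : Fin 3 → Fin 3 → Fin 3 → MvPolynomial Idx K := fun i j k =>
    tri D (row X i) (row X j) (row X k) with hT
  have hT12 : ∀ i j k, T i j k = T j i k := fun i j k => tri_swap12 h12 _ _ _
  have hT23 : ∀ i j k, T i j k = T i k j := fun i j k => tri_swap23 h23 _ _ _
  set m : Fin 3 →₀ ℕ := Finsupp.single i 1 + Finsupp.single j 1 + Finsupp.single k 1 with hm
  have h1 : coeff m (aeval (fun j : Fin 10 => ∑ i : Fin 3, C (row X i j) * X i) (cubic D) :
      MvPolynomial (Fin 3) (MvPolynomial Idx K)) ∈ fanoIdeal (cubic D) :=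
    Ideal.subset_span ⟨m, rfl⟩
  rw [aeval_cubic_rows] at h1
  simp only [coeff_sum, coeff_C_mul] at h1
  have hX : ∀ i' j' k' : Fin 3, (X i' * X j' * X k' : MvPolynomial (Fin 3) (MvPolynomial Idx K)) =
      monomial (Finsupp.single i' 1 + Finsupp.single j' 1 + Finsupp.single k' 1) 1 := by
    intro i' j' k'
    rw [X, X, X, monomial_mul, monomial_mul, one_mul, one_mul]
  have h2 : ∀ i' j' k' : Fin 3, T i' j' k' * coeff m (X i' * X j' * X k') =
      (if Finsupp.single i' 1 + Finsupp.single j' 1 + Finsupp.single k' 1 = m then 1 else 0) *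
        T i j k := by
    intro i' j' k'
    rw [hX, coeff_monomial]
    by_cases h : Finsupp.single i' 1 + Finsupp.single j' 1 + Finsupp.single k' 1 = m
    · rw [if_pos h, mul_one, one_mul]
      rcases single_perm i' j' k' i j k (fun l => by
        have h3 := DFunLike.congr_fun h l
        simpa [hm, Finsupp.single_apply] using h3) with h | h | h | h | h | h
      · rw [h.1, h.2.1, h.2.2]
      · rw [h.1, h.2.1, h.2.2, hT23]
      · rw [h.1, h.2.1, h.2.2, hT12]
      · rw [h.1, h.2.1, h.2.2, hT23, hT12]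
      · rw [h.1, h.2.1, h.2.2, hT12, hT23]
      · rw [h.1, h.2.1, h.2.2, hT12, hT23, hT12]
    · rw [if_neg h, mul_zero, zero_mul]
  have h3 : (∑ i', ∑ j', ∑ k' : Fin 3, T i' j' k' * coeff m (X i' * X j' * X k')) =
      ((∑ i', ∑ j', ∑ k' : Fin 3, if Finsupp.single i' 1 + Finsupp.single j' 1 +
        Finsupp.single k' 1 = m then 1 else 0 : ℕ) : MvPolynomial Idx K) * T i j k := by
    push_cast
    simp only [h2, Finset.sum_mul]
  have h4 : 0 < (∑ i', ∑ j', ∑ k' : Fin 3, if Finsupp.single i' 1 + Finsupp.single j' 1 +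
        Finsupp.single k' 1 = m then 1 else 0 : ℕ) := by
    refine Finset.sum_pos' (fun _ _ => Nat.zero_le _) ⟨i, Finset.mem_univ _, ?_⟩
    refine Finset.sum_pos' (fun _ _ => Nat.zero_le _) ⟨j, Finset.mem_univ _, ?_⟩
    refine Finset.sum_pos' (fun _ _ => Nat.zero_le _) ⟨k, Finset.mem_univ _, ?_⟩
    rw [if_pos hm.symm]
    exact Nat.one_pos
  set N : ℕ := ∑ i', ∑ j', ∑ k' : Fin 3, if Finsupp.single i' 1 + Finsupp.single j' 1 +
        Finsupp.single k' 1 = m then 1 else 0 with hN
  have h5 := (fanoIdeal (cubic D)).mul_mem_left (C ((N : K)⁻¹)) h1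
  rw [h3, ← mul_assoc, ← map_natCast (C : K →+* MvPolynomial Idx K), ← map_mul,
    inv_mul_cancel₀ (Nat.cast_ne_zero.mpr h4.ne'), map_one, one_mul] at h5
  exact h5

theorem fanoIdeal_C_mul {K : Type*} [Field K] (c : K) (hc : c ≠ 0)
    (F : MvPolynomial (Fin 10) K) : fanoIdeal (C c * F) = fanoIdeal F := by
  have h : ∀ (c : K) (F : MvPolynomial (Fin 10) K), fanoIdeal (C c * F) ≤ fanoIdeal F := by
    intro c F
    rw [fanoIdeal, Ideal.span_le]
    rintro _ ⟨m, rfl⟩
    simp only [SetLike.mem_coe]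
    rw [map_mul, algHom_C, MvPolynomial.algebraMap_apply, coeff_C_mul]
    exact Ideal.mul_mem_left _ _ (Ideal.subset_span ⟨m, rfl⟩)
  refine le_antisymm (h c F) ?_
  have h1 := h c⁻¹ (C c * F)
  rwa [← mul_assoc, ← map_mul, inv_mul_cancel₀ hc, map_one, one_mul] at h1

end Pool.Agent.Helper76.CY
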