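import Pool.Agent.Helper76.CY.Core

/-!
# Generalities on the component ideal; algebraic independence
-/

namespace Pool.Agent.Helper76.CY

open MvPolynomial

section comp

variable {ι K : Type*} [Field K] (I : Ideal (MvPolynomial ι K))

theorem le_compIdeal : I ≤ compIdeal I := fun f hf => ⟨1, by simp, by simpa using hf⟩

theorem compIdeal_le_of_isPrime (P : Ideal (MvPolynomial ι K)) [hP : P.IsPrime] (hI : I ≤ P)
    (h0 : ∀ f ∈ P, constantCoeff f = 0) : compIdeal I ≤ P := by
  rintro f ⟨s, hs, hsf⟩
  exact (hP.mem_or_mem (hI hsf)).resolve_left fun h => hs (h0 s h)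

theorem constantCoeff_of_mem_compIdeal (h0 : ∀ f ∈ I, constantCoeff f = 0)
    (f : MvPolynomial ι K) (hf : f ∈ compIdeal I) : constantCoeff f = 0 := by
  obtain ⟨s, hs, hsf⟩ := hf
  have h1 := h0 _ hsf
  rw [map_mul] at h1
  exact (mul_eq_zero.1 h1).resolve_left hs

end comp

theorem lin_isHomogeneous {ι K : Type*} [Fintype ι] [DecidableEq ι] [Field K]
    (φ : (ι → K) →ₗ[K] K) : (lin φ).IsHomogeneous 1 := by
  apply IsHomogeneous.sum
  intro q _
  have := (isHomogeneous_C ι (φ (Pi.single q 1))).mul (isHomogeneous_X K q)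
  simpa using this

theorem aeval_lin {ι K : Type*} [Fintype ι] [DecidableEq ι] [Field K] {n : ℕ}
    (v : Fin n → ι → K) (φ : (ι → K) →ₗ[K] K) :
    aeval (fun q => ∑ i : Fin n, C (v i q) * X i : ι → MvPolynomial (Fin n) K) (lin φ) =
      ∑ i, C (φ (v i)) * X i := by
  rw [lin, map_sum]
  simp only [map_mul, aeval_X, aeval_C, Finset.mul_sum]
  rw [Finset.sum_comm]
  refine Finset.sum_congr rfl fun i _ => ?_
  have h1 : v i = ∑ q, v i q • (Pi.single q 1 : ι → K) := by
    funext q
    simp [Finset.sum_apply, Pi.single_apply]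
  conv_rhs => rw [h1, map_sum, map_sum, Finset.sum_mul]
  refine Finset.sum_congr rfl fun q _ => ?_
  rw [map_smul, smul_eq_mul, map_mul, MvPolynomial.algebraMap_eq]
  ring

/-- If `G` is nonzero, of order `d`, and `ℓ` are linear forms, then `G(ℓ)` has order at least `d`
and its component of degree `d` is `G_d(ℓ)`. -/
theorem aeval_order {ι K : Type*} [Field K] {n : ℕ} (ℓ : Fin n → MvPolynomial ι K)
    (hℓ : ∀ i, (ℓ i).IsHomogeneous 1) (G : MvPolynomial (Fin n) K) (d : ℕ)
    (hd : ∀ e < d, homogeneousComponent e G = 0) :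
    aeval ℓ G ∈ idealOfVars ι K ^ d ∧
      homogeneousComponent d (aeval ℓ G) = aeval ℓ (homogeneousComponent d G) := by
  have hh : ∀ e, (aeval ℓ (homogeneousComponent e G)).IsHomogeneous e := by
    intro e
    have := (homogeneousComponent_isHomogeneous e G).aeval (fun i => ℓ i) (n := 1) hℓ
    simpa using this
  have hsum : aeval ℓ G = ∑ e ∈ Finset.range (G.totalDegree + 1),
      aeval ℓ (homogeneousComponent e G) := by
    conv_lhs => rw [← sum_homogeneousComponent G]
    rw [map_sum]
  constructor
  · rw [hsum]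
    refine Ideal.sum_mem _ fun e _ => ?_
    by_cases he : e < d
    · rw [hd e he, map_zero]
      exact Ideal.zero_mem _
    · rw [mem_pow_idealOfVars_iff]
      intro s hs
      have h1 := (hh e) (mem_support_iff.1 hs)
      have h2 : Finsupp.degree s = e := by
        rw [Finsupp.degree_eq_weight_one (R := ℕ)]
        exact h1
      omega
  · rw [hsum, map_sum]
    by_cases hdt : d ∈ Finset.range (G.totalDegree + 1)
    · rw [Finset.sum_eq_single d]
      · rw [homogeneousComponent_of_mem (hh d), if_pos rfl]
      · intro e _ hed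
        rw [homogeneousComponent_of_mem (hh e), if_neg (Ne.symm hed)]
      · intro h
        exact absurd hdt h
    · rw [Finset.mem_range, not_lt] at hdt
      rw [homogeneousComponent_eq_zero d G (by omega), map_zero]
      refine Finset.sum_eq_zero fun e he => ?_
      rw [Finset.mem_range] at he
      rw [homogeneousComponent_of_mem (hh e), if_neg (by omega)]

end Pool.Agent.Helper76.CY
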