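import Pool.Agent.Helper76.CY.Lin

/-!
# The explicit cubics: definitions
-/

namespace Pool.Agent.Helper76.CY

open MvPolynomial

/-- The cubic form
`∑ x_l x_{l+3}^2 - x_l x_{l+1} x_{l+4} + x_l x_{l+2} x_{l+6} + u x_l x_{l+2} x_{l+7} + v x_l x_{l+3} x_{l+6}`
(indices modulo 10). -/
noncomputable def Fex (u v : ℤ) : MvPolynomial (Fin 10) ℚ :=
  ∑ l : Fin 10, (X l * X (l + 3) ^ 2 - X l * X (l + 1) * X (l + 4) +
    X l * X (l + 2) * X (l + 6) + C (u : ℚ) * (X l * X (l + 2) * X (l + 7)) +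
    C (v : ℚ) * (X l * X (l + 3) * X (l + 6)))

/-- The third derivatives of `x_p x_q x_r`. -/
def sym3 (p q r i j k : Fin 10) : ℤ :=
  (if i = p ∧ j = q ∧ k = r then 1 else 0) + (if i = p ∧ j = r ∧ k = q then 1 else 0) +
  (if i = q ∧ j = p ∧ k = r then 1 else 0) + (if i = q ∧ j = r ∧ k = p then 1 else 0) +
  (if i = r ∧ j = p ∧ k = q then 1 else 0) + (if i = r ∧ j = q ∧ k = p then 1 else 0)

/-- The third derivatives of `∑ x_l x_{l+a} x_{l+b}`. -/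
def orb (a b i j k : Fin 10) : ℤ := ∑ l : Fin 10, sym3 l (l + a) (l + b) i j k

/-- The third derivatives of `Fex u v`. -/
def Dex (u v : ℤ) : Ten ℚ := fun i j k =>
  ((orb 3 3 i j k - orb 1 4 i j k + orb 2 6 i j k : ℤ) : ℚ) + (u : ℚ) * (orb 2 7 i j k : ℤ) +
    (v : ℚ) * (orb 3 6 i j k : ℤ)

/-- The curve of planes `<e_0 + t e_5 - t^2 e_6, e_1 + t e_6, e_2>`. -/
noncomputable def pex : Idx → Polynomial ℚ := fun q =>
  if q = (0, 2) then Polynomial.X else if q = (0, 3) then -Polynomial.X ^ 2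
    else if q = (1, 3) then Polynomial.X else 0

/-- Its tangent vector. -/
def tex : Idx → ℚ := fun q => if q = (0, 2) then 1 else if q = (1, 3) then 1 else 0

/-- The matrix of the differential, as a function. -/
def Bfun (u v : ℚ) (τ : Idx → ℚ) : Idx → ℚ := fun q =>
  match q.1.val, q.2.val with
  | 0, 0 => τ (1, 1)
  | 0, 1 => τ (1, 2)
  | 0, 2 => τ (1, 3)
  | 0, 3 => τ (1, 4)
  | 0, 4 => τ (1, 5)
  | 0, 5 => τ (1, 6)
  | 0, _ => 2 * τ (0, 0) + u * τ (0, 2) + v * τ (0, 3) + v * τ (0, 4) - τ (0, 6) + u * τ (1, 4) +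
      u ^ 2 * τ (1, 5)
  | 1, 0 => τ (2, 1)
  | 1, 1 => τ (2, 2)
  | 1, 2 => τ (2, 3)
  | 1, 3 => τ (2, 4)
  | 1, 4 => τ (2, 5)
  | 1, 5 => τ (2, 6)
  | 1, _ => 2 * u * τ (0, 0) + u ^ 2 * τ (0, 2) + (u * v + 1) * τ (0, 3) + u * v * τ (0, 4) -
      u * τ (0, 6) - 2 * τ (2, 0) - u * τ (2, 2) - v * τ (2, 3) - v * τ (2, 4) + τ (2, 6)
  | _, 0 => τ (0, 4) + u * τ (0, 5) + 2 * τ (1, 0) + u * τ (1, 2) + v * τ (1, 3) + v * τ (1, 4) -
      τ (1, 6)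
  | _, 1 => -τ (1, 3) + τ (2, 4) + u * τ (2, 5)
  | _, 2 => 2 * u * τ (0, 0) + u ^ 2 * τ (0, 2) + (u * v + 1) * τ (0, 3) + u * v * τ (0, 4) -
      u * τ (0, 6) - 2 * τ (2, 0) - u * τ (2, 2) - v * τ (2, 3) - v * τ (2, 4) + τ (2, 6)
  | _, 3 => -2 * τ (0, 0) - u * τ (0, 2) - v * τ (0, 3) - v * τ (0, 4) + τ (0, 6)
  | _, 4 => -τ (1, 4) - u * τ (1, 5)
  | _, 5 => τ (2, 3)
  | _, _ => 0

/-- The characteristic polynomial. -/
noncomputable def chiZ (u v : ℤ) : Polynomial ℤ :=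
  Polynomial.X ^ 11 + Polynomial.C (u + 1) * Polynomial.X ^ 10 +
    Polynomial.C (u - 2) * Polynomial.X ^ 9 + Polynomial.C (-2) * Polynomial.X ^ 8 +
    Polynomial.C (u - v) * Polynomial.X ^ 7 + Polynomial.C (u * v - u ^ 2) * Polynomial.X ^ 6 +
    Polynomial.C (-3 * u - 2 * v) * Polynomial.X ^ 5 +
    Polynomial.C (-3 * u ^ 2 + 2 * u * v - 2 * v + 2) * Polynomial.X ^ 4 +
    Polynomial.C (-6 * u) * Polynomial.X ^ 3 +
    Polynomial.C (4 * v - 2 * u ^ 2) * Polynomial.X ^ 2 + Polynomial.C 8 * Polynomial.X +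
    Polynomial.C (-8)

/-- The characteristic polynomial over the rational numbers. -/
noncomputable def chiQ (u v : ℤ) : Polynomial ℚ := (chiZ u v).map (Int.castRingHom ℚ)

end Pool.Agent.Helper76.CY
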