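import Pool.Agent.Helper76.CY.Fam
import Pool.Agent.Helper76.UF.Sq.Q1
import Pool.Agent.Helper76.UF.Sq.Q3

set_option autoImplicit false
set_option linter.unusedVariables false
set_option linter.unusedSectionVars false

/-!
Changes of coordinates on the family and their derivative at the identity.
-/

namespace Pool.Agent.Helper76.CY

open MvPolynomial Pool.Agent.Helper37.RP

section con

variable {R : Type*} [CommRing R]

/-- change of the first index -/
def con1 (T : Fin 4 → Fin 4 → Fin 4 → Fin 4 → R) (g : Fin 4 → Fin 4 → R) :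
    Fin 4 → Fin 4 → Fin 4 → Fin 4 → R := fun i j k l => ∑ a, T a j k l * g a i

/-- change of the second index -/
def con2 (T : Fin 4 → Fin 4 → Fin 4 → Fin 4 → R) (g : Fin 4 → Fin 4 → R) :
    Fin 4 → Fin 4 → Fin 4 → Fin 4 → R := fun i j k l => ∑ a, T i a k l * g a j

/-- change of the third index -/
def con3 (T : Fin 4 → Fin 4 → Fin 4 → Fin 4 → R) (g : Fin 4 → Fin 4 → R) :
    Fin 4 → Fin 4 → Fin 4 → Fin 4 → R := fun i j k l => ∑ a, T i j a l * g a k

/-- change of the fourth index -/
def con4 (T : Fin 4 → Fin 4 → Fin 4 → Fin 4 → R) (g : Fin 4 → Fin 4 → R) :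
    Fin 4 → Fin 4 → Fin 4 → Fin 4 → R := fun i j k l => ∑ a, T i j k a * g a l

/-- change of the first index -/
def mc1 (L : Fin 4 → Fin 4 → R) (g : Fin 4 → Fin 4 → R) : Fin 4 → Fin 4 → R :=
  fun i j => ∑ a, L a j * g a i

/-- change of the second index -/
def mc2 (L : Fin 4 → Fin 4 → R) (g : Fin 4 → Fin 4 → R) : Fin 4 → Fin 4 → R :=
  fun i j => ∑ a, L i a * g a j

/-- the tensor of the form of bidegree `(2,2)` -/
def tens (c : Ix → R) : Fin 4 → Fin 4 → Fin 4 → Fin 4 → R :=
  fun i j k l => c (.inr (.inr (i, j, k, l)))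

/-- Changes of coordinates `x ↦ g x`, `y ↦ h y`, linear combinations of the two forms of bidegree
`(1,1)`, and multiples of these forms added to the form of bidegree `(2,2)`. -/
def act (g h B B' : Fin 4 → Fin 4 → R) (A : Fin 2 → Fin 2 → R) (c : Ix → R) : Ix → R
  | .inl (i, j) => A 0 0 * mc2 (mc1 (pL c) g) h i j + A 0 1 * mc2 (mc1 (pL' c) g) h i j
  | .inr (.inl (i, j)) => A 1 0 * mc2 (mc1 (pL c) g) h i j + A 1 1 * mc2 (mc1 (pL' c) g) h i j
  | .inr (.inr (i, j, k, l)) => con4 (con3 (con2 (con1 (tens c) g) g) h) h i j k l +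
      (B i k * mc2 (mc1 (pL c) g) h j l + B' i k * mc2 (mc1 (pL' c) g) h j l)

theorem map_act {S : Type*} [CommRing S] (φ : R →+* S) (g h B B' : Fin 4 → Fin 4 → R)
    (A : Fin 2 → Fin 2 → R) (c : Ix → R) (e : Ix) :
    φ (act g h B B' A c e) = act (fun a i => φ (g a i)) (fun a i => φ (h a i))
      (fun a i => φ (B a i)) (fun a i => φ (B' a i)) (fun a i => φ (A a i)) (fun e => φ (c e)) e := by
  rcases e with ⟨i, j⟩ | ⟨i, j⟩ | ⟨i, j, k, l⟩ <;>
    simp only [act, con1, con2, con3, con4, mc1, mc2, pL, pL', tens, map_add, map_mul, map_sum]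

end con

section dual

variable {K : Type*} [Field K]

/-- `1 + ε G` -/
def one_eps {n : ℕ} (G : Fin n → Fin n → K) : Fin n → Fin n → DualNumber K :=
  fun a i => TrivSqZeroExt.inl (if a = i then 1 else 0) + TrivSqZeroExt.inr (G a i)

/-- `ε B` -/
def eps {n : ℕ} (B : Fin n → Fin n → K) : Fin n → Fin n → DualNumber K :=
  fun a i => TrivSqZeroExt.inr (B a i)

theorem mc1_dual (L0 L1 G : Fin 4 → Fin 4 → K) :
    mc1 (fun i j => TrivSqZeroExt.inl (L0 i j) + TrivSqZeroExt.inr (L1 i j)) (one_eps G) =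
      fun i j => TrivSqZeroExt.inl (L0 i j) + TrivSqZeroExt.inr (L1 i j + mc1 L0 G i j) := by
  funext i j
  ext
  · simp [mc1, one_eps, TrivSqZeroExt.fst_sum]
  · simp [mc1, one_eps, TrivSqZeroExt.snd_sum, Finset.sum_add_distrib, add_comm]

theorem mc2_dual (L0 L1 G : Fin 4 → Fin 4 → K) :
    mc2 (fun i j => TrivSqZeroExt.inl (L0 i j) + TrivSqZeroExt.inr (L1 i j)) (one_eps G) =
      fun i j => TrivSqZeroExt.inl (L0 i j) + TrivSqZeroExt.inr (L1 i j + mc2 L0 G i j) := by
  funext i j
  ext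
  · simp [mc2, one_eps, TrivSqZeroExt.fst_sum]
  · simp [mc2, one_eps, TrivSqZeroExt.snd_sum, Finset.sum_add_distrib, add_comm]

theorem con1_dual (T0 T1 : Fin 4 → Fin 4 → Fin 4 → Fin 4 → K) (G : Fin 4 → Fin 4 → K) :
    con1 (fun i j k l => TrivSqZeroExt.inl (T0 i j k l) + TrivSqZeroExt.inr (T1 i j k l))
      (one_eps G) = fun i j k l => TrivSqZeroExt.inl (T0 i j k l) +
        TrivSqZeroExt.inr (T1 i j k l + con1 T0 G i j k l) := by
  funext i j k l
  ext
  · simp [con1, one_eps, TrivSqZeroExt.fst_sum]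
  · simp [con1, one_eps, TrivSqZeroExt.snd_sum, Finset.sum_add_distrib, add_comm]

theorem con2_dual (T0 T1 : Fin 4 → Fin 4 → Fin 4 → Fin 4 → K) (G : Fin 4 → Fin 4 → K) :
    con2 (fun i j k l => TrivSqZeroExt.inl (T0 i j k l) + TrivSqZeroExt.inr (T1 i j k l))
      (one_eps G) = fun i j k l => TrivSqZeroExt.inl (T0 i j k l) +
        TrivSqZeroExt.inr (T1 i j k l + con2 T0 G i j k l) := by
  funext i j k l
  ext
  · simp [con2, one_eps, TrivSqZeroExt.fst_sum]
  · simp [con2, one_eps, TrivSqZeroExt.snd_sum, Finset.sum_add_distrib, add_comm]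

theorem con3_dual (T0 T1 : Fin 4 → Fin 4 → Fin 4 → Fin 4 → K) (G : Fin 4 → Fin 4 → K) :
    con3 (fun i j k l => TrivSqZeroExt.inl (T0 i j k l) + TrivSqZeroExt.inr (T1 i j k l))
      (one_eps G) = fun i j k l => TrivSqZeroExt.inl (T0 i j k l) +
        TrivSqZeroExt.inr (T1 i j k l + con3 T0 G i j k l) := by
  funext i j k l
  ext
  · simp [con3, one_eps, TrivSqZeroExt.fst_sum]
  · simp [con3, one_eps, TrivSqZeroExt.snd_sum, Finset.sum_add_distrib, add_comm]

theorem con4_dual (T0 T1 : Fin 4 → Fin 4 → Fin 4 → Fin 4 → K) (G : Fin 4 → Fin 4 → K) :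
    con4 (fun i j k l => TrivSqZeroExt.inl (T0 i j k l) + TrivSqZeroExt.inr (T1 i j k l))
      (one_eps G) = fun i j k l => TrivSqZeroExt.inl (T0 i j k l) +
        TrivSqZeroExt.inr (T1 i j k l + con4 T0 G i j k l) := by
  funext i j k l
  ext
  · simp [con4, one_eps, TrivSqZeroExt.fst_sum]
  · simp [con4, one_eps, TrivSqZeroExt.snd_sum, Finset.sum_add_distrib, add_comm]

/-- The derivative of `act` at the identity. -/
def dact (G H B B' : Fin 4 → Fin 4 → K) (A : Fin 2 → Fin 2 → K) (c : Ix → K) : Ix → K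
  | .inl (i, j) => mc1 (pL c) G i j + mc2 (pL c) H i j + A 0 0 * pL c i j + A 0 1 * pL' c i j
  | .inr (.inl (i, j)) =>
    mc1 (pL' c) G i j + mc2 (pL' c) H i j + A 1 0 * pL c i j + A 1 1 * pL' c i j
  | .inr (.inr (i, j, k, l)) => con1 (tens c) G i j k l + con2 (tens c) G i j k l +
      con3 (tens c) H i j k l + con4 (tens c) H i j k l +
      (B i k * pL c j l + B' i k * pL' c j l)

theorem mc_dual (L0 L1 G H : Fin 4 → Fin 4 → K) :
    mc2 (mc1 (fun i j => TrivSqZeroExt.inl (L0 i j) + TrivSqZeroExt.inr (L1 i j)) (one_eps G))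
      (one_eps H) = fun i j => (TrivSqZeroExt.inl (L0 i j) +
        TrivSqZeroExt.inr (L1 i j + mc1 L0 G i j + mc2 L0 H i j) : DualNumber K) := by
  rw [mc1_dual, mc2_dual]

theorem con_dual (T0 T1 : Fin 4 → Fin 4 → Fin 4 → Fin 4 → K) (G H : Fin 4 → Fin 4 → K) :
    con4 (con3 (con2 (con1 (fun i j k l => TrivSqZeroExt.inl (T0 i j k l) +
      TrivSqZeroExt.inr (T1 i j k l)) (one_eps G)) (one_eps G)) (one_eps H)) (one_eps H) =
      fun i j k l => (TrivSqZeroExt.inl (T0 i j k l) + TrivSqZeroExt.inr (T1 i j k l +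
        con1 T0 G i j k l + con2 T0 G i j k l + con3 T0 H i j k l + con4 T0 H i j k l) :
          DualNumber K) := by
  rw [con1_dual, con2_dual, con3_dual, con4_dual]

/-- the tangent vector `c + ε d` -/
def tan {ι : Type*} (c d : ι → K) : ι → DualNumber K :=
  fun e => TrivSqZeroExt.inl (c e) + TrivSqZeroExt.inr (d e)

theorem act_dual (G H B B' : Fin 4 → Fin 4 → K) (A : Fin 2 → Fin 2 → K) (c d : Ix → K) (e : Ix) :
    (act (one_eps G) (one_eps H) (eps B) (eps B') (one_eps A) (tan c d) e).snd =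
      d e + dact G H B B' A c e := by
  have h1 : mc2 (mc1 (pL (tan c d)) (one_eps G)) (one_eps H) = _ := mc_dual (pL c) (pL d) G H
  have h2 : mc2 (mc1 (pL' (tan c d)) (one_eps G)) (one_eps H) = _ := mc_dual (pL' c) (pL' d) G H
  have h3 : con4 (con3 (con2 (con1 (tens (tan c d)) (one_eps G)) (one_eps G)) (one_eps H))
    (one_eps H) = _ := con_dual (tens c) (tens d) G H
  rcases e with ⟨i, j⟩ | ⟨i, j⟩ | ⟨i, j, k, l⟩
  · simp only [act, h1, h2, dact]
    simp [one_eps]
    simp only [pL]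
    ring
  · simp only [act, h1, h2, dact]
    simp [one_eps]
    simp only [pL']
    ring
  · simp only [act, h1, h2, h3, dact]
    simp [eps]
    simp only [tens]
    ring

/-- The derivative of a polynomial in the direction `v` by dual numbers. -/
theorem snd_aeval_dual {S : Type*} [Fintype S] {K : Type*} [Field K] [Algebra ℚ K] (x v : S → K)
    (p : MvPolynomial S ℚ) :
    (aeval (fun s => (TrivSqZeroExt.inl (x s) + TrivSqZeroExt.inr (v s) : DualNumber K)) p).fst =
      aeval x p ∧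
    (aeval (fun s => (TrivSqZeroExt.inl (x s) + TrivSqZeroExt.inr (v s) : DualNumber K)) p).snd =
      ∑ s, v s * aeval x (pderiv s p) := by
  classical
  induction p using MvPolynomial.induction_on with
  | C a =>
    constructor
    · rw [aeval_C, aeval_C]
      rfl
    · rw [aeval_C]
      simp only [pderiv_C, map_zero, mul_zero, Finset.sum_const_zero]
      rfl
  | add p q hp hq =>
    constructor
    · rw [map_add, TrivSqZeroExt.fst_add, hp.1, hq.1, map_add]
    · rw [map_add, TrivSqZeroExt.snd_add, hp.2, hq.2, ← Finset.sum_add_distrib]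
      refine Finset.sum_congr rfl fun s _ => ?_
      rw [map_add, map_add, mul_add]
  | mul_X p i hp =>
    constructor
    · rw [map_mul, TrivSqZeroExt.fst_mul, hp.1, map_mul, aeval_X, aeval_X]
      simp
    · rw [map_mul, TrivSqZeroExt.snd_mul, hp.1, hp.2, aeval_X]
      simp only [TrivSqZeroExt.snd_add, TrivSqZeroExt.snd_inl, TrivSqZeroExt.snd_inr, zero_add,
        TrivSqZeroExt.fst_add, TrivSqZeroExt.fst_inl, TrivSqZeroExt.fst_inr, add_zero,
        smul_eq_mul, op_smul_eq_smul]
      have : ∀ s, v s * aeval x (pderiv s (p * X i)) = x i * (v s * aeval x (pderiv s p)) +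
          (if s = i then v i * aeval x p else 0) := by
        intro s
        rw [pderiv_mul, pderiv_X, map_add, map_mul, map_mul, aeval_X]
        by_cases hs : s = i
        · subst hs
          simp
          ring
        · rw [Pi.single_eq_of_ne (Ne.symm hs) , map_zero]
          simp [hs]
          ring
      rw [Finset.sum_congr rfl fun s _ => this s, Finset.sum_add_distrib, ← Finset.mul_sum]
      simp
      ring

end dual

end Pool.Agent.Helper76.CY
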