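import Pool.Agent.Helper76.CY.Fam

set_option autoImplicit false
set_option linter.unusedVariables false
set_option linter.unusedSectionVars false

/-!
For general coefficients the bad points of both projections are finite in number.
-/

namespace Pool.Agent.Helper76.CY

open MvPolynomial Pool.Agent.Helper37.RP

universe u

/-- an example -/
def cb : Ix → ℚ
  | .inl (i, j) => if i = j then 1 else 0
  | .inr (.inl (i, j)) => if i.val = j.val + 1 then 1 else 0
  | .inr (.inr (i, j, k, l)) =>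
    if (i, j, k, l) = (2, 2, 0, 0) ∨ (i, j, k, l) = (0, 3, 1, 1) ∨ (i, j, k, l) = (1, 1, 2, 2)
      then 1 else 0

section

variable {Ω : Type*} [Field Ω] [Algebra ℚ Ω] (y : Fin 4 → Ω)

theorem cb_a : (fun i => aeval y (lin (pL cb) i)) = y := by
  funext i
  rw [aeval_lin]
  fin_cases i <;> simp [pL, cb]

theorem cb_b : (fun i => aeval y (lin (pL' cb) i)) = ![0, y 0, y 1, y 2] := by
  funext i
  rw [aeval_lin]
  fin_cases i <;> simp [Fin.sum_univ_four, pL', cb]

theorem cb_M : ((quad (pQ cb)).map (aeval y : _ →ₐ[ℚ] Ω)) =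
    !![0, 0, 0, 2 * y 1 ^ 2; 0, 4 * y 2 ^ 2, 0, 0; 0, 0, 4 * y 0 ^ 2, 0; 2 * y 1 ^ 2, 0, 0, 0] := by
  ext i j
  rw [Matrix.map_apply, aeval_quad]
  fin_cases i <;> fin_cases j <;> simp [Fin.sum_univ_four, pQ, cb] <;> ring

theorem cb_main (h : ∀ i j, aeval y (chow4 (pL cb) (pL' cb) (pQ cb) i j) = 0) (h3 : y 3 = 0) :
    y = 0 := by
  have hg : ∀ i j, gram (!![0, 0, 0, 2 * y 1 ^ 2; 0, 4 * y 2 ^ 2, 0, 0; 0, 0, 4 * y 0 ^ 2, 0;
      2 * y 1 ^ 2, 0, 0, 0]) (N4 y ![0, y 0, y 1, y 2]) i j = 0 := by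
    intro i j
    have := h i j
    rwa [aeval_chow4, cb_a, cb_b, cb_M] at this
  have h33 := hg 3 3
  have h22 := hg 2 2
  have h32 := hg 3 2
  have h11 := hg 1 1
  have h00 := hg 0 0
  have h03 := hg 0 3
  simp [gram, Fin.sum_univ_four, N4, plk, h3] at h33 h22 h32 h11 h00 h03
  have hch : CharZero Ω := algebraRat.charZero Ω
  have h2 : (2 : Ω) ≠ 0 := two_ne_zero
  replace h33 := h33.resolve_left h2
  replace h22 := h22.resolve_left h2
  replace h32 := h32.resolve_left h2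
  replace h11 := h11.resolve_left h2
  replace h00 := h00.resolve_left h2
  replace h03 := h03.resolve_left h2
  have hfin : y 0 = 0 → y = 0 := by
    intro h0
    rw [h0] at h03 h00
    have h1 : y 1 = 0 := by
      have : 2 * y 1 ^ 6 = 0 := by linear_combination -h03
      exact pow_eq_zero_iff (by norm_num) |>.1 ((mul_eq_zero.1 this).resolve_left h2)
    have h2' : y 2 = 0 := by
      have h4 : (4 : Ω) ≠ 0 := fun h => mul_ne_zero h2 h2 (by linear_combination h)
      have : 4 * y 2 ^ 6 = 0 := by linear_combination h00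
      exact pow_eq_zero_iff (by norm_num) |>.1 ((mul_eq_zero.1 this).resolve_left h4)
    funext i
    fin_cases i
    · exact h0
    · exact h1
    · exact h2'
    · exact h3
  by_contra hy
  have h0 : y 0 ≠ 0 := fun h0 => hy (hfin h0)
  have h4 : (4 : Ω) ≠ 0 := fun h => mul_ne_zero h2 h2 (by linear_combination h)
  have e33 : y 1 ^ 2 * y 2 ^ 2 + y 0 ^ 4 = 0 := by
    have : (4 * y 0 ^ 2) * (y 1 ^ 2 * y 2 ^ 2 + y 0 ^ 4) = 0 := by linear_combination h33
    exact (mul_eq_zero.1 this).resolve_left (mul_ne_zero h4 (pow_ne_zero 2 h0))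
  have n2 : y 2 ≠ 0 := by
    intro h
    rw [h] at e33
    exact pow_ne_zero 4 h0 (by linear_combination e33)
  have n1 : y 1 ≠ 0 := by
    intro h
    rw [h] at e33
    exact pow_ne_zero 4 h0 (by linear_combination e33)
  have e22 : y 1 ^ 3 + y 2 ^ 3 = 0 := by
    have : (4 * y 0 ^ 2 * y 2) * (y 1 ^ 3 + y 2 ^ 3) = 0 := by linear_combination h22
    exact (mul_eq_zero.1 this).resolve_left
      (mul_ne_zero (mul_ne_zero h4 (pow_ne_zero 2 h0)) n2)
  have e32 : y 2 ^ 2 = y 0 * y 1 := by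
    have : (2 * y 0 ^ 2 * y 1 * y 2) * (y 2 ^ 2 - y 0 * y 1) = 0 := by
      linear_combination -h32 - (2 * y 0 ^ 2 * y 1) * e22
    have h5 := (mul_eq_zero.1 this).resolve_left
      (mul_ne_zero (mul_ne_zero (mul_ne_zero h2 (pow_ne_zero 2 h0)) n1) n2)
    linear_combination h5
  have e11 : y 0 ^ 3 + y 1 ^ 3 = 0 := by
    have : (4 * y 0 * y 2 ^ 2) * (y 0 ^ 3 + y 1 ^ 3) = 0 := by linear_combination h11
    exact (mul_eq_zero.1 this).resolve_left
      (mul_ne_zero (mul_ne_zero h4 h0) (pow_ne_zero 2 n2))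
  have e5 : y 0 ^ 2 = y 1 * y 2 := by
    have : y 0 ^ 2 * (y 0 ^ 2 - y 1 * y 2) = 0 := by
      linear_combination y 0 * e11 - y 0 * e22 + y 0 * y 2 * e32
    have h5 := (mul_eq_zero.1 this).resolve_left (pow_ne_zero 2 h0)
    linear_combination h5
  have : 2 * y 0 ^ 4 = 0 := by
    linear_combination e33 + (y 0 ^ 2 + y 1 * y 2) * e5
  exact (mul_ne_zero h2 (pow_ne_zero 4 h0)) this

end

/-- For general coefficients the hyperplane `y 3 = 0` contains no bad point. -/
theorem bad_side : ∃ Δ : MvPolynomial Ix ℚ, Δ ≠ 0 ∧ ∀ (K : Type u) [Field K] [Algebra ℚ K]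
    (c : Ix → K), aeval c Δ ≠ 0 → ∀ y : Fin 4 → K,
      (∀ i j, eval y (chow4 (pL c) (pL' c) (pQ c) i j) = 0) → y 3 = 0 → y = 0 := by
  obtain ⟨Δ, hΔ, h⟩ := exists_delta.{0, 0, 0, 0, u} (τ := Ix) (σ := Fin 4)
    (ι := Option (Fin 4 × Fin 4)) (Ω := AlgebraicClosure ℚ)
    (fun i => i.elim (X 3) fun p => chow4 (pL gen) (pL' gen) (pQ gen) p.1 p.2)
    (fun i => i.elim 1 fun _ => 6) (by
      rintro (_ | ⟨i, j⟩)
      · exact isHomogeneous_X _ _
      · exact isHomogeneous_chow4 _ _ _ _ _) cb (by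
      intro y hy
      refine cb_main y (fun i j => ?_) ?_
      · have := hy (some (i, j))
        simp only [Option.elim_some] at this
        rwa [spec_chow4] at this
      · have := hy none
        simpa [spec] using this)
  refine ⟨Δ, fun h0 => hΔ (by rw [h0, map_zero]), fun K _ _ c hc y hy h3 => ?_⟩
  refine h K c hc y ?_
  rintro (_ | ⟨i, j⟩)
  · simpa [spec] using h3
  · simp only [Option.elim_some]
    rw [spec_chow4]
    exact hy i j

/-- The same for the other projection. -/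
theorem bad_side' : ∃ Δ : MvPolynomial Ix ℚ, Δ ≠ 0 ∧ ∀ (K : Type u) [Field K] [Algebra ℚ K]
    (c : Ix → K), aeval c Δ ≠ 0 → ∀ x : Fin 4 → K,
      (∀ i j, eval x (chow4 (fun i j => pL c j i) (fun i j => pL' c j i)
        (fun i j k l => pQ c k l i j) i j) = 0) → x 3 = 0 → x = 0 := by
  obtain ⟨Δ, hΔ, h⟩ := bad_side.{u}
  refine ⟨swP Δ, swP_ne hΔ, fun K _ _ c hc x hx h3 => ?_⟩
  rw [aeval_swP] at hc
  refine h K _ hc x ?_ h3
  rw [pL_sw, pL'_sw, pQ_sw]
  exact hx

end Pool.Agent.Helper76.CY
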