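import Pool.Agent.Helper76.CY.CommonZero

set_option autoImplicit false
set_option linter.unusedVariables false
set_option linter.unusedSectionVars false

/-!
Through every point off a surface of degree 8 in space there is a line on which the equation is
a square of a quadratic form times a quartic form.
-/

namespace Pool.Agent.Helper76.CY

open MvPolynomial

variable {K : Type*} [Field K]

/-- the restriction of a form to the line through `p` in direction `w` -/
noncomputable def onLine {σ : Type*} (G : MvPolynomial σ K) (p w : σ → K) : Polynomial K :=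
  aeval (fun i => Polynomial.C (p i) + Polynomial.X * Polynomial.C (w i)) G

theorem eval_onLine {σ : Type*} (G : MvPolynomial σ K) (p w : σ → K) (s : K) :
    (onLine G p w).eval s = eval (fun i => p i + s * w i) G := by
  have h : (Polynomial.aeval s : Polynomial K →ₐ[K] K).comp
      (aeval (fun i => Polynomial.C (p i) + Polynomial.X * Polynomial.C (w i)) :
        MvPolynomial σ K →ₐ[K] Polynomial K) = aeval (fun i => p i + s * w i) := by
    apply MvPolynomial.algHom_ext
    intro i
    simp only [AlgHom.comp_apply, aeval_X, map_add, map_mul, Polynomial.aeval_C,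
      Polynomial.aeval_X, Algebra.algebraMap_self, RingHom.id_apply]
  have h2 := DFunLike.congr_fun h G
  rw [AlgHom.comp_apply, aeval_eq_eval, Polynomial.coe_aeval_eq_eval] at h2
  exact h2

theorem eval_reflect {f : Polynomial K} {N : ℕ} (hf : f.natDegree ≤ N) {s : K} (hs : s ≠ 0) :
    (Polynomial.reflect N f).eval s = s ^ N * f.eval s⁻¹ := by
  have hinv : Invertible s⁻¹ := invertibleOfNonzero (inv_ne_zero hs)
  have h := Polynomial.eval₂_reflect_mul_pow (RingHom.id K) s⁻¹ N f hf
  rw [Polynomial.eval₂_id, Polynomial.eval₂_id, invOf_eq_inv, inv_inv] at h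
  rw [← h, mul_comm (s ^ N), mul_assoc, ← mul_pow, inv_mul_cancel₀ hs, one_pow, mul_one]

/-- homogeneity -/
theorem eval_smul_form {σ : Type*} {G : MvPolynomial σ K} {d : ℕ} (hG : G.IsHomogeneous d)
    (c : K) (x : σ → K) : eval (fun i => c * x i) G = c ^ d * eval x G := by
  rw [eval_eq, eval_eq, Finset.mul_sum]
  refine Finset.sum_congr rfl fun m hm => ?_
  have h1 := hG (mem_support_iff.1 hm)
  have h2 : ∑ i ∈ m.support, m i = d := by
    rw [← h1, Finsupp.weight_apply]
    simp [Finsupp.sum]
  rw [← h2, ← Finset.prod_pow_eq_pow_sum]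
  simp only [mul_pow, Finset.prod_mul_distrib]
  ring

theorem bitangent [IsAlgClosed K] {G : MvPolynomial (Fin 4) K} (hG : G.IsHomogeneous 8)
    (p : Fin 4 → K) (hp : eval p G ≠ 0) :
    ∃ (w : Fin 4 → K) (a b : K) (q : Polynomial K), (∀ c : K, w ≠ c • p) ∧ q.natDegree ≤ 4 ∧
      q.coeff 0 = eval p G ∧
      onLine G p w = (1 + Polynomial.C a * Polynomial.X + Polynomial.C b * Polynomial.X ^ 2) ^ 2
        * q := by
  classical
  have hp0 : p ≠ 0 := by
    rintro rfl
    apply hp
    have h := eval_smul_form hG 0 (0 : Fin 4 → K)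
    simpa using h
  obtain ⟨i0, hi0⟩ := Function.ne_iff.1 hp0
  let R := MvPolynomial (Fin 5) K
  let W : Fin 4 → R := i0.insertNth (0 : R) (fun j : Fin 3 => (X (Fin.castLE (by norm_num) j) : R))
  let P : Polynomial R := aeval (fun i => Polynomial.C (C (p i) : R) * Polynomial.X +
    Polynomial.C (W i)) G
  let c : Polynomial R := Polynomial.X ^ 2 + (Polynomial.C (X 3 : R) * Polynomial.X +
    Polynomial.C (X 4 : R))
  have hcd : (Polynomial.C (X 3 : R) * Polynomial.X + Polynomial.C (X 4 : R)).degree <
      ((2 : ℕ) : WithBot ℕ) := by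
    refine lt_of_le_of_lt (Polynomial.degree_linear_le) ?_
    norm_num
  have hc : c.Monic := Polynomial.monic_X_pow_add (n := 2) hcd
  have hc2 : (c ^ 2).Monic := hc.pow 2
  have hcdeg : c.natDegree = 2 := by
    have : c.degree = ((2 : ℕ) : WithBot ℕ) := by
      rw [Polynomial.degree_add_eq_left_of_degree_lt]
      · exact Polynomial.degree_X_pow 2
      · rw [Polynomial.degree_X_pow]
        exact hcd
    exact Polynomial.natDegree_eq_of_degree_eq_some this
  have hc2deg : (c ^ 2).natDegree = 4 := by rw [hc.natDegree_pow, hcdeg]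
  let r : Polynomial R := P %ₘ (c ^ 2)
  have hr : r.natDegree < 4 := by
    have := Polynomial.natDegree_modByMonic_lt P hc2 (by
      intro h
      rw [h] at hc2deg
      simp at hc2deg)
    rw [hc2deg] at this
    exact this
  -- evaluation at a point
  have hmapP : ∀ z : Fin 5 → K, P.map (eval z) = aeval (fun i => Polynomial.C (p i) *
      Polynomial.X + Polynomial.C (eval z (W i))) G := by
    intro z
    have h : ((Polynomial.mapAlgHom (aeval z : R →ₐ[K] K)).comp
        (aeval (fun i => Polynomial.C (C (p i) : R) * Polynomial.X + Polynomial.C (W i)) :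
          MvPolynomial (Fin 4) K →ₐ[K] Polynomial R)) =
        aeval (fun i => Polynomial.C (p i) * Polynomial.X + Polynomial.C (eval z (W i))) := by
      apply MvPolynomial.algHom_ext
      intro i
      simp
    have h2 := DFunLike.congr_fun h G
    have h3 : ((aeval z : R →ₐ[K] K) : R →+* K) = eval z := by
      ext <;> simp
    rw [← h3]
    exact h2
  have hmapc : ∀ z : Fin 5 → K, c.map (eval z) = Polynomial.X ^ 2 + (Polynomial.C (z 3) *
      Polynomial.X + Polynomial.C (z 4)) := by
    intro z
    simp [c]
  -- evaluation of `P` at a scalar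
  have hPe : ∀ (z : Fin 5 → K) (t : K), (P.map (eval z)).eval t =
      eval (fun i => p i * t + eval z (W i)) G := by
    intro z t
    rw [hmapP]
    have h : (Polynomial.aeval t : Polynomial K →ₐ[K] K).comp
        (aeval (fun i => Polynomial.C (p i) * Polynomial.X + Polynomial.C (eval z (W i))) :
          MvPolynomial (Fin 4) K →ₐ[K] Polynomial K) =
        aeval (fun i => p i * t + eval z (W i)) := by
      apply MvPolynomial.algHom_ext
      intro i
      simp
    have h2 := DFunLike.congr_fun h G
    simpa [Polynomial.aeval_def, aeval_eq_eval] using h2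
  have hWz : ∀ z : Fin 5 → K, (∀ j : Fin 3, z (Fin.castLE (by norm_num) j) = 0) → ∀ i,
      eval z (W i) = 0 := by
    intro z hz i
    refine Fin.succAboveCases i0 ?_ ?_ i
    · simp [W]
    · intro j
      simp only [W, Fin.insertNth_apply_succAbove, eval_X]
      exact hz j
  have hP0 : ∀ z : Fin 5 → K, (∀ j : Fin 3, z (Fin.castLE (by norm_num) j) = 0) →
      P.map (eval z) = Polynomial.C (eval p G) * Polynomial.X ^ 8 := by
    intro z hz
    apply Polynomial.funext
    intro t
    rw [hPe]
    have : (fun i => p i * t + eval z (W i)) = fun i => t * p i := by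
      funext i
      rw [hWz z hz i]
      ring
    rw [this, eval_smul_form hG]
    simp
    ring
  obtain ⟨z, hz, hz2⟩ := exists_common_zero (K := K) (σ := Fin 5) (k := 4)
    (fun i => r.coeff i) (by
      intro i
      rw [← Polynomial.coeff_map]
      have : r.map (eval (0 : Fin 5 → K)) = 0 := by
        rw [Polynomial.map_modByMonic _ hc2, hP0 0 (fun _ => rfl), Polynomial.map_pow, hmapc]
        have h4 : (Polynomial.X ^ 2 + (Polynomial.C ((0 : Fin 5 → K) 3) * Polynomial.X +
          Polynomial.C ((0 : Fin 5 → K) 4))) ^ 2 = (Polynomial.X ^ 4 : Polynomial K) := by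
          simp only [Pi.zero_apply, Polynomial.C_0]
          ring
        rw [h4, Polynomial.modByMonic_eq_zero_iff_dvd (Polynomial.monic_X_pow 4)]
        exact Dvd.dvd.mul_left (pow_dvd_pow _ (by norm_num)) _
      rw [this]
      simp) (by simp)
  have hrz : r.map (eval z) = 0 := by
    ext i
    rw [Polynomial.coeff_map, Polynomial.coeff_zero]
    by_cases hi : i < 4
    · exact hz2 ⟨i, hi⟩
    · rw [Polynomial.coeff_eq_zero_of_natDegree_lt (by omega), map_zero]
  let Pz : Polynomial K := P.map (eval z)
  let cz : Polynomial K := c.map (eval z)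
  let qz : Polynomial K := (P /ₘ (c ^ 2)).map (eval z)
  have hPz : Pz = cz ^ 2 * qz := by
    have h := Polynomial.modByMonic_add_div P (c ^ 2)
    have h2 := congrArg (Polynomial.map (eval z)) h
    rw [Polynomial.map_add, Polynomial.map_mul, Polynomial.map_pow] at h2
    change r.map (eval z) + cz ^ 2 * qz = Pz at h2
    rw [hrz, zero_add] at h2
    exact h2.symm
  let w : Fin 4 → K := fun i => eval z (W i)
  have hwi0 : w i0 = 0 := by simp [w, W]
  have hw : ∀ a : K, w ≠ a • p := by
    intro a ha
    have ha0 : a = 0 := by
      have h := congrFun ha i0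
      rw [hwi0] at h
      simp only [Pi.smul_apply, smul_eq_mul] at h
      rcases mul_eq_zero.1 h.symm with h | h
      · exact h
      · exact absurd h hi0
    have hw0 : ∀ j : Fin 3, z (Fin.castLE (by norm_num) j) = 0 := by
      intro j
      have h := congrFun ha (i0.succAbove j)
      rw [ha0, zero_smul] at h
      simpa [w, W] using h
    have h1 : Pz = Polynomial.C (eval p G) * Polynomial.X ^ 8 := hP0 z hw0
    have hroot : ∀ t : K, t ^ 2 + (z 3 * t + z 4) = 0 → t = 0 := by
      intro t ht
      have h2 : Pz.eval t = 0 := by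
        rw [hPz, Polynomial.eval_mul, Polynomial.eval_pow]
        have : cz.eval t = 0 := by
          change (c.map (eval z)).eval t = 0
          rw [hmapc]
          simpa using ht
        rw [this]
        ring
      rw [h1] at h2
      simp only [Polynomial.eval_mul, Polynomial.eval_C, Polynomial.eval_pow, Polynomial.eval_X,
        mul_eq_zero] at h2
      rcases h2 with h2 | h2
      · exact absurd h2 hp
      · exact pow_eq_zero_iff (by norm_num) |>.1 h2
    obtain ⟨t, ht⟩ := IsAlgClosed.exists_root cz (by
      have hd : cz.degree = 2 := by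
        change (c.map (eval z)).degree = 2
        rw [hc.degree_map]
        rw [Polynomial.degree_eq_natDegree hc.ne_zero, hcdeg]
        rfl
      rw [hd]
      norm_num)
    have ht' : t ^ 2 + (z 3 * t + z 4) = 0 := by
      have : cz.eval t = 0 := ht
      change (c.map (eval z)).eval t = 0 at this
      rw [hmapc] at this
      simpa using this
    have ht0 := hroot t ht'
    have hz4 : z 4 = 0 := by
      rw [ht0] at ht'
      simpa using ht'
    have hz3 : z 3 = 0 := by
      have := hroot (-z 3) (by rw [hz4]; ring)
      simpa using this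
    apply hz
    funext i
    fin_cases i
    · exact hw0 0
    · exact hw0 1
    · exact hw0 2
    · exact hz3
    · exact hz4
  -- reverse the polynomials
  have hPzd : Pz.natDegree ≤ 8 := by
    change (P.map (eval z)).natDegree ≤ 8
    rw [hmapP]
    rw [MvPolynomial.aeval_def, MvPolynomial.eval₂_eq]
    refine Polynomial.natDegree_sum_le_of_forall_le _ _ fun m hm => ?_
    have h1 := hG (mem_support_iff.1 hm)
    have h2 : ∑ i ∈ m.support, m i = 8 := by
      rw [← h1, Finsupp.weight_apply]
      simp [Finsupp.sum]
    refine (Polynomial.natDegree_mul_le).trans ?_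
    have h3 : ((algebraMap K (Polynomial K)) (coeff m G)).natDegree = 0 := by
      simp
    rw [h3, zero_add]
    refine (Polynomial.natDegree_prod_le _ _).trans ?_
    rw [← h2]
    refine Finset.sum_le_sum fun i _ => ?_
    refine (Polynomial.natDegree_pow_le).trans ?_
    have h4 : (Polynomial.C (p i) * Polynomial.X + Polynomial.C (eval z (W i))).natDegree ≤ 1 :=
      Polynomial.natDegree_linear_le
    calc m i * _ ≤ m i * 1 := Nat.mul_le_mul_left _ h4
      _ = m i := mul_one _
  have hcz2 : (cz ^ 2).Monic := (hc.map _).pow 2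
  have hcz2d : (cz ^ 2).natDegree = 4 := by
    rw [(hc.map _).natDegree_pow]
    change 2 * (c.map (eval z)).natDegree = 4
    rw [hc.natDegree_map, hcdeg]
  have hqzd : qz.natDegree ≤ 4 := by
    by_cases hq : qz = 0
    · rw [hq]; simp
    · have h := congrArg Polynomial.natDegree hPz
      rw [hcz2.natDegree_mul' hq, hcz2d] at h
      omega
  have hid : onLine G p w = (1 + Polynomial.C (z 3) * Polynomial.X +
      Polynomial.C (z 4) * Polynomial.X ^ 2) ^ 2 * Polynomial.reflect 4 qz := by
    apply Polynomial.eq_of_infinite_eval_eq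
    refine Set.Infinite.mono (s := {s : K | s ≠ 0}) (fun s hs => ?_)
      (Set.finite_singleton (0 : K)).infinite_compl
    have hs' : s ≠ 0 := hs
    change (onLine G p w).eval s = _
    rw [eval_onLine, Polynomial.eval_mul, eval_reflect hqzd hs']
    have h1 : eval (fun i => p i + s * w i) G = s ^ 8 * Pz.eval s⁻¹ := by
      rw [hPe, ← eval_smul_form hG]
      congr 1
      congr 1
      funext i
      field_simp
      rfl
    rw [h1, hPz, Polynomial.eval_mul, Polynomial.eval_pow]
    have h2 : cz.eval s⁻¹ = (s⁻¹) ^ 2 + (z 3 * s⁻¹ + z 4) := by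
      change (c.map (eval z)).eval s⁻¹ = _
      rw [hmapc]
      simp
    rw [h2]
    simp only [Polynomial.eval_pow, Polynomial.eval_add, Polynomial.eval_one, Polynomial.eval_mul,
      Polynomial.eval_C, Polynomial.eval_X]
    field_simp
    ring
  refine ⟨w, z 3, z 4, Polynomial.reflect 4 qz, hw, ?_, ?_, hid⟩
  · refine (Polynomial.natDegree_reflect_le).trans ?_
    simpa using hqzd
  · have h := congrArg (Polynomial.eval 0) hid
    rw [eval_onLine] at h
    simp only [zero_mul, add_zero, Polynomial.eval_mul, Polynomial.eval_pow, Polynomial.eval_add,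
      Polynomial.eval_one, Polynomial.eval_C, Polynomial.eval_X, mul_zero, ne_eq,
      OfNat.ofNat_ne_zero, not_false_eq_true, zero_pow, one_pow, one_mul] at h
    rw [Polynomial.coeff_zero_eq_eval_zero]
    exact h.symm

end Pool.Agent.Helper76.CY
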