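import Mathlib

/-!
# Planes in cubic eightfolds: definitions

A plane of `P^9` near the plane `P_0 = <e_0, e_1, e_2>` is spanned by the rows of a matrix
`(1 | a)`, `a` of size `3 x 7`.
-/

namespace Pool.Agent.Helper76.CY

open MvPolynomial

/-- Indices of the entries of a `3 x 7` matrix. -/
abbrev Idx := Fin 3 × Fin 7

/-- Coefficients of a trilinear form in ten variables. -/
abbrev Ten (K : Type*) := Fin 10 → Fin 10 → Fin 10 → K

section tri

variable {K : Type*} [CommRing K] {R : Type*} [CommRing R] [Algebra K R]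

/-- The value at `x, y, z` of the trilinear form with coefficients `D`. -/
def tri (D : Ten K) (x y z : Fin 10 → R) : R :=
  ∑ i, ∑ j, ∑ k, algebraMap K R (D i j k) * x i * y j * z k

/-- The cubic form `D(x, x, x)`. -/
noncomputable def cubic (D : Ten K) : MvPolynomial (Fin 10) K :=
  ∑ i, ∑ j, ∑ k, C (D i j k) * X i * X j * X k

/-- The coefficients of the form after the cyclic shift of the coordinates. -/
def shift (D : Ten K) : Ten K := fun i j k => D (i + 1) (j + 1) (k + 1)

end tri

/-- The inclusion of the indices `0, 1, 2`. -/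
def c3 : Fin 3 → Fin 10 := Fin.castLE (by norm_num)

/-- The standard vector `e_j`. -/
def bv (R : Type*) [Zero R] [One R] (j : Fin 10) : Fin 10 → R := Pi.single j 1

/-- The vector `(0, 0, 0, a_{i0}, ..., a_{i6})`. -/
def tv {R : Type*} [Zero R] (a : Idx → R) (i : Fin 3) : Fin 10 → R := fun j =>
  if h : (j : ℕ) < 3 then 0 else a (i, ⟨(j : ℕ) - 3, by omega⟩)

/-- The `i`-th row of the matrix `(1 | a)`. -/
def row {R : Type*} [Ring R] (a : Idx → R) (i : Fin 3) : Fin 10 → R := bv R (c3 i) + tv a i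

/-- The ideal of the chart of the Fano scheme of planes in the hypersurface `F = 0`: it is
generated by the coefficients of `F(y_0 r_0 + y_1 r_1 + y_2 r_2)`, where `r_i` are the rows of
the matrix `(1 | X)`. -/
noncomputable def fanoIdeal {K : Type*} [CommRing K] (F : MvPolynomial (Fin 10) K) :
    Ideal (MvPolynomial Idx K) :=
  Ideal.span (Set.range fun m : Fin 3 →₀ ℕ => coeff m
    (aeval (fun j : Fin 10 => ∑ i : Fin 3, C (row X i j) * X i) F :
      MvPolynomial (Fin 3) (MvPolynomial Idx K)))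

/-- The ideal of the functions that vanish near the origin on the zero locus of `I`: the kernel
of the map from the polynomial ring to the local ring at the origin of the scheme defined by
`I`. -/
noncomputable def compIdeal {ι : Type*} {K : Type*} [Field K] (I : Ideal (MvPolynomial ι K)) :
    Ideal (MvPolynomial ι K) where
  carrier := {f | ∃ s, constantCoeff s ≠ 0 ∧ s * f ∈ I}
  add_mem' := by
    rintro f g ⟨s, hs, hsf⟩ ⟨t, ht, htg⟩
    refine ⟨s * t, by rw [map_mul]; exact mul_ne_zero hs ht, ?_⟩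
    have h1 := I.mul_mem_left t hsf
    have h2 := I.mul_mem_left s htg
    have := I.add_mem h1 h2
    convert this using 1
    ring
  zero_mem' := ⟨1, by simp, by simp⟩
  smul_mem' := by
    rintro c f ⟨s, hs, hsf⟩
    refine ⟨s, hs, ?_⟩
    have h1 := I.mul_mem_left c hsf
    rw [smul_eq_mul]
    convert h1 using 1
    ring

/-- The conditions on the cubic `D(x, x, x)` along `<e_0, e_1, e_2, e_3>`: it restricts to
`3 D_{033} x_0 x_3 ^ 2` with `D_{033}` nonzero, and the forms `D(m, ., .)` on `<e_0, e_1, e_2>`,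
`m` in `<e_4, ..., e_9>`, are all the quadratic forms. -/
structure Window {K : Type*} [Field K] (D : Ten K) : Prop where
  swap12 : ∀ i j k, D i j k = D j i k
  swap23 : ∀ i j k, D i j k = D i k j
  zero : ∀ i j k : Fin 10, i ≤ j → j ≤ k → k ≤ 3 → ¬ (i = 0 ∧ j = 3 ∧ k = 3) → D i j k = 0
  alpha : D 0 3 3 ≠ 0
  nondeg : ∀ m : Fin 10 → K, m 0 = 0 → m 1 = 0 → m 2 = 0 → m 3 = 0 →
    (∀ i j : Fin 3, tri D m (bv K (c3 i)) (bv K (c3 j)) = 0) → m = 0

/-- The differential of the rational self-map of the variety of planes (shifted back): `τ'` is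
the image of `τ`. -/
def IsStep {K : Type*} [Field K] (D : Ten K) (τ τ' : Idx → K) : Prop :=
  ∃ (m : Fin 10 → K) (c : Fin 3 → K), m 0 = 0 ∧ m 1 = 0 ∧ m 2 = 0 ∧ m 3 = 0 ∧
    (∀ i j : Fin 3, tri D m (bv K (c3 i)) (bv K (c3 j)) +
      tri D (bv K 3) (tv τ i) (bv K (c3 j)) + tri D (bv K 3) (bv K (c3 i)) (tv τ j) = 0) ∧
    c 0 * D 0 3 3 = tri D (tv τ 1) (bv K 3) (bv K 3) + 2 * tri D (bv K 1) (bv K 3) m ∧
    c 1 * D 0 3 3 = tri D (tv τ 2) (bv K 3) (bv K 3) + 2 * tri D (bv K 2) (bv K 3) m ∧
    c 2 * D 0 3 3 = tri D (bv K 3) (bv K 3) m ∧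
    ∀ k : Fin 7,
      τ' (0, k) = (tv τ 1 - c 0 • bv K 0) (Fin.castLE (by norm_num) k + 4) ∧
      τ' (1, k) = (tv τ 2 - c 1 • bv K 0) (Fin.castLE (by norm_num) k + 4) ∧
      τ' (2, k) = (m - c 2 • bv K 0) (Fin.castLE (by norm_num) k + 4)

/-- The composition of the first `r` of the maps `B_n`. -/
def compB {K V : Type*} [Field K] [AddCommGroup V] [Module K V] (B : ℕ → V →ₗ[K] V) :
    ℕ → V →ₗ[K] V
  | 0 => LinearMap.id
  | r + 1 => B r ∘ₗ compB B r

/-- An arc in the variety of planes of the cubic `D(x, x, x)` over the ring `O` with parameter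
`t`, with value `P_0` at `t = 0` and tangent vector `τ`. -/
structure IsArc {K : Type*} [Field K] {O : Type*} [CommRing O] [Algebra K O] (t : O)
    (D : Ten K) (τ : Idx → K) (a : Idx → O) : Prop where
  plane : ∀ i j k : Fin 3, tri D (row a i) (row a j) (row a k) = 0
  tangent : ∀ q, a q - t * algebraMap K O (τ q) ∈ Ideal.span {t ^ 2}

end Pool.Agent.Helper76.CY
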