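import Pool.Agent.Helper76.CY.Nf

set_option autoImplicit false
set_option linter.unusedVariables false
set_option linter.unusedSectionVars false
set_option linter.unusedSimpArgs false

/-!
The map from (changes of coordinates, normal forms) to all coefficients is dominant: the
derivative at one point is onto.
-/

namespace Pool.Agent.Helper76.CY

open MvPolynomial Pool.Agent.Helper37.RP

/-- the component `G` of the tangent vector over `b` -/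
def eG (p q : Fin 4 → Fin 4 → ℚ) (t : Fin 4 → Fin 4 → Fin 4 → Fin 4 → ℚ) : Fin 4 → Fin 4 → ℚ :=
  ![![-2 * t 0 0 0 1 - 2 * t 0 0 1 0 + 2 * t 0 2 0 0 + 2 * t 2 0 0 0, p 1 1 + q 1 1 - 4 *
    t 1 1 1 2 - 4 * t 1 1 2 1, 0, 0], ![2 * p 3 0 + 4 * t 0 0 0 3 + 4 * t 0 0 3 0 - 4 * t 0 3 0 0
    - 4 * t 3 0 0 0, q 1 0, -2 / 3 * p 3 0 + 1 / 3 * p 3 3 - q 0 1 + q 2 0 + 4 / 3 * t 0 0 3 3 -
    4 * t 0 1 1 1 + 4 / 3 * t 0 3 0 0 - 4 / 3 * t 0 3 0 3 - 4 / 3 * t 0 3 3 0 - 4 * t 1 0 1 1 + 4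
    * t 1 1 1 3 + 4 * t 1 1 3 1 + 4 / 3 * t 3 0 0 0 - 4 / 3 * t 3 0 0 3 - 4 / 3 * t 3 0 3 0 + 4 /
    3 * t 3 3 0 0, q 3 0], ![2 * t 0 0 0 0, 1 / 6 * p 3 0 + 1 / 6 * p 3 3 - 2 * t 0 0 0 2 - 2 *
    t 0 0 2 0 + 2 / 3 * t 0 0 3 3 + 2 * t 0 1 0 0 - 1 / 3 * t 0 3 0 0 - 2 / 3 * t 0 3 0 3 - 2 / 3
    * t 0 3 3 0 + 2 * t 1 0 0 0 - 1 / 3 * t 3 0 0 0 - 2 / 3 * t 3 0 0 3 - 2 / 3 * t 3 0 3 0 + 2 /
    3 * t 3 3 0 0, 0, p 3 0], ![-2 / 3 * p 3 0 + 1 / 3 * p 3 3 + 4 / 3 * t 0 0 3 3 + 4 / 3 *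
    t 0 3 0 0 - 4 / 3 * t 0 3 0 3 - 4 / 3 * t 0 3 3 0 + 4 / 3 * t 3 0 0 0 - 4 / 3 * t 3 0 0 3 - 4
    / 3 * t 3 0 3 0 + 4 / 3 * t 3 3 0 0, 4 * t 1 1 1 1, 0, 2 * t 3 3 0 0]]

/-- the component `H` of the tangent vector over `b` -/
def eH (p q : Fin 4 → Fin 4 → ℚ) (t : Fin 4 → Fin 4 → Fin 4 → Fin 4 → ℚ) : Fin 4 → Fin 4 → ℚ :=
  ![![0, q 1 1, -p 1 1 - q 1 1 + q 1 2 + 4 * t 1 1 1 2 + 4 * t 1 1 2 1, -2 / 3 * p 3 0 + 1 / 3 *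
    p 3 3 - q 0 1 + q 1 3 + 4 / 3 * t 0 0 3 3 - 4 * t 0 1 1 1 + 4 / 3 * t 0 3 0 0 - 4 / 3 *
    t 0 3 0 3 - 4 / 3 * t 0 3 3 0 - 4 * t 1 0 1 1 + 4 * t 1 1 1 3 + 4 * t 1 1 3 1 + 4 / 3 *
    t 3 0 0 0 - 4 / 3 * t 3 0 0 3 - 4 / 3 * t 3 0 3 0 + 4 / 3 * t 3 3 0 0], ![p 0 0 - 2 *
    t 0 0 0 0, p 0 1 - p 2 0 + 2 * t 0 0 0 1 + 2 * t 0 0 1 0 - 2 * t 0 2 0 0 - 2 * t 2 0 0 0,
    p 0 2 - p 1 0 - 1 / 6 * p 3 0 - 1 / 6 * p 3 3 - 2 * t 0 0 0 2 - 2 * t 0 0 2 0 - 2 / 3 *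
    t 0 0 3 3 + 2 * t 0 1 0 0 + 1 / 3 * t 0 3 0 0 + 2 / 3 * t 0 3 0 3 + 2 / 3 * t 0 3 3 0 + 2 *
    t 1 0 0 0 + 1 / 3 * t 3 0 0 0 + 2 / 3 * t 3 0 0 3 + 2 / 3 * t 3 0 3 0 - 2 / 3 * t 3 3 0 0,
    p 0 3 - 2 * p 3 0 - 4 * t 0 0 0 3 - 4 * t 0 0 3 0 + 4 * t 0 3 0 0 + 4 * t 3 0 0 0], ![-2 *
    p 3 0 + q 0 0 - 4 * t 0 0 0 3 - 4 * t 0 0 3 0 + 4 * t 0 3 0 0 + 4 * t 3 0 0 0, -2 / 3 * p 3 0
    + 1 / 3 * p 3 3 + 4 / 3 * t 0 0 3 3 - 4 * t 0 1 1 1 + 4 / 3 * t 0 3 0 0 - 4 / 3 * t 0 3 0 3 -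
    4 / 3 * t 0 3 3 0 - 4 * t 1 0 1 1 + 4 * t 1 1 1 3 + 4 * t 1 1 3 1 + 4 / 3 * t 3 0 0 0 - 4 / 3
    * t 3 0 0 3 - 4 / 3 * t 3 0 3 0 + 4 / 3 * t 3 3 0 0, q 0 2 + 2 * t 0 0 0 1 + 2 * t 0 0 1 0 -
    2 * t 0 2 0 0 - 2 * t 2 0 0 0, q 0 3], ![-1 / 3 * p 3 0 - 1 / 3 * p 3 3 - 4 / 3 * t 0 0 3 3 +
    2 / 3 * t 0 3 0 0 + 4 / 3 * t 0 3 0 3 + 4 / 3 * t 0 3 3 0 + 2 / 3 * t 3 0 0 0 + 4 / 3 *
    t 3 0 0 3 + 4 / 3 * t 3 0 3 0 - 4 / 3 * t 3 3 0 0, -q 1 1 + 4 * t 1 1 1 2 + 4 * t 1 1 2 1,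
    p 1 2, p 1 3 - p 2 0 - q 1 0]]

/-- the component `B` of the tangent vector over `b` -/
def eB (p q : Fin 4 → Fin 4 → ℚ) (t : Fin 4 → Fin 4 → Fin 4 → Fin 4 → ℚ) : Fin 4 → Fin 4 → ℚ :=
  ![![t 0 0 0 1 + t 0 0 1 0, 0, 0, 0], ![0, 1 / 6 * p 3 0 - 1 / 12 * p 3 3 - 1 / 3 * t 0 0 3 3 +
    t 0 1 1 1 - 1 / 3 * t 0 3 0 0 + 1 / 3 * t 0 3 0 3 + 1 / 3 * t 0 3 3 0 + t 1 0 1 1 - 1 / 3 *
    t 3 0 0 0 + 1 / 3 * t 3 0 0 3 + 1 / 3 * t 3 0 3 0 - 1 / 3 * t 3 3 0 0, 0, 0], ![0, 0, 0, 0],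
    ![0, 0, 0, 0]]

/-- the component `C` of the tangent vector over `b` -/
def eC (p q : Fin 4 → Fin 4 → ℚ) (t : Fin 4 → Fin 4 → Fin 4 → Fin 4 → ℚ) : Fin 4 → Fin 4 → ℚ :=
  ![![t 0 0 0 2 + t 0 0 2 0, 0, 0, 0], ![0, 1 / 6 * p 3 0 - 1 / 12 * p 3 3 - 1 / 3 * t 0 0 3 3 +
    t 0 1 1 1 - 1 / 3 * t 0 3 0 0 + 1 / 3 * t 0 3 0 3 + 1 / 3 * t 0 3 3 0 + t 1 0 1 1 + t 1 1 0 1
    + t 1 1 1 0 - t 1 1 1 3 - t 1 1 3 1 - 1 / 3 * t 3 0 0 0 + 1 / 3 * t 3 0 0 3 + 1 / 3 *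
    t 3 0 3 0 - 1 / 3 * t 3 3 0 0, 0, 0], ![0, 0, 0, 0], ![0, 0, 0, 0]]

/-- the component `A` of the tangent vector over `b` -/
def eA (p q : Fin 4 → Fin 4 → ℚ) (t : Fin 4 → Fin 4 → Fin 4 → Fin 4 → ℚ) : Fin 2 → Fin 2 → ℚ :=
  ![![p 2 0, p 1 0 + 1 / 6 * p 3 0 + 1 / 6 * p 3 3 + 2 * t 0 0 0 2 + 2 * t 0 0 2 0 + 2 / 3 *
    t 0 0 3 3 - 2 * t 0 1 0 0 - 1 / 3 * t 0 3 0 0 - 2 / 3 * t 0 3 0 3 - 2 / 3 * t 0 3 3 0 - 2 *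
    t 1 0 0 0 - 1 / 3 * t 3 0 0 0 - 2 / 3 * t 3 0 0 3 - 2 / 3 * t 3 0 3 0 + 2 / 3 * t 3 3 0 0],
    ![2 / 3 * p 3 0 - 1 / 3 * p 3 3 + q 0 1 - 4 / 3 * t 0 0 3 3 + 4 * t 0 1 1 1 - 4 / 3 *
    t 0 3 0 0 + 4 / 3 * t 0 3 0 3 + 4 / 3 * t 0 3 3 0 + 4 * t 1 0 1 1 - 4 * t 1 1 1 3 - 4 *
    t 1 1 3 1 - 4 / 3 * t 3 0 0 0 + 4 / 3 * t 3 0 0 3 + 4 / 3 * t 3 0 3 0 - 4 / 3 * t 3 3 0 0, 0]]

/-- the base point -/
def cz : Ix → ℚ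
  | .inl _ => 0
  | .inr (.inl _) => 0
  | .inr (.inr e) => if e = (0, 3, 0, 3) then 1 / 2 else if e = (0, 3, 3, 3) then 1 / 4 else
    if e = (1, 1, 2, 3) then 1 / 4 else if e = (1, 1, 0, 2) then 1 / 4 else
    if e = (1, 3, 1, 1) then 1 / 4 else if e = (0, 1, 0, 3) then 1 / 4 else 0

/-- the tensor at the base point -/
def tz (i j k l : Fin 4) : ℚ :=
  if (i, j, k, l) = (0, 3, 0, 3) then 1 / 2 else if (i, j, k, l) = (0, 3, 3, 3) then 1 / 4 else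
    if (i, j, k, l) = (1, 1, 2, 3) then 1 / 4 else if (i, j, k, l) = (1, 1, 0, 2) then 1 / 4 else
    if (i, j, k, l) = (1, 3, 1, 1) then 1 / 4 else if (i, j, k, l) = (0, 1, 0, 3) then 1 / 4 else
    if (i, j, k, l) = (0, 2, 0, 0) then 1 / 2 else
    if (i, j, k, l) = (3, 3, 0, 0) then 1 / 4 else if (i, j, k, l) = (0, 0, 3, 3) then 1 / 4 else 0

theorem tens_nf_cz : tens (nf cz) = tz := by
  have h : ∀ i j k l, tens (nf cz) i j k l = tz i j k l := by decide +kernel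
  funext i j k l
  exact h i j k l

/-- the first form at the base point -/
def pz (i j : Fin 4) : ℚ :=
  if (i, j) = (0, 1) then 1 else if (i, j) = (1, 3) then 1 else if (i, j) = (2, 0) then 1 else 0

/-- the second form at the base point -/
def pz' (i j : Fin 4) : ℚ :=
  if (i, j) = (0, 2) then 1 else if (i, j) = (1, 0) then 1 else 0

theorem pL_nf_cz : pL (nf cz) = pz := by
  have h : ∀ i j : Fin 4, nf cz (.inl (i, j)) = pz i j := by decide +kernel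
  funext i j
  exact h i j

theorem pL'_nf_cz : pL' (nf cz) = pz' := by
  have h : ∀ i j : Fin 4, nf cz (.inr (.inl (i, j))) = pz' i j := by decide +kernel
  funext i j
  exact h i j

/-- The derivative of the group action in the direction over `b`. -/
def da (b : Ix → ℚ) : Ix → ℚ :=
  dact (eG (pL b) (pL' b) (tens b)) (eH (pL b) (pL' b) (tens b)) (eB (pL b) (pL' b) (tens b))
    (eC (pL b) (pL' b) (tens b)) (eA (pL b) (pL' b) (tens b)) (nf cz)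

/-- The component in the parameters of the normal form. -/
def eN (b : Ix → ℚ) (e : Ix) : ℚ :=
  if e = .inl (3, 3) then (b e - da b e) / 2 else
  if e = .inr (.inr (0, 3, 0, 3)) then
    b (.inr (.inr (0, 3, 0, 3))) - da b (.inr (.inr (0, 3, 0, 3))) +
      (b (.inr (.inr (3, 0, 0, 3))) - da b (.inr (.inr (3, 0, 0, 3)))) +
      (b (.inr (.inr (0, 3, 3, 0))) - da b (.inr (.inr (0, 3, 3, 0)))) +
      (b (.inr (.inr (3, 0, 3, 0))) - da b (.inr (.inr (3, 0, 3, 0)))) else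
  b e - da b e

theorem da_L (b : Ix → ℚ) (i j : Fin 4) : da b (.inl (i, j)) =
    mc1 pz (eG (pL b) (pL' b) (tens b)) i j + mc2 pz (eH (pL b) (pL' b) (tens b)) i j +
      eA (pL b) (pL' b) (tens b) 0 0 * pz i j + eA (pL b) (pL' b) (tens b) 0 1 * pz' i j := by
  simp only [da, dact, pL_nf_cz, pL'_nf_cz]

theorem da_L' (b : Ix → ℚ) (i j : Fin 4) : da b (.inr (.inl (i, j))) =
    mc1 pz' (eG (pL b) (pL' b) (tens b)) i j + mc2 pz' (eH (pL b) (pL' b) (tens b)) i j +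
      eA (pL b) (pL' b) (tens b) 1 0 * pz i j + eA (pL b) (pL' b) (tens b) 1 1 * pz' i j := by
  simp only [da, dact, pL_nf_cz, pL'_nf_cz]

theorem da_Q (b : Ix → ℚ) (i j k l : Fin 4) : da b (.inr (.inr (i, j, k, l))) =
    con1 tz (eG (pL b) (pL' b) (tens b)) i j k l + con2 tz (eG (pL b) (pL' b) (tens b)) i j k l +
      con3 tz (eH (pL b) (pL' b) (tens b)) i j k l +
      con4 tz (eH (pL b) (pL' b) (tens b)) i j k l +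
      (eB (pL b) (pL' b) (tens b) i k * pz j l + eC (pL b) (pL' b) (tens b) i k * pz' j l) := by
  simp only [da, dact, pL_nf_cz, pL'_nf_cz, tens_nf_cz]

theorem fix_L (b : Ix → ℚ) :
    da b (.inl (0, 0)) = b (.inl (0, 0)) ∧
    da b (.inl (0, 1)) = b (.inl (0, 1)) ∧
    da b (.inl (0, 2)) = b (.inl (0, 2)) ∧
    da b (.inl (0, 3)) = b (.inl (0, 3)) ∧
    da b (.inl (1, 0)) = b (.inl (1, 0)) ∧
    da b (.inl (1, 1)) = b (.inl (1, 1)) ∧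
    da b (.inl (1, 2)) = b (.inl (1, 2)) ∧
    da b (.inl (1, 3)) = b (.inl (1, 3)) ∧
    da b (.inl (2, 0)) = b (.inl (2, 0)) ∧
    da b (.inl (3, 0)) = b (.inl (3, 0)) := by
  refine ⟨?_, ?_, ?_, ?_, ?_, ?_, ?_, ?_, ?_, ?_⟩ <;>
    simp only [da_L, da_L', mc1, mc2, Fin.sum_univ_four, pz, pz', Prod.mk.injEq,
      Fin.reduceEq, and_true, and_false, and_self, if_true, if_false, mul_zero, zero_mul, one_mul,
      mul_one, add_zero, zero_add, eG, eH, eA, Matrix.cons_val, pL, pL', tens] <;>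
    ring

theorem fix_L' (b : Ix → ℚ) :
    da b (.inr (.inl (0, 0))) = b (.inr (.inl (0, 0))) ∧
    da b (.inr (.inl (0, 1))) = b (.inr (.inl (0, 1))) ∧
    da b (.inr (.inl (0, 2))) = b (.inr (.inl (0, 2))) ∧
    da b (.inr (.inl (0, 3))) = b (.inr (.inl (0, 3))) ∧
    da b (.inr (.inl (1, 0))) = b (.inr (.inl (1, 0))) ∧
    da b (.inr (.inl (1, 1))) = b (.inr (.inl (1, 1))) ∧
    da b (.inr (.inl (1, 2))) = b (.inr (.inl (1, 2))) ∧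
    da b (.inr (.inl (1, 3))) = b (.inr (.inl (1, 3))) ∧
    da b (.inr (.inl (2, 0))) = b (.inr (.inl (2, 0))) ∧
    da b (.inr (.inl (3, 0))) = b (.inr (.inl (3, 0))) := by
  refine ⟨?_, ?_, ?_, ?_, ?_, ?_, ?_, ?_, ?_, ?_⟩ <;>
    simp only [da_L, da_L', mc1, mc2, Fin.sum_univ_four, pz, pz', Prod.mk.injEq,
      Fin.reduceEq, and_true, and_false, and_self, if_true, if_false, mul_zero, zero_mul, one_mul,
      mul_one, add_zero, zero_add, eG, eH, eA, Matrix.cons_val, pL, pL', tens] <;>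
    ring

theorem fix_Q (b : Ix → ℚ) :
    da b (.inr (.inr (0, 0, 0, 0))) = b (.inr (.inr (0, 0, 0, 0))) ∧
    da b (.inr (.inr (0, 0, 0, 1))) + da b (.inr (.inr (0, 0, 1, 0))) =
      b (.inr (.inr (0, 0, 0, 1))) + b (.inr (.inr (0, 0, 1, 0))) ∧
    da b (.inr (.inr (0, 0, 0, 2))) + da b (.inr (.inr (0, 0, 2, 0))) =
      b (.inr (.inr (0, 0, 0, 2))) + b (.inr (.inr (0, 0, 2, 0))) ∧
    da b (.inr (.inr (0, 0, 0, 3))) + da b (.inr (.inr (0, 0, 3, 0))) =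
      b (.inr (.inr (0, 0, 0, 3))) + b (.inr (.inr (0, 0, 3, 0))) ∧
    da b (.inr (.inr (1, 1, 0, 1))) + da b (.inr (.inr (1, 1, 1, 0))) =
      b (.inr (.inr (1, 1, 0, 1))) + b (.inr (.inr (1, 1, 1, 0))) ∧
    da b (.inr (.inr (1, 1, 1, 1))) = b (.inr (.inr (1, 1, 1, 1))) ∧
    da b (.inr (.inr (1, 1, 1, 2))) + da b (.inr (.inr (1, 1, 2, 1))) =
      b (.inr (.inr (1, 1, 1, 2))) + b (.inr (.inr (1, 1, 2, 1))) ∧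
    da b (.inr (.inr (1, 1, 1, 3))) + da b (.inr (.inr (1, 1, 3, 1))) =
      b (.inr (.inr (1, 1, 1, 3))) + b (.inr (.inr (1, 1, 3, 1))) ∧
    da b (.inr (.inr (0, 1, 1, 1))) + da b (.inr (.inr (1, 0, 1, 1))) =
      b (.inr (.inr (0, 1, 1, 1))) + b (.inr (.inr (1, 0, 1, 1))) ∧
    da b (.inr (.inr (0, 1, 0, 0))) + da b (.inr (.inr (1, 0, 0, 0))) =
      b (.inr (.inr (0, 1, 0, 0))) + b (.inr (.inr (1, 0, 0, 0))) ∧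
    da b (.inr (.inr (0, 3, 0, 0))) + da b (.inr (.inr (3, 0, 0, 0))) =
      b (.inr (.inr (0, 3, 0, 0))) + b (.inr (.inr (3, 0, 0, 0))) ∧
    da b (.inr (.inr (0, 2, 0, 0))) + da b (.inr (.inr (2, 0, 0, 0))) =
      b (.inr (.inr (0, 2, 0, 0))) + b (.inr (.inr (2, 0, 0, 0))) ∧
    da b (.inr (.inr (3, 3, 0, 0))) = b (.inr (.inr (3, 3, 0, 0))) := by
  refine ⟨?_, ?_, ?_, ?_, ?_, ?_, ?_, ?_, ?_, ?_, ?_, ?_, ?_⟩ <;>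
    simp only [da_Q, con1, con2, con3, con4, Fin.sum_univ_four, pz, pz', tz, Prod.mk.injEq,
      Fin.reduceEq, and_true, and_false, and_self, if_true, if_false, mul_zero, zero_mul, one_mul,
      mul_one, add_zero, zero_add, eG, eH, eB, eC, Matrix.cons_val, pL, pL', tens] <;>
    ring

theorem fix_R (b : Ix → ℚ) :
    da b (.inr (.inr (0, 0, 3, 3))) + (b (.inr (.inr (0, 3, 0, 3))) -
      da b (.inr (.inr (0, 3, 0, 3))) +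
      (b (.inr (.inr (3, 0, 0, 3))) - da b (.inr (.inr (3, 0, 0, 3)))) +
      (b (.inr (.inr (0, 3, 3, 0))) - da b (.inr (.inr (0, 3, 3, 0)))) +
      (b (.inr (.inr (3, 0, 3, 0))) - da b (.inr (.inr (3, 0, 3, 0))))) -
      (b (.inl (3, 3)) - da b (.inl (3, 3))) / 4 = b (.inr (.inr (0, 0, 3, 3))) := by
  simp only [da_Q, da_L, mc1, mc2, con1, con2, con3, con4, Fin.sum_univ_four, pz, pz', tz,
    Prod.mk.injEq, Fin.reduceEq, and_true, and_false, and_self, if_true, if_false, mul_zero,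
    zero_mul, one_mul, mul_one, add_zero, zero_add, eG, eH, eA, eB, eC, Matrix.cons_val, pL, pL',
    tens]
  ring

end Pool.Agent.Helper76.CY
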