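import Pool.Agent.Helper76.CY.Dom

set_option autoImplicit false
set_option linter.unusedVariables false
set_option linter.unusedSectionVars false
set_option linter.unusedSimpArgs false

/-!
Dominance of the family of normal forms.
-/

namespace Pool.Agent.Helper76.CY

open MvPolynomial Pool.Agent.Helper37.RP

theorem fst_two : (2 : DualNumber ℚ).fst = 2 := rfl

theorem snd_two : (2 : DualNumber ℚ).snd = 0 := by
  have h : (2 : DualNumber ℚ) = 1 + 1 := by norm_num
  rw [h, TrivSqZeroExt.snd_add, TrivSqZeroExt.snd_one, add_zero]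

theorem snd_alg (r : ℚ) : (algebraMap ℚ (DualNumber ℚ) r).snd = 0 := rfl

theorem snd_nf_L (b : Ix → ℚ) (i j : Fin 4) :
    (nf (tan cz (eN b)) (.inl (i, j))).snd + da b (.inl (i, j)) = b (.inl (i, j)) := by
  obtain ⟨h1, h2, h3, h4, h5, h6, h7, h8, h9, h10⟩ := fix_L b
  fin_cases i <;> fin_cases j <;>
    simp [nf, nfL, pL, tan, eN, h1, h2, h3, h4, h5, h6, h7, h8, h9, h10, fst_two, snd_two]
  ring

theorem snd_nf_L' (b : Ix → ℚ) (i j : Fin 4) :
    (nf (tan cz (eN b)) (.inr (.inl (i, j)))).snd + da b (.inr (.inl (i, j))) =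
      b (.inr (.inl (i, j))) := by
  obtain ⟨h1, h2, h3, h4, h5, h6, h7, h8, h9, h10⟩ := fix_L' b
  fin_cases i <;> fin_cases j <;>
    simp [nf, nfL', pL', tan, eN, h1, h2, h3, h4, h5, h6, h7, h8, h9, h10]

theorem snd_nf_Q (b : Ix → ℚ) (i j k l : Fin 4) :
    (nf (tan cz (eN b)) (.inr (.inr (i, j, k, l)))).snd + da b (.inr (.inr (i, j, k, l))) =
      b (.inr (.inr (i, j, k, l))) := by
  obtain ⟨h1, h2, h3, h4, h5, h6, h7, h8, h9, h10, h11, h12, h13⟩ := fix_Q b
  have hR := fix_R b
  by_cases g1 : (i, j, k, l) = (0, 0, 0, 0)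
  · simp only [Prod.mk.injEq] at g1
    obtain ⟨rfl, rfl, rfl, rfl⟩ := g1
    simp [nf, nfQ, tens, tan, eN, snd_alg]
    linarith
  by_cases g2 : (i, j, k, l) = (0, 0, 0, 1)
  · simp only [Prod.mk.injEq] at g2
    obtain ⟨rfl, rfl, rfl, rfl⟩ := g2
    simp [nf, nfQ, tens, tan, eN, snd_alg]
    linarith
  by_cases g3 : (i, j, k, l) = (0, 0, 0, 2)
  · simp only [Prod.mk.injEq] at g3
    obtain ⟨rfl, rfl, rfl, rfl⟩ := g3
    simp [nf, nfQ, tens, tan, eN, snd_alg]
    linarith
  by_cases g4 : (i, j, k, l) = (0, 0, 0, 3)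
  · simp only [Prod.mk.injEq] at g4
    obtain ⟨rfl, rfl, rfl, rfl⟩ := g4
    simp [nf, nfQ, tens, tan, eN, snd_alg]
    linarith
  by_cases g5 : (i, j, k, l) = (1, 1, 0, 1)
  · simp only [Prod.mk.injEq] at g5
    obtain ⟨rfl, rfl, rfl, rfl⟩ := g5
    simp [nf, nfQ, tens, tan, eN, snd_alg]
    linarith
  by_cases g6 : (i, j, k, l) = (1, 1, 1, 1)
  · simp only [Prod.mk.injEq] at g6
    obtain ⟨rfl, rfl, rfl, rfl⟩ := g6
    simp [nf, nfQ, tens, tan, eN, snd_alg]
    linarith
  by_cases g7 : (i, j, k, l) = (1, 1, 1, 2)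
  · simp only [Prod.mk.injEq] at g7
    obtain ⟨rfl, rfl, rfl, rfl⟩ := g7
    simp [nf, nfQ, tens, tan, eN, snd_alg]
    linarith
  by_cases g8 : (i, j, k, l) = (1, 1, 1, 3)
  · simp only [Prod.mk.injEq] at g8
    obtain ⟨rfl, rfl, rfl, rfl⟩ := g8
    simp [nf, nfQ, tens, tan, eN, snd_alg]
    linarith
  by_cases g9 : (i, j, k, l) = (0, 1, 1, 1)
  · simp only [Prod.mk.injEq] at g9
    obtain ⟨rfl, rfl, rfl, rfl⟩ := g9
    simp [nf, nfQ, tens, tan, eN, snd_alg]
    linarith
  by_cases g10 : (i, j, k, l) = (0, 1, 0, 0)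
  · simp only [Prod.mk.injEq] at g10
    obtain ⟨rfl, rfl, rfl, rfl⟩ := g10
    simp [nf, nfQ, tens, tan, eN, snd_alg]
    linarith
  by_cases g11 : (i, j, k, l) = (0, 3, 0, 0)
  · simp only [Prod.mk.injEq] at g11
    obtain ⟨rfl, rfl, rfl, rfl⟩ := g11
    simp [nf, nfQ, tens, tan, eN, snd_alg]
    linarith
  by_cases g12 : (i, j, k, l) = (0, 2, 0, 0)
  · simp only [Prod.mk.injEq] at g12
    obtain ⟨rfl, rfl, rfl, rfl⟩ := g12
    simp [nf, nfQ, tens, tan, eN, snd_alg]
    linarith
  by_cases g13 : (i, j, k, l) = (3, 3, 0, 0)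
  · simp only [Prod.mk.injEq] at g13
    obtain ⟨rfl, rfl, rfl, rfl⟩ := g13
    simp [nf, nfQ, tens, tan, eN, snd_alg]
    linarith
  by_cases g14 : (i, j, k, l) = (0, 0, 3, 3)
  · simp only [Prod.mk.injEq] at g14
    obtain ⟨rfl, rfl, rfl, rfl⟩ := g14
    simp [nf, nfQ, tens, tan, eN, pL, cz]
    linarith
  by_cases g15 : (i, j, k, l) = (0, 3, 0, 3)
  · simp only [Prod.mk.injEq] at g15
    obtain ⟨rfl, rfl, rfl, rfl⟩ := g15
    simp [nf, nfQ, tens, tan, eN, fst_two, snd_two]
    try ring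
  rw [nf, nfQ, if_neg g1, if_neg g2, if_neg g3, if_neg g4, if_neg g5, if_neg g6, if_neg g7, if_neg g8, if_neg g9, if_neg g10, if_neg g11, if_neg g12, if_neg g13, if_neg g14, if_neg g15]
  have h0 : eN b (.inr (.inr (i, j, k, l))) =
      b (.inr (.inr (i, j, k, l))) - da b (.inr (.inr (i, j, k, l))) := by
    rw [eN, if_neg (by simp), if_neg (by simpa using g15)]
  simp [tens, tan, h0]

theorem snd_nf (b : Ix → ℚ) (e : Ix) :
    (nf (tan cz (eN b)) e).snd + da b e = b e := by
  rcases e with ⟨i, j⟩ | ⟨i, j⟩ | ⟨i, j, k, l⟩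
  · exact snd_nf_L b i j
  · exact snd_nf_L' b i j
  · exact snd_nf_Q b i j k l

theorem nf_tan (c d : Ix → ℚ) : nf (tan c d) = tan (nf c) (fun e => (nf (tan c d) e).snd) := by
  funext e
  have h1 : (nf (tan c d) e).fst = nf c e := by
    have h := map_nf (TrivSqZeroExt.fstHom ℚ ℚ ℚ) (tan c d) e
    have h2 : (fun e => (TrivSqZeroExt.fstHom ℚ ℚ ℚ) (tan c d e)) = c := by
      funext e
      change (tan c d e).fst = c e
      simp [tan]
    rw [h2] at h
    exact h
  rw [tan, ← h1, TrivSqZeroExt.inl_fst_add_inr_snd_eq]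

/-- The parameters: four matrices of size `4`, one of size `2`, and the parameters of the normal
form. -/
abbrev Px : Type := (Fin 4 × Fin 4 × Fin 4) ⊕ (Fin 2 × Fin 2) ⊕ Ix

/-- The coefficients as functions of the parameters. -/
def par {R : Type*} [CommRing R] [Algebra ℚ R] (s : Px → R) : Ix → R :=
  act (fun a i => s (.inl (0, a, i))) (fun a i => s (.inl (1, a, i)))
    (fun a i => s (.inl (2, a, i))) (fun a i => s (.inl (3, a, i)))
    (fun a i => s (.inr (.inl (a, i)))) (nf fun e => s (.inr (.inr e)))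

theorem map_par {R S : Type*} [CommRing R] [CommRing S] [Algebra ℚ R] [Algebra ℚ S]
    (φ : R →ₐ[ℚ] S) (s : Px → R) (e : Ix) : φ (par s e) = par (fun t => φ (s t)) e := by
  have h := map_act (φ : R →+* S) (fun a i => s (.inl (0, a, i))) (fun a i => s (.inl (1, a, i)))
    (fun a i => s (.inl (2, a, i))) (fun a i => s (.inl (3, a, i)))
    (fun a i => s (.inr (.inl (a, i)))) (nf fun e => s (.inr (.inr e))) e
  simp only [RingHom.coe_coe, map_nf] at h
  exact h

/-- the identity with the base point -/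
def sz : Px → ℚ
  | .inl (n, a, i) => if n = 0 ∨ n = 1 then (if a = i then 1 else 0) else 0
  | .inr (.inl (a, i)) => if a = i then 1 else 0
  | .inr (.inr e) => cz e

/-- the tangent vector over `b` -/
def vz (b : Ix → ℚ) : Px → ℚ
  | .inl (n, a, i) => if n = 0 then eG (pL b) (pL' b) (tens b) a i else
    if n = 1 then eH (pL b) (pL' b) (tens b) a i else
    if n = 2 then eB (pL b) (pL' b) (tens b) a i else eC (pL b) (pL' b) (tens b) a i
  | .inr (.inl (a, i)) => eA (pL b) (pL' b) (tens b) a i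
  | .inr (.inr e) => eN b e

theorem par_tan (b : Ix → ℚ) (e : Ix) : (par (tan sz (vz b)) e).snd = b e := by
  have h0 : (fun e => tan sz (vz b) (.inr (.inr e))) = tan cz (eN b) := rfl
  have h1 : (fun a i => tan sz (vz b) (.inl (0, a, i))) = one_eps (eG (pL b) (pL' b) (tens b)) := by
    funext a i
    simp [tan, sz, vz, one_eps]
  have h2 : (fun a i => tan sz (vz b) (.inl (1, a, i))) = one_eps (eH (pL b) (pL' b) (tens b)) := by
    funext a i
    simp [tan, sz, vz, one_eps]
  have h3 : (fun a i => tan sz (vz b) (.inl (2, a, i))) = eps (eB (pL b) (pL' b) (tens b)) := by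
    funext a i
    simp [tan, sz, vz, eps]
  have h4 : (fun a i => tan sz (vz b) (.inl (3, a, i))) = eps (eC (pL b) (pL' b) (tens b)) := by
    funext a i
    simp [tan, sz, vz, eps]
  have h5 : (fun a i => tan sz (vz b) (.inr (.inl (a, i)))) =
      one_eps (eA (pL b) (pL' b) (tens b)) := by
    funext a i
    simp [tan, sz, vz, one_eps]
  rw [par, h0, h1, h2, h3, h4, h5, nf_tan, act_dual]
  exact snd_nf b e

/-- The coefficients as polynomials in the parameters. -/
noncomputable def parP : Ix → MvPolynomial Px ℚ := par X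

theorem aeval_parP {K : Type*} [CommRing K] [Algebra ℚ K] (s : Px → K) (e : Ix) :
    aeval s (parP e) = par s e := by
  have h := map_par (aeval s : MvPolynomial Px ℚ →ₐ[ℚ] K) X e
  have h2 : (fun t => (aeval s : MvPolynomial Px ℚ →ₐ[ℚ] K) (X t)) = s := by
    funext t
    exact aeval_X s t
  rw [h2] at h
  exact h

theorem algInd_parP : AlgebraicIndependent ℚ parP := by
  refine UF.algInd_of_point (K' := ℚ) parP sz fun b => ⟨vz b, fun e => ?_⟩
  rw [← (snd_aeval_dual sz (vz b) (parP e)).2, aeval_parP]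
  exact par_tan b e

/-- Over a general point of the space of coefficients there are, over a finite extension, changes
of coordinates and a normal form with the nonzero polynomial `w` not zero at its parameters. -/
theorem exists_nf (w : MvPolynomial Ix ℚ) (hw : w ≠ 0) : ∃ Δ : MvPolynomial Ix ℚ, Δ ≠ 0 ∧
    ∀ (K : Type) [Field K] [CharZero K] (c : Ix → K), aeval c Δ ≠ 0 →
      ∃ (L : Type) (_ : Field L) (_ : CharZero L) (_ : Algebra K L) (_ : FiniteDimensional K L)
        (g h B B' : Matrix (Fin 4) (Fin 4) L) (A : Matrix (Fin 2) (Fin 2) L) (n : Ix → L),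
        (∀ e, algebraMap K L (c e) = act g h B B' A (nf n) e) ∧ g.det ≠ 0 ∧ h.det ≠ 0 ∧
          A.det ≠ 0 ∧ aeval n w ≠ 0 ∧ g.adjugate 0 0 ≠ 0 ∧ h.adjugate 0 0 ≠ 0 := by
  classical
  let Mg : Matrix (Fin 4) (Fin 4) (MvPolynomial Px ℚ) := fun a i => X (.inl (0, a, i))
  let Mh : Matrix (Fin 4) (Fin 4) (MvPolynomial Px ℚ) := fun a i => X (.inl (1, a, i))
  let MA : Matrix (Fin 2) (Fin 2) (MvPolynomial Px ℚ) := fun a i => X (.inr (.inl (a, i)))
  let W : MvPolynomial Px ℚ := rename (fun e => .inr (.inr e)) w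
  have hW : W ≠ 0 := by
    intro h0
    refine hw (rename_injective (fun e : Ix => (.inr (.inr e) : Px)) ?_ ?_)
    · intro a b hab
      exact Sum.inr_injective (Sum.inr_injective hab)
    · rw [map_zero]
      exact h0
  have ev : ∀ {L : Type} [Field L] [CharZero L] (s : Px → L),
      aeval s Mg.det = (Matrix.of fun a i => s (.inl (0, a, i))).det ∧
      aeval s Mh.det = (Matrix.of fun a i => s (.inl (1, a, i))).det ∧
      aeval s MA.det = (Matrix.of fun a i => s (.inr (.inl (a, i)))).det := by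
    intro L _ _ s
    refine ⟨?_, ?_, ?_⟩
    · rw [AlgHom.map_det]
      congr 1
      ext a i
      exact aeval_X s _
    · rw [AlgHom.map_det]
      congr 1
      ext a i
      exact aeval_X s _
    · rw [AlgHom.map_det]
      congr 1
      ext a i
      exact aeval_X s _
  have one : ∀ m : ℕ, (Matrix.of fun a i : Fin m => (if a = i then (1 : ℚ) else 0)).det ≠ 0 := by
    intro m
    have : (Matrix.of fun a i : Fin m => (if a = i then (1 : ℚ) else 0)) = 1 := by
      ext a i
      rw [Matrix.one_apply]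
      rfl
    rw [this, Matrix.det_one]
    exact one_ne_zero
  have hg : Mg.det ≠ 0 := by
    intro h0
    have h := (ev sz).1
    rw [h0, map_zero] at h
    refine one 4 (Eq.trans ?_ h.symm)
    congr 1
  have hh : Mh.det ≠ 0 := by
    intro h0
    have h := (ev sz).2.1
    rw [h0, map_zero] at h
    refine one 4 (Eq.trans ?_ h.symm)
    congr 1
  have hA : MA.det ≠ 0 := by
    intro h0
    have h := (ev sz).2.2
    rw [h0, map_zero] at h
    refine one 2 (Eq.trans ?_ h.symm)
    congr 1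
  have ev2 : ∀ {L : Type} [Field L] [CharZero L] (s : Px → L),
      aeval s (Mg.adjugate 0 0) = (Matrix.of fun a i => s (.inl (0, a, i))).adjugate 0 0 ∧
      aeval s (Mh.adjugate 0 0) = (Matrix.of fun a i => s (.inl (1, a, i))).adjugate 0 0 := by
    intro L _ _ s
    constructor
    · have h := congrFun (congrFun (AlgHom.map_adjugate (aeval s) Mg) 0) 0
      have e : (aeval s : MvPolynomial Px ℚ →ₐ[ℚ] L).mapMatrix Mg =
          Matrix.of fun a i => s (.inl (0, a, i)) := by
        ext a i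
        exact aeval_X s _
      rw [e] at h
      exact h
    · have h := congrFun (congrFun (AlgHom.map_adjugate (aeval s) Mh) 0) 0
      have e : (aeval s : MvPolynomial Px ℚ →ₐ[ℚ] L).mapMatrix Mh =
          Matrix.of fun a i => s (.inl (1, a, i)) := by
        ext a i
        exact aeval_X s _
      rw [e] at h
      exact h
  have one2 : (Matrix.of fun a i : Fin 4 => (if a = i then (1 : ℚ) else 0)).adjugate 0 0 ≠ 0 := by
    have : (Matrix.of fun a i : Fin 4 => (if a = i then (1 : ℚ) else 0)) = 1 := by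
      ext a i
      rw [Matrix.one_apply]
      rfl
    rw [this, Matrix.adjugate_one, Matrix.one_apply_eq]
    exact one_ne_zero
  have hg2 : Mg.adjugate 0 0 ≠ 0 := by
    intro h0
    have h := (ev2 sz).1
    rw [h0, map_zero] at h
    refine one2 (Eq.trans ?_ h.symm)
    congr 2
  have hh2 : Mh.adjugate 0 0 ≠ 0 := by
    intro h0
    have h := (ev2 sz).2
    rw [h0, map_zero] at h
    refine one2 (Eq.trans ?_ h.symm)
    congr 2
  obtain ⟨Δ, hΔ, H⟩ := UF.chev parP algInd_parP
    (Mg.det * Mh.det * MA.det * W * (Mg.adjugate 0 0) * (Mh.adjugate 0 0))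
    (mul_ne_zero (mul_ne_zero (mul_ne_zero (mul_ne_zero (mul_ne_zero hg hh) hA) hW) hg2) hh2)
  refine ⟨Δ, hΔ, fun K _ _ c hc => ?_⟩
  obtain ⟨L, _, _, _, hfin, s, hs, hv⟩ := H K c hc
  rw [map_mul, map_mul, map_mul, map_mul, map_mul] at hv
  simp only [mul_ne_zero_iff] at hv
  obtain ⟨⟨⟨⟨⟨h1, h2⟩, h3⟩, h4⟩, h5⟩, h6⟩ := hv
  refine ⟨L, inferInstance, inferInstance, inferInstance, hfin,
    Matrix.of fun a i => s (.inl (0, a, i)), Matrix.of fun a i => s (.inl (1, a, i)),
    Matrix.of fun a i => s (.inl (2, a, i)), Matrix.of fun a i => s (.inl (3, a, i)),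
    Matrix.of fun a i => s (.inr (.inl (a, i))), fun e => s (.inr (.inr e)), ?_, ?_, ?_, ?_, ?_,
    ?_, ?_⟩
  · intro e
    rw [← hs e, aeval_parP]
    rfl
  · rw [← (ev s).1]
    exact h1
  · rw [← (ev s).2.1]
    exact h2
  · rw [← (ev s).2.2]
    exact h3
  · have : aeval s W = aeval (fun e => s (.inr (.inr e))) w := by
      change aeval s (rename (fun e : Ix => (.inr (.inr e) : Px)) w) = _
      rw [aeval_rename]
      rfl
    rw [← this]
    exact h4
  · rw [← (ev2 s).1]
    exact h5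
  · rw [← (ev2 s).2]
    exact h6

end Pool.Agent.Helper76.CY
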