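import Pool.Agent.Helper76.CY.Tri

/-!
# More definitions: linear forms, the tangent space, the local ring of the line at the origin
-/

namespace Pool.Agent.Helper76.CY

open MvPolynomial

/-- The linear form on `K^ι` as a polynomial. -/
noncomputable def lin {ι K : Type*} [Fintype ι] [DecidableEq ι] [Field K]
    (φ : (ι → K) →ₗ[K] K) : MvPolynomial ι K :=
  ∑ q, C (φ (Pi.single q 1)) * X q

/-- The coordinates of a linear map as polynomials. -/
noncomputable def linMap {ι K : Type*} [Fintype ι] [DecidableEq ι] [Field K]
    (π : (ι → K) →ₗ[K] (ι → K)) (q : ι) : MvPolynomial ι K :=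
  lin ((LinearMap.proj q).comp π)

/-- The linear part of the equation `D(r_i, r_j, r_k) = 0` of the variety of planes. -/
def tanVal {K : Type*} [Field K] (D : Ten K) (τ : Idx → K) (i j k : Fin 3) : K :=
  tri D (tv τ i) (bv K (c3 j)) (bv K (c3 k)) + tri D (bv K (c3 i)) (tv τ j) (bv K (c3 k)) +
    tri D (bv K (c3 i)) (bv K (c3 j)) (tv τ k)

section localring

variable (K : Type*) [Field K]

instance isPrime_span_X : (Ideal.span {(Polynomial.X : Polynomial K)}).IsPrime :=
  (Ideal.span_singleton_prime Polynomial.X_ne_zero).2 Polynomial.prime_X

/-- The local ring of the affine line at the origin. -/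
abbrev LocO : Type _ := Localization.AtPrime (Ideal.span {(Polynomial.X : Polynomial K)})

/-- The parameter of `LocO K`. -/
noncomputable def tO : LocO K := algebraMap (Polynomial K) (LocO K) Polynomial.X

end localring

end Pool.Agent.Helper76.CY
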