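import Pool.Agent.Helper76.CY.Act

set_option autoImplicit false
set_option linter.unusedVariables false
set_option linter.unusedSectionVars false

/-!
The normal form.

Parameters: `c : Ix → R`. The point `q = (e0, e0)` lies on the threefold, the line `<e0, e1>` in the
first factor is the `l` of the construction. With `m` the entry `(0,3,0,3)` and `u` the entry
`(3,3)` of the first form of the parameters:

* `L1 = x0 y1 + x1 y3 + x2 y0 + (x2, x3)(y1, y2, y3)`-terms, with coefficient `2 u` of `x3 y3`;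
* `L2 = x0 y2 + x1 y0 + (x2, x3)(y1, y2, y3)`-terms;
* `Q` has no `x0^2 y0 yk`, no `x1^2 y1 yk`, no `x0 x1 y1^2`, no `x0 x1 y0^2`, no `x0 x3 y0^2`; the
  coefficients of `x0 x2 y0^2` and `x3^2 y0^2` are `1/2` and `1/4`, of `x0 x3 y0 y3` is `m`, and of
  `x0^2 y3^2` is `m (m - u)`.
-/

namespace Pool.Agent.Helper76.CY

open MvPolynomial Pool.Agent.Helper37.RP

section

variable {R : Type*} [CommRing R] [Algebra ℚ R]

/-- the first form of the normal form -/
def nfL (c : Ix → R) : Fin 4 → Fin 4 → R :=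
  ![![0, 1, 0, 0], ![0, 0, 0, 1], ![1, pL c 2 1, pL c 2 2, pL c 2 3],
    ![0, pL c 3 1, pL c 3 2, 2 * pL c 3 3]]

/-- the second form of the normal form -/
def nfL' (c : Ix → R) : Fin 4 → Fin 4 → R :=
  ![![0, 0, 1, 0], ![1, 0, 0, 0], ![0, pL' c 2 1, pL' c 2 2, pL' c 2 3],
    ![0, pL' c 3 1, pL' c 3 2, pL' c 3 3]]

/-- the third form of the normal form, as a tensor (not symmetric) -/
def nfQ (c : Ix → R) (i j k l : Fin 4) : R :=
  if (i, j, k, l) = (0, 0, 0, 0) then 0 else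
  if (i, j, k, l) = (0, 0, 0, 1) then -tens c 0 0 1 0 else
  if (i, j, k, l) = (0, 0, 0, 2) then -tens c 0 0 2 0 else
  if (i, j, k, l) = (0, 0, 0, 3) then -tens c 0 0 3 0 else
  if (i, j, k, l) = (1, 1, 0, 1) then -tens c 1 1 1 0 else
  if (i, j, k, l) = (1, 1, 1, 1) then 0 else
  if (i, j, k, l) = (1, 1, 1, 2) then -tens c 1 1 2 1 else
  if (i, j, k, l) = (1, 1, 1, 3) then -tens c 1 1 3 1 else
  if (i, j, k, l) = (0, 1, 1, 1) then -tens c 1 0 1 1 else
  if (i, j, k, l) = (0, 1, 0, 0) then -tens c 1 0 0 0 else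
  if (i, j, k, l) = (0, 3, 0, 0) then -tens c 3 0 0 0 else
  if (i, j, k, l) = (0, 2, 0, 0) then algebraMap ℚ R (1 / 2) - tens c 2 0 0 0 else
  if (i, j, k, l) = (3, 3, 0, 0) then algebraMap ℚ R (1 / 4) else
  if (i, j, k, l) = (0, 0, 3, 3) then tens c 0 3 0 3 * (tens c 0 3 0 3 - pL c 3 3) else
  if (i, j, k, l) = (0, 3, 0, 3) then
    tens c 0 3 0 3 - tens c 3 0 0 3 - tens c 0 3 3 0 - tens c 3 0 3 0
  else tens c i j k l

/-- the coefficients of the normal form with parameters `c` -/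
def nf (c : Ix → R) : Ix → R
  | .inl (i, j) => nfL c i j
  | .inr (.inl (i, j)) => nfL' c i j
  | .inr (.inr (i, j, k, l)) => nfQ c i j k l

theorem map_nf {S : Type*} [CommRing S] [Algebra ℚ S] (φ : R →ₐ[ℚ] S) (c : Ix → R) (e : Ix) :
    φ (nf c e) = nf (fun e => φ (c e)) e := by
  have h2 : φ 2 = 2 := map_ofNat φ 2
  rcases e with ⟨i, j⟩ | ⟨i, j⟩ | ⟨i, j, k, l⟩
  · fin_cases i <;> fin_cases j <;> simp [nf, nfL, pL, h2]
  · fin_cases i <;> fin_cases j <;> simp [nf, nfL', pL']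
  · simp only [nf, nfQ, apply_ite φ, map_zero, map_neg, map_sub, map_mul, tens, pL,
      AlgHom.commutes]

end

end Pool.Agent.Helper76.CY
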