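import Pool.Agent.Helper76.CY.AlgInd
import Pool.Agent.Helper15.PotDense

/-!
# From polynomials to schemes
-/

namespace Pool.Agent.Helper76.CY

open MvPolynomial AlgebraicGeometry CategoryTheory Pool.Agent.Helper15

universe u

/-- `P` is the ideal of the unique irreducible component through the origin of the zero locus of
`I`: it is the smallest prime ideal that contains `I` and is contained in the ideal of the
origin. -/
def IsComponentAtOrigin {ι K : Type*} [Field K] (I P : Ideal (MvPolynomial ι K)) : Prop :=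
  P.IsPrime ∧ I ≤ P ∧ (∀ f ∈ P, constantCoeff f = 0) ∧
    ∀ Q : Ideal (MvPolynomial ι K), Q.IsPrime → I ≤ Q → (∀ f ∈ Q, constantCoeff f = 0) → P ≤ Q

theorem isComponentAtOrigin {ι K : Type*} [Field K] (I : Ideal (MvPolynomial ι K))
    (h0 : ∀ f ∈ I, constantCoeff f = 0) (h : (compIdeal I).IsPrime) :
    IsComponentAtOrigin I (compIdeal I) :=
  ⟨h, le_compIdeal I, constantCoeff_of_mem_compIdeal I h0,
    fun Q hQ hI hQ0 => compIdeal_le_of_isPrime I Q hI hQ0⟩

/-- The affine scheme defined by the ideal `P`. -/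
noncomputable abbrev affineScheme {K : Type u} [Field K] (P : Ideal (MvPolynomial Idx K)) :
    Scheme.{u} :=
  Spec (CommRingCat.of (MvPolynomial Idx K ⧸ P))

/-- Its structure morphism. -/
noncomputable abbrev affineStr {K : Type u} [Field K] (P : Ideal (MvPolynomial Idx K)) :
    affineScheme P ⟶ Spec (CommRingCat.of K) :=
  Spec.map (CommRingCat.ofHom (algebraMap K (MvPolynomial Idx K ⧸ P)))

theorem dense_of_points {K : Type u} [Field K] (P : Ideal (MvPolynomial Idx K))
    (h : ∀ f, f ∉ P → ∃ y : Idx → K, eval y f ≠ 0 ∧ ∀ g ∈ P, eval y g = 0)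
    (X : Scheme.{u}) (s : X ⟶ Spec (CommRingCat.of K)) [IrreducibleSpace X]
    (hX : BirationalOver K X (affineScheme P) s (affineStr P)) : Dense (ratPts K K X s) := by
  refine dense_ratPts_of_birational K K X _ s _ hX (dense_ratPts_spec K K _ fun g hg => ?_)
  obtain ⟨f, rfl⟩ := Ideal.Quotient.mk_surjective g
  rw [Ideal.Quotient.eq_zero_iff_mem]
  by_contra hf
  obtain ⟨y, hy1, hy2⟩ := h f hf
  have h1 := hg (Ideal.Quotient.liftₐ P (aeval y) (fun g hg => by
    rw [aeval_eq_eval]
    exact hy2 g hg))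
  apply hy1
  have h2 : (Ideal.Quotient.liftₐ P (aeval y) (fun g hg => by
    rw [aeval_eq_eval]
    exact hy2 g hg)) (Ideal.Quotient.mk P f) = aeval y f := rfl
  rw [h2, aeval_eq_eval] at h1
  exact h1

theorem algInd_of {K : Type*} [Field K] (P : Ideal (MvPolynomial Idx K))
    (ℓ : Fin 11 → MvPolynomial Idx K)
    (h : ∀ G : MvPolynomial (Fin 11) K, aeval ℓ G ∈ P → G = 0) :
    AlgebraicIndependent K (fun i => (Ideal.Quotient.mk P (ℓ i) : MvPolynomial Idx K ⧸ P)) := by
  rw [algebraicIndependent_iff]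
  intro G hG
  apply h
  rw [← Ideal.Quotient.eq_zero_iff_mem, ← hG]
  have h1 : (Ideal.Quotient.mkₐ K P).comp (aeval ℓ) =
      aeval (fun i => (Ideal.Quotient.mk P (ℓ i) : MvPolynomial Idx K ⧸ P)) := by
    apply MvPolynomial.algHom_ext
    intro i
    rw [AlgHom.comp_apply, aeval_X, aeval_X]
    rfl
  rw [← h1]
  rfl

end Pool.Agent.Helper76.CY
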