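import Pool.Agent.Helper76.CY.Defs

/-!
# Trilinear forms: basic lemmas
-/

namespace Pool.Agent.Helper76.CY

open MvPolynomial

section

variable {K : Type*} [CommRing K] {R : Type*} [CommRing R] [Algebra K R] (D : Ten K)

theorem tri_add_left (x x' y z : Fin 10 → R) : tri D (x + x') y z = tri D x y z + tri D x' y z := by
  simp only [tri, ← Finset.sum_add_distrib]
  refine Finset.sum_congr rfl fun i _ => Finset.sum_congr rfl fun j _ =>
    Finset.sum_congr rfl fun k _ => ?_
  simp only [Pi.add_apply]
  ring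

theorem tri_add_mid (x y y' z : Fin 10 → R) : tri D x (y + y') z = tri D x y z + tri D x y' z := by
  simp only [tri, ← Finset.sum_add_distrib]
  refine Finset.sum_congr rfl fun i _ => Finset.sum_congr rfl fun j _ =>
    Finset.sum_congr rfl fun k _ => ?_
  simp only [Pi.add_apply]
  ring

theorem tri_add_right (x y z z' : Fin 10 → R) : tri D x y (z + z') = tri D x y z + tri D x y z' := by
  simp only [tri, ← Finset.sum_add_distrib]
  refine Finset.sum_congr rfl fun i _ => Finset.sum_congr rfl fun j _ =>
    Finset.sum_congr rfl fun k _ => ?_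
  simp only [Pi.add_apply]
  ring

theorem tri_smul_left (r : R) (x y z : Fin 10 → R) : tri D (r • x) y z = r * tri D x y z := by
  simp only [tri, Finset.mul_sum]
  refine Finset.sum_congr rfl fun i _ => Finset.sum_congr rfl fun j _ =>
    Finset.sum_congr rfl fun k _ => ?_
  simp only [Pi.smul_apply, smul_eq_mul]
  ring

theorem tri_smul_mid (r : R) (x y z : Fin 10 → R) : tri D x (r • y) z = r * tri D x y z := by
  simp only [tri, Finset.mul_sum]
  refine Finset.sum_congr rfl fun i _ => Finset.sum_congr rfl fun j _ =>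
    Finset.sum_congr rfl fun k _ => ?_
  simp only [Pi.smul_apply, smul_eq_mul]
  ring

theorem tri_smul_right (r : R) (x y z : Fin 10 → R) : tri D x y (r • z) = r * tri D x y z := by
  simp only [tri, Finset.mul_sum]
  refine Finset.sum_congr rfl fun i _ => Finset.sum_congr rfl fun j _ =>
    Finset.sum_congr rfl fun k _ => ?_
  simp only [Pi.smul_apply, smul_eq_mul]
  ring

theorem tri_sub_left (x x' y z : Fin 10 → R) : tri D (x - x') y z = tri D x y z - tri D x' y z := by
  have h := tri_add_left D (x - x') x' y z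
  rw [sub_add_cancel] at h
  rw [h]
  ring

theorem tri_sub_mid (x y y' z : Fin 10 → R) : tri D x (y - y') z = tri D x y z - tri D x y' z := by
  have h := tri_add_mid D x (y - y') y' z
  rw [sub_add_cancel] at h
  rw [h]
  ring

theorem tri_sub_right (x y z z' : Fin 10 → R) : tri D x y (z - z') = tri D x y z - tri D x y z' := by
  have h := tri_add_right D x y (z - z') z'
  rw [sub_add_cancel] at h
  rw [h]
  ring

@[simp] theorem tri_zero_left (y z : Fin 10 → R) : tri D 0 y z = 0 := by
  simp [tri]

@[simp] theorem tri_zero_mid (x z : Fin 10 → R) : tri D x 0 z = 0 := by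
  simp [tri]

@[simp] theorem tri_zero_right (x y : Fin 10 → R) : tri D x y 0 = 0 := by
  simp [tri]

theorem tri_swap12 {D : Ten K} (h : ∀ i j k, D i j k = D j i k) (x y z : Fin 10 → R) :
    tri D x y z = tri D y x z := by
  rw [tri, Finset.sum_comm, tri]
  refine Finset.sum_congr rfl fun i _ => Finset.sum_congr rfl fun j _ =>
    Finset.sum_congr rfl fun k _ => ?_
  rw [h]
  ring

theorem tri_swap23 {D : Ten K} (h : ∀ i j k, D i j k = D i k j) (x y z : Fin 10 → R) :
    tri D x y z = tri D x z y := by
  rw [tri, tri]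
  refine Finset.sum_congr rfl fun i _ => ?_
  rw [Finset.sum_comm]
  refine Finset.sum_congr rfl fun j _ => Finset.sum_congr rfl fun k _ => ?_
  rw [h]
  ring

theorem tri_bv (i j k : Fin 10) : tri D (bv R i) (bv R j) (bv R k) = algebraMap K R (D i j k) := by
  simp only [tri, bv, Pi.single_apply]
  rw [Finset.sum_eq_single i (fun b _ hb => by simp [hb]) (by simp)]
  rw [Finset.sum_eq_single j (fun b _ hb => by simp [hb]) (by simp)]
  rw [Finset.sum_eq_single k (fun b _ hb => by simp [hb]) (by simp)]
  simp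

theorem tri_map {S : Type*} [CommRing S] [Algebra K S] (f : R →ₐ[K] S) (x y z : Fin 10 → R) :
    f (tri D x y z) = tri D (fun i => f (x i)) (fun i => f (y i)) (fun i => f (z i)) := by
  simp only [tri, map_sum, map_mul, AlgHom.commutes]

theorem tri_shift (x y z : Fin 10 → R) :
    tri (shift D) (fun j => x (j + 1)) (fun j => y (j + 1)) (fun j => z (j + 1)) = tri D x y z := by
  simp only [tri, shift]
  refine Eq.trans ?_ (Equiv.sum_comp (Equiv.addRight (1 : Fin 10)) (fun i => ∑ j, ∑ k,
    algebraMap K R (D i j k) * x i * y j * z k))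
  refine Finset.sum_congr rfl fun i _ => ?_
  refine Eq.trans ?_ (Equiv.sum_comp (Equiv.addRight (1 : Fin 10)) (fun j => ∑ k,
    algebraMap K R (D (i + 1) j k) * x (i + 1) * y j * z k))
  refine Finset.sum_congr rfl fun j _ => ?_
  exact (Equiv.sum_comp (Equiv.addRight (1 : Fin 10)) (fun k =>
    algebraMap K R (D (i + 1) (j + 1) k) * x (i + 1) * y (j + 1) * z k))

theorem tri_mem_left (I : Ideal R) {x : Fin 10 → R} (hx : ∀ i, x i ∈ I) (y z : Fin 10 → R) :
    tri D x y z ∈ I := by
  refine Ideal.sum_mem _ fun i _ => Ideal.sum_mem _ fun j _ => Ideal.sum_mem _ fun k _ => ?_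
  exact I.mul_mem_right _ (I.mul_mem_right _ (I.mul_mem_left _ (hx i)))

theorem tri_mem_mid (I : Ideal R) (x : Fin 10 → R) {y : Fin 10 → R} (hy : ∀ i, y i ∈ I)
    (z : Fin 10 → R) : tri D x y z ∈ I := by
  refine Ideal.sum_mem _ fun i _ => Ideal.sum_mem _ fun j _ => Ideal.sum_mem _ fun k _ => ?_
  exact I.mul_mem_right _ (I.mul_mem_left _ (hy j))

theorem tri_mem_right (I : Ideal R) (x y : Fin 10 → R) {z : Fin 10 → R} (hz : ∀ i, z i ∈ I) :
    tri D x y z ∈ I := by
  refine Ideal.sum_mem _ fun i _ => Ideal.sum_mem _ fun j _ => Ideal.sum_mem _ fun k _ => ?_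
  exact I.mul_mem_left _ (hz k)

/-- Two arguments in `I` and `J` give a value in `I * J`. -/
theorem tri_mem_mul_left_mid (I J : Ideal R) {x y : Fin 10 → R} (hx : ∀ i, x i ∈ I)
    (hy : ∀ i, y i ∈ J) (z : Fin 10 → R) : tri D x y z ∈ I * J := by
  refine Ideal.sum_mem _ fun i _ => Ideal.sum_mem _ fun j _ => Ideal.sum_mem _ fun k _ => ?_
  refine (I * J).mul_mem_right _ ?_
  rw [mul_assoc]
  exact (I * J).mul_mem_left _ (Ideal.mul_mem_mul (hx i) (hy j))

end

theorem bv_apply {R : Type*} [Zero R] [One R] (i j : Fin 10) :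
    bv R i j = if j = i then 1 else 0 := by
  simp [bv, Pi.single_apply]

theorem tv_add {R : Type*} [Ring R] (a b : Idx → R) (i : Fin 3) :
    tv (a + b) i = tv a i + tv b i := by
  funext j
  simp only [tv, Pi.add_apply]
  split_ifs <;> simp

theorem tv_smul {R S : Type*} [Ring R] [SMulZeroClass S R] (c : S) (a : Idx → R) (i : Fin 3) :
    tv (c • a) i = c • tv a i := by
  funext j
  simp only [tv, Pi.smul_apply]
  split_ifs <;> simp

end Pool.Agent.Helper76.CY
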